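import Pool.Agent.H20.TP.Sec
import Pool.Agent.H24.VP.PosA

/-!
# COROLLARY P (MP_e49dc9_ag): uniform exactness on surfaces
-/

set_option autoImplicit false

namespace Pool.Agent.H20.TP

open Pool.Agent.H54.RV Pool.Agent.H83.TU Pool.Agent.H83.TK Pool.Agent.H20.TD Pool.Agent.H39.TK
open Pool.Agent.H24.VP (RR chS pos_prm)

variable {k K : Type} [Field k] [Field K] [Algebra k K] {X : Mod k K}
  {T : Cart X → Cart X → Cart X → ℝ} {l : Cart X → ℝ} {c : ℝ} {z : X.P} {S A B D G H : Cart X}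

theorem pos_srf [CharZero k] [T0Space X.P] (h : Hyp X) (hr : RR T l c) (htr : Algebra.trdeg k (X.kap z) = 2)
    (hS : SPr X z S) (hA : Ample A) (hB : Ample B) : 0 < T A B S := by
  obtain ⟨P, h1, h2⟩ := pdiv_of_trdeg h htr
  exact pos_prm h hr hA hB P (spr_congr h.var h2 h1 hS)

theorem ev_srf [CharZero k] (h : Hyp X) (hr : RR T l c) (hS : SPr X z S) :
    EvA (fun W => (hz h.var z W : ℝ)) (chS T l S) :=
  fun W A hA => Pool.Agent.H20.TQ.srf_ev h hr hS W A hA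

theorem T_pow1 (hr : RR T l c) (U V W : Cart X) (n : ℕ) : T (U ^ n) V W = n * T U V W := by
  induction n with
  | zero => rw [pow_zero, hr.tri.one, Nat.cast_zero, zero_mul]
  | succ n ih =>
    rw [pow_succ, hr.tri.add, ih]
    push_cast
    ring

theorem T_sq (hr : RR T l c) (W A S : Cart X) (n : ℕ) :
    T (W * A ^ n) (W * A ^ n) S = T W W S + 2 * n * T W A S + n ^ 2 * T A A S := by
  have h1 : ∀ U V : Cart X, T U (W * A ^ n) V = T U W V + n * T U A V := fun U V => by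
    rw [hr.tri.s12, hr.tri.add, T_pow1 hr, hr.tri.s12 W U V, hr.tri.s12 A U V]
  rw [hr.tri.add, T_pow1 hr, h1, h1, hr.tri.s12 A W S]
  ring

theorem T_lin (hr : RR T l c) (W A S S' : Cart X) (n : ℕ) :
    T (W * A ^ n) S S' = T W S S' + n * T A S S' := by
  rw [hr.tri.add, T_pow1 hr]

theorem pl_srf (hr : RR T l c) (S : Cart X) : PlA (chS T l S) := by
  intro W A
  refine ⟨Polynomial.C (T A A S / 2) * Polynomial.X ^ 2 +
    Polynomial.C (T W A S - T A S S / 2) * Polynomial.X + Polynomial.C (chS T l S W), fun n => ?_⟩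
  unfold chS
  rw [T_sq hr, T_lin hr]
  simp only [Polynomial.eval_add, Polynomial.eval_mul, Polynomial.eval_C, Polynomial.eval_pow, Polynomial.eval_X]
  ring

theorem pl_chi (hr : RR T l c) : PlA (Pool.Agent.H24.VP.chi T l c) := by
  intro W A
  have hl : ∀ n : ℕ, l (A ^ n) = n * l A := by
    intro n
    induction n with
    | zero =>
      have h1 := hr.ladd 1 1
      rw [mul_one] at h1
      rw [pow_zero, Nat.cast_zero, zero_mul]
      linarith
    | succ n ih =>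
      rw [pow_succ, hr.ladd, ih]
      push_cast
      ring
  refine ⟨Polynomial.C (T A A A / 6) * Polynomial.X ^ 3 + Polynomial.C (T W A A / 2) * Polynomial.X ^ 2 +
    Polynomial.C (T W W A / 2 + l A) * Polynomial.X + Polynomial.C (Pool.Agent.H24.VP.chi T l c W), fun n => ?_⟩
  unfold Pool.Agent.H24.VP.chi
  have h1 : T (W * A ^ n) (W * A ^ n) (W * A ^ n) =
      T W W W + 3 * n * T W W A + 3 * n ^ 2 * T W A A + n ^ 3 * T A A A := by
    rw [T_sq hr]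
    have h2 : ∀ U V, T U V (W * A ^ n) = T U V W + n * T U V A := fun U V => by
      rw [hr.tri.s23, hr.tri.s12, hr.tri.add, T_pow1 hr, hr.tri.s12 W U V, hr.tri.s12 A U V, hr.tri.s23 U W V,
        hr.tri.s23 U A V]
    rw [h2, h2, h2, hr.tri.s23 W A W, hr.tri.s12 A A W, hr.tri.s23 A A W, hr.tri.s12 A W A]
    ring
  rw [h1, hr.ladd, hl]
  simp only [Polynomial.eval_add, Polynomial.eval_mul, Polynomial.eval_C, Polynomial.eval_pow, Polynomial.eval_X]
  ring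

/-- the subvariety `y` has a uniformly exact polynomial -/
def PcU (hX : IsVar X) (y : X.P) (D B H : Cart X) : Prop :=
  ∃ Q : Cart X → ℝ, EvA (fun W => (hz hX y W : ℝ)) Q ∧ PlA Q ∧ UE (fun W => (hz hX y W : ℝ)) Q D B H

theorem sum_pc (hX : IsVar X) {m : ℕ} (y : Fin m → X.P) (c : Fin m → ℕ) (A₁ : Cart X) (h : ∀ i, PcU hX (y i) D B H) :
    ∃ Q : Cart X → ℝ, EvA (fun W => ∑ i, (hz hX (y i) (W * (A₁ ^ c i)⁻¹) : ℝ)) Q ∧ PlA Q ∧
      UE (fun W => ∑ i, (hz hX (y i) (W * (A₁ ^ c i)⁻¹) : ℝ)) Q D B H := by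
  choose Q h1 h2 h3 using h
  refine ⟨fun W => ∑ i, Q i (W * (A₁ ^ c i)⁻¹), ?_, ?_, ?_⟩
  · exact ev_sum Finset.univ (fun i W => (hz hX (y i) (W * (A₁ ^ c i)⁻¹) : ℝ)) (fun i W => Q i (W * (A₁ ^ c i)⁻¹))
      fun i _ => ev_shift (h1 i) _
  · exact pl_sum Finset.univ (fun i W => Q i (W * (A₁ ^ c i)⁻¹)) fun i _ => pl_shift (h2 i) _
  · exact ue_sum Finset.univ (fun i W => (hz hX (y i) (W * (A₁ ^ c i)⁻¹) : ℝ)) (fun i W => Q i (W * (A₁ ^ c i)⁻¹))
      fun i _ => ue_shift (h3 i) _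

/-- points and curves -/
theorem pc_low [CharZero k] [IsAlgClosed k] (hX : IsVar X) {y : X.P} (htr : Algebra.trdeg k (X.kap y) < 2)
    (hB : Ample B) (hH : Ample H) (hD : Algebra.trdeg k (X.kap y) = 1 → 0 < dz hX y D) : PcU hX y D B H := by
  obtain ⟨n, hn⟩ := Cardinal.lt_aleph0.1 (htr.trans (by exact_mod_cast Cardinal.natCast_lt_aleph0 (n := 2)))
  have hn2 : n < 2 := by
    rw [hn] at htr
    exact_mod_cast htr
  rcases Nat.lt_succ_iff_lt_or_eq.1 hn2 with h1 | h1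
  · have h2 : n = 0 := by omega
    rw [h2, Nat.cast_zero] at hn
    obtain ⟨a, b, c⟩ := ue_pt hX hn
    exact ⟨_, a, b, c D B H⟩
  · rw [h1, Nat.cast_one] at hn
    obtain ⟨P, a, b, c⟩ := ue_cur hX ⟨H, hH⟩ hn
    exact ⟨P, a, b, c D B H (hD hn) (dz_pos hX ⟨H, hH⟩ hn (res_ample hX y _ hB)).le
      (dz_pos hX ⟨H, hH⟩ hn (res_ample hX y _ hH)).le⟩

/-- a large multiple of a divisor which is ample on `z`, minus `H`, has a section on `z` -/
theorem ex_G [CharZero k] (hX : IsVar X) (hA : Ample A) (hD : Ample (resD hX z D)) (H : Cart X) :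
    ∃ m : ℕ, 1 ≤ m ∧ 0 < hz hX z (D ^ m * H⁻¹) := by
  obtain ⟨m₀, hm⟩ := un_pt (isVar_sub hX z) (resD hX z D) (resD hX z H)⁻¹ hD (subG hX z)
  obtain ⟨s, hs, hx⟩ := hm (m₀ + 1) (by omega)
  refine ⟨m₀ + 1, by omega, ?_⟩
  have e : resD hX z (D ^ (m₀ + 1) * H⁻¹) = resD hX z D ^ (m₀ + 1) * (resD hX z H)⁻¹ := by
    rw [map_mul, map_pow, map_inv]
  unfold hz
  rw [e]
  exact H32.TK.pos_of_sec _ (fd_sub hX hA z _) hs (left_ne_zero_of_mul hx.1)

/-- **uniform exactness on surfaces** -/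
theorem ue_srf [CharZero k] [IsAlgClosed k] (h : Hyp X) (hr : RR T l c) (htr : Algebra.trdeg k (X.kap z) = 2)
    (hS : SPr X z S) (hD : Ample (resD h.var z D)) (hB : Ample B) (hH : Ample H) {ZB ZH : Set X.P}
    (hsB : HasS h.var z B ZB) (hsH : HasS h.var z H ZH) : UE (fun W => (hz h.var z W : ℝ)) (chS T l S) D B H := by
  obtain ⟨m, hm, hG⟩ := ex_G h.var hH hD H
  obtain ⟨ZG, hsG⟩ := hasS_of_pos h.var hG
  have hev := ev_srf h hr hS
  have hpl := pl_srf hr S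
  have key : ∀ y, z ⤳ y → Algebra.trdeg k (X.kap y) < 2 → PcU h.var y D B H := fun y hy ht =>
    pc_low h.var ht hB hH fun h1 => dz_pos h.var ⟨H, hH⟩ h1 (amp_sub h.var hy hD)
  have step : ∀ (U : Cart X) (Z : Set X.P), HasS h.var z U Z → ∃ g Q : Cart X → ℝ,
      StA U H (fun W => (hz h.var z W : ℝ)) g ∧ (∀ W, chS T l S W = chS T l S (W * U⁻¹) + Q W) ∧
      UE g Q D B H := by
    intro U Z hU
    obtain ⟨r, y, c, h1, h2⟩ := stz h.var hU hH
    obtain ⟨Q, q1, q2, q3⟩ := sum_pc h.var y c H (D := D) (B := B) (H := H) fun i => by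
      obtain ⟨a, b⟩ := hasS_lt h.var hU (h1 i)
      rw [htr] at b
      exact key _ a b
    exact ⟨_, Q, h2, fun W => st_poly h2 hH hev hpl q1 q2 W, q3⟩
  obtain ⟨g1, Q1, a1, a2, a3⟩ := step _ _ hsG
  obtain ⟨g2, Q2, b1, b2, b3⟩ := step _ _ hsB
  obtain ⟨g3, Q3, c1, c2, c3⟩ := step _ _ hsH
  exact ue_of hev hH a1 a2 (ue_swap a3) b1 b2 b3 c1 c2 c3 hm (by rw [inv_mul_cancel_right])

/-- points, curves and surfaces -/
theorem pc_all [CharZero k] [IsAlgClosed k] (h : Hyp X) (hr : RR T l c) {y : X.P} (htr : Algebra.trdeg k (X.kap y) < 3)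
    (hB : Ample B) (hH : Ample H) (hbB : Pool.Agent.H20.TK.Bpf B) (hbH : Pool.Agent.H20.TK.Bpf H)
    (h1 : Algebra.trdeg k (X.kap y) = 1 → 0 < dz h.var y D)
    (h2 : Algebra.trdeg k (X.kap y) = 2 → Ample (resD h.var y D)) : PcU h.var y D B H := by
  by_cases h3 : Algebra.trdeg k (X.kap y) = 2
  · obtain ⟨S, hS⟩ := spr_of_trdeg h h3
    obtain ⟨Z1, hZ1⟩ := bpf_hasS h hbB y
    obtain ⟨Z2, hZ2⟩ := bpf_hasS h hbH y
    exact ⟨chS T l S, ev_srf h hr hS, pl_srf hr S, ue_srf h hr h3 hS (h2 h3) hB hH hZ1 hZ2⟩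
  · obtain ⟨n, hn⟩ := Cardinal.lt_aleph0.1 (htr.trans (by exact_mod_cast Cardinal.natCast_lt_aleph0 (n := 3)))
    refine pc_low h.var ?_ hB hH h1
    have hn3 : n < 3 := by
      rw [hn] at htr
      exact_mod_cast htr
    have hn2 : n ≠ 2 := by
      rintro rfl
      exact h3 (by rw [hn]; rfl)
    have h4 : n < 2 := by omega
    rw [hn]
    exact_mod_cast h4

/-- a surface contains curves -/
theorem exists_cur [CharZero k] [IsAlgClosed k] [T0Space X.P] (h : Hyp X) (hr : RR T l c)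
    (htr : Algebra.trdeg k (X.kap z) = 2) (hS : SPr X z S) : ∃ x, Cv z x := by
  by_contra hcon
  push Not at hcon
  obtain ⟨A, hA⟩ := h.amp
  obtain ⟨m, hm, hH, hb⟩ := exists_bpf h.var hA
  obtain ⟨H, rfl⟩ : ∃ H, H = A ^ m := ⟨_, rfl⟩
  obtain ⟨Z, hZ⟩ := bpf_hasS h hb z
  obtain ⟨r, y, c', h1, h2⟩ := stz h.var hZ hH
  have h3 : ∀ i W, hz h.var (y i) W = 1 := by
    intro i W
    obtain ⟨a, b⟩ := hasS_lt h.var hZ (h1 i)
    rw [htr] at b
    refine hz_pt h.var ?_ W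
    obtain ⟨n, hn⟩ := Cardinal.lt_aleph0.1 (b.trans (by exact_mod_cast Cardinal.natCast_lt_aleph0 (n := 2)))
    have hn2 : n < 2 := by
      rw [hn] at b
      exact_mod_cast b
    have hn1 : n ≠ 1 := by
      rintro rfl
      exact hcon (y i) ⟨a, by rw [hn, Nat.cast_one]⟩
    have hn0 : n = 0 := by omega
    rw [hn, hn0, Nat.cast_zero]
  obtain ⟨n₀, hn₀⟩ := ev_srf h hr hS 1 _ hH
  have hpos := pos_srf h hr htr hS hH hH
  obtain ⟨n, hn1, hn2⟩ : ∃ n : ℕ, n₀ ≤ n ∧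
      (r : ℝ) - T (A ^ m) (A ^ m) S / 2 + T (A ^ m) S S / 2 < n * T (A ^ m) (A ^ m) S := by
    obtain ⟨n, hn⟩ := exists_nat_gt (((r : ℝ) - T (A ^ m) (A ^ m) S / 2 + T (A ^ m) S S / 2) / T (A ^ m) (A ^ m) S)
    rw [div_lt_iff₀ hpos] at hn
    refine ⟨max n₀ n, le_max_left _ _, hn.trans_le ?_⟩
    exact mul_le_mul_of_nonneg_right (by exact_mod_cast le_max_right _ _) hpos.le
  have a1 := hn₀ (n + 1) (by omega)
  have a2 := hn₀ n hn1
  have a3 := h2.le (1 * (A ^ m) ^ (n + 1))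
  have a4 : 1 * (A ^ m) ^ (n + 1) * (A ^ m)⁻¹ = 1 * (A ^ m) ^ n := by
    rw [pow_succ, ← mul_assoc, mul_inv_cancel_right]
  rw [a4] at a3
  simp only [h3, Nat.cast_one, Finset.sum_const, Finset.card_univ, Fintype.card_fin, nsmul_eq_mul, mul_one] at a3
  dsimp only at a1 a2
  rw [a1, a2] at a3
  unfold chS at a3
  rw [T_sq hr, T_sq hr, T_lin hr, T_lin hr, hr.tri.one, hr.tri.one] at a3
  push_cast at a3
  nlinarith

end Pool.Agent.H20.TP
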