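import Pool.Agent.H20.TP.Def

/-!
# COROLLARY P (MP_e49dc9_ag): curves and points
-/

set_option autoImplicit false

namespace Pool.Agent.H20.TP

open Pool.Agent.H54.RV Pool.Agent.H83.TU Pool.Agent.H83.TK Pool.Agent.H20.TD

variable {k K : Type} [Field k] [Field K] [Algebra k K] {X : Mod k K} {r : ℕ}
  {ν : Cart X →* Multiplicative (Fin r → ℤ)}

theorem crv_of (hX : IsVar X) (hA : ∃ A : Cart X, Ample A) {x : X.P} (hx : Algebra.trdeg k (X.kap x) = 1) :
    H41.TK.Crv (subM hX x) := by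
  obtain ⟨A, hA⟩ := hA
  exact ⟨isVar_sub hX x, ⟨_, gen_sub hX x⟩, ⟨resD hX x A, res_ample _ _ _ hA⟩, hx⟩

theorem dz_mul [CharZero k] (hX : IsVar X) (hA : ∃ A : Cart X, Ample A) {x : X.P}
    (hx : Algebra.trdeg k (X.kap x) = 1) (U V : Cart X) : dz hX x (U * V) = dz hX x U + dz hX x V := by
  unfold dz
  rw [map_mul, H41.TK.dg_mul (crv_of hX hA hx)]

theorem dz_one [CharZero k] (hX : IsVar X) (hA : ∃ A : Cart X, Ample A) {x : X.P}
    (hx : Algebra.trdeg k (X.kap x) = 1) : dz hX x 1 = 0 := by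
  have h1 := dz_mul hX hA hx 1 1
  rw [mul_one] at h1
  omega

theorem dz_pow [CharZero k] (hX : IsVar X) (hA : ∃ A : Cart X, Ample A) {x : X.P}
    (hx : Algebra.trdeg k (X.kap x) = 1) (U : Cart X) (n : ℕ) : dz hX x (U ^ n) = n * dz hX x U := by
  unfold dz
  rw [map_pow, H41.TK.dg_pow (crv_of hX hA hx)]

theorem dz_inv [CharZero k] (hX : IsVar X) (hA : ∃ A : Cart X, Ample A) {x : X.P}
    (hx : Algebra.trdeg k (X.kap x) = 1) (U : Cart X) : dz hX x U⁻¹ = - dz hX x U := by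
  unfold dz
  rw [map_inv, H41.TK.dg_inv (crv_of hX hA hx)]

theorem dz_pos [CharZero k] (hX : IsVar X) (hA : ∃ A : Cart X, Ample A) {x : X.P}
    (hx : Algebra.trdeg k (X.kap x) = 1) {W : Cart X} (hW : Ample (resD hX x W)) : 0 < dz hX x W :=
  H41.TK.dg_ample (crv_of hX hA hx) _ hW

theorem dz_numz [CharZero k] (hX : IsVar X) (hA : ∃ A : Cart X, Ample A) {x : X.P}
    (hx : Algebra.trdeg k (X.kap x) = 1) {W : Cart X} (hW : NumZ W) : dz hX x W = 0 :=
  H41.TK.dg_numz_hom (crv_of hX hA hx) (resD hX x) (fun A hA => res_ample _ _ _ hA) hA W hW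

theorem dR_ci [CharZero k] (hν : NumR ν) (hX : IsVar X) (hA : ∃ A : Cart X, Ample A) {x : X.P}
    (hx : Algebra.trdeg k (X.kap x) = 1) (W : Cart X) : dR hν hX x (cR ν W) = dz hX x W := by
  unfold dR
  refine exR_ci hν (fun U V => ?_) (fun D hD => ?_) W
  · rw [dz_mul hX hA hx]
    push_cast
    rfl
  · rw [dz_numz hX hA hx hD, Int.cast_zero]

/-- the degree as an integral functional -/
theorem dR_int (hν : NumR ν) (hX : IsVar X) (x : X.P) : ∃ φ : Fin r → ℤ, ∀ v, dR hν hX x v = rv φ ⬝ᵥ v := by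
  refine ⟨fun i => dz hX x (Classical.choose (ci_surj hν (Pi.single i 1))), fun v => ?_⟩
  unfold dR exR dotProduct
  rw [LinearMap.sum_apply]
  refine Finset.sum_congr rfl fun i _ => ?_
  rw [LinearMap.smul_apply, LinearMap.proj_apply, smul_eq_mul]
  rfl

/-- the numbers of sections on a curve -/
theorem hz_cur [CharZero k] (hX : IsVar X) (hA : ∃ A : Cart X, Ample A) {x : X.P}
    (hx : Algebra.trdeg k (X.kap x) = 1) :
    ∃ χ : ℤ, ∀ W, -2 * χ < dz hX x W → (hz hX x W : ℤ) = dz hX x W + χ :=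
  ⟨H41.TK.chi (subM hX x), fun W hW => H41.TK.h0_eq (crv_of hX hA hx) _ hW⟩

theorem hz_pt [IsAlgClosed k] (hX : IsVar X) {x : X.P} (hx : Algebra.trdeg k (X.kap x) = 0) (W : Cart X) : hz hX x W = 1 :=
  Pool.Agent.H83.TK.h0_pt hx _ _

/-- a divisor with a section on a curve has degree at least `0` -/
theorem dz_nn [CharZero k] (hX : IsVar X) (hA : ∃ A : Cart X, Ample A) {x : X.P}
    (hx : Algebra.trdeg k (X.kap x) = 1) {W : Cart X} {s : X.kap x} (hs : Sec (resD hX x W) 1 s) (hs0 : s ≠ 0) :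
    0 ≤ dz hX x W := by
  have h1 := H41.TK.dg_sec (crv_of hX hA hx) _ 1 s hs hs0
  rwa [Nat.cast_one, one_mul] at h1

/-- the real degree is positive on the ample cone -/
theorem dR_cc [CharZero k] (hν : NumR ν) (hX : IsVar X) {A : Cart X} (hA : Ample A) {x : X.P}
    (hx : Algebra.trdeg k (X.kap x) = 1) {v : Fin r → ℝ} (hv : v ∈ CC ν) : 0 < dR hν hX x v := by
  have hf : ∀ U V, ((dz hX x (U * V) : ℤ) : ℝ) = (dz hX x U : ℝ) + (dz hX x V : ℝ) := fun U V => by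
    rw [dz_mul hX ⟨A, hA⟩ hx]
    push_cast
    rfl
  obtain ⟨L, hL, hd⟩ := cc_dir hX hν (l := fun W => (dz hX x W : ℝ)) hf (fun B hB => by
    exact_mod_cast dz_pos hX ⟨A, hA⟩ hx (res_ample hX x _ hB)) hA
  have h1 : dR hν hX x = L := ext_uniq hν fun D => by rw [hL]; exact dR_ci hν hX ⟨A, hA⟩ hx D
  rw [h1]
  exact hd.pos hv

/-- the real degree is nonnegative on the nef cone -/
theorem dR_nef [CharZero k] (hν : NumR ν) (hX : IsVar X) {A : Cart X} (hA : Ample A) {x : X.P}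
    (hx : Algebra.trdeg k (X.kap x) = 1) {v : Fin r → ℝ} (hv : v ∈ closure (CC ν)) : 0 ≤ dR hν hX x v := by
  have h1 : IsClosed {x' | 0 ≤ dR hν hX x x'} :=
    isClosed_le continuous_const (LinearMap.continuous_of_finiteDimensional (dR hν hX x))
  exact closure_minimal (fun v hv => (dR_cc hν hX hA hx hv).le) h1 hv

/-- **uniform exactness on curves** -/
theorem ue_cur [CharZero k] (hX : IsVar X) (hA : ∃ A : Cart X, Ample A) {x : X.P}
    (hx : Algebra.trdeg k (X.kap x) = 1) :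
    ∃ P : Cart X → ℝ, EvA (fun W => (hz hX x W : ℝ)) P ∧ PlA P ∧
      ∀ D B H : Cart X, 0 < dz hX x D → 0 ≤ dz hX x B → 0 ≤ dz hX x H →
        UE (fun W => (hz hX x W : ℝ)) P D B H := by
  obtain ⟨χ, hχ⟩ := hz_cur hX hA hx
  refine ⟨fun W => (dz hX x W : ℝ) + χ, ?_, ?_, ?_⟩
  · intro W A hA'
    obtain ⟨n₀, hn₀⟩ : ∃ n₀ : ℕ, n₀ = (-2 * χ - dz hX x W).toNat + 1 := ⟨_, rfl⟩
    refine ⟨n₀, fun n hn => ?_⟩
    have h1 := dz_pos hX hA hx (res_ample hX x _ hA')
    have h2 := hχ (W * A ^ n) (by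
      rw [dz_mul hX hA hx, dz_pow hX hA hx]
      have h3 : (n : ℤ) ≤ n * dz hX x A := le_mul_of_one_le_right (by positivity) h1
      omega)
    have h3 : ((hz hX x (W * A ^ n) : ℤ) : ℝ) = ((dz hX x (W * A ^ n) + χ : ℤ) : ℝ) := by rw [h2]
    push_cast at h3
    exact h3
  · intro W A
    refine ⟨Polynomial.C ((dz hX x W : ℝ) + χ) + Polynomial.C (dz hX x A : ℝ) * Polynomial.X, fun n => ?_⟩
    dsimp only
    rw [dz_mul hX hA hx, dz_pow hX hA hx]
    simp only [Polynomial.eval_add, Polynomial.eval_C, Polynomial.eval_mul, Polynomial.eval_X]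
    push_cast
    ring
  · intro D B H hD hB hH W
    refine ⟨(-2 * χ - dz hX x W).toNat + 1, fun n hn b j => ?_⟩
    have h2 := hχ (W * D ^ n * B ^ b * H ^ j) (by
      rw [dz_mul hX hA hx, dz_mul hX hA hx, dz_mul hX hA hx, dz_pow hX hA hx, dz_pow hX hA hx, dz_pow hX hA hx]
      have h3 : (n : ℤ) ≤ n * dz hX x D := le_mul_of_one_le_right (by positivity) hD
      have h4 : (0 : ℤ) ≤ b * dz hX x B := by positivity
      have h5 : (0 : ℤ) ≤ j * dz hX x H := by positivity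
      omega)
    have h3 : ((hz hX x (W * D ^ n * B ^ b * H ^ j) : ℤ) : ℝ) =
        ((dz hX x (W * D ^ n * B ^ b * H ^ j) + χ : ℤ) : ℝ) := by rw [h2]
    push_cast at h3
    exact h3

/-- uniform exactness on points -/
theorem ue_pt [IsAlgClosed k] (hX : IsVar X) {x : X.P} (hx : Algebra.trdeg k (X.kap x) = 0) :
    EvA (fun W => (hz hX x W : ℝ)) (fun _ => 1) ∧ PlA (X := X) (fun _ => 1) ∧
      ∀ D B H : Cart X, UE (fun W => (hz hX x W : ℝ)) (fun _ => 1) D B H := by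
  refine ⟨fun W A _ => ⟨0, fun n _ => ?_⟩, fun W A => ⟨Polynomial.C 1, fun n => by simp⟩, fun D B H W =>
    ⟨0, fun n _ b j => ?_⟩⟩
  · dsimp only
    rw [hz_pt hX hx, Nat.cast_one]
  · dsimp only
    rw [hz_pt hX hx, Nat.cast_one]

end Pool.Agent.H20.TP
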