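import Pool.Agent.H20.TP.Def
import Pool.Agent.H20.TQ.Big

/-!
# [H20 TP BigX] COROLLARY P (MP_e49dc9_ag): a nef class `p` with `p³ > 0` is ample + effective

PROOF (Siu counting, as H20/TQ/Big `big`, with `count` of H20/TQ/Cnt): `H` ample without base points.  `δ > 0` with `4 δ T(p,p,H) < T(p,p,p)` (`TR p p (cR H) ≥ 0`).
`p' := p + η A` with `η > 0` small: `T(p',p',p') > 3 δ T(p',p',H)` and `δ H - η A - (small ball) ∈ CC`.  A lattice point `W` with `‖W - N p'‖ ≤ 1`, `N` a large natural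
number: `W` is ample (`CC` is open, `p' ∈ CC`), `T(W,W,W) > 3 δ N T(W,W,H)`.  `count`: `h0(n W) ≤ h0(n W - j H) + j (h0(n W) - h0(n W - H))`; with `hr.ev` the left side is
`n^3 T(W,W,W)/6 + O(n)`, and `h0(n W) - h0(n W - H) = n^2 T(W,W,H)/2 + O(n)`: for `j := ⌊n N δ⌋ + 1` and `n` large `h0(n W - j H) > 0`.
`G := W ^ n * (H ^ j)⁻¹`, `x₀ := n N`: `x₀ p - G = n (N p - W) + j H` where `n (N p - W) = - n N η A - n (W - N p')`, `j ≥ n N δ`: in `CC`.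
-/

set_option autoImplicit false

namespace Pool.Agent.H20.TP

open Pool.Agent.H54.RV Pool.Agent.H83.TU Pool.Agent.H83.TK Pool.Agent.H20.TD
open Pool.Agent.H24.VP (RR chS)

variable {k K : Type} [Field k] [Field K] [Algebra k K] {X : Mod k K} {r : ℕ}
  {ν : Cart X →* Multiplicative (Fin r → ℤ)} {T : Cart X → Cart X → Cart X → ℝ} {l : Cart X → ℝ} {c : ℝ} {TR : Tri3 r}
  {p : Fin r → ℝ}

private theorem tri_eq (TR : Tri3 r) (u v w : Fin r → ℝ) :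
    TR u v w = ∑ i, ∑ j, ∑ m, u i * (v j * (w m * TR (Pi.basisFun ℝ (Fin r) i) (Pi.basisFun ℝ (Fin r) j)
      (Pi.basisFun ℝ (Fin r) m))) := by
  classical
  let b := Pi.basisFun ℝ (Fin r)
  have hu : ∀ u : Fin r → ℝ, ∑ i, u i • b i = u := by
    intro u
    have := b.sum_repr u
    simpa [b] using this
  have hA : ∀ u v w : Fin r → ℝ, TR u v w = ∑ i, u i * TR (b i) v w := by
    intro u v w
    have h1 : TR (∑ i, u i • b i) v w = ∑ i, u i * TR (b i) v w := by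
      rw [map_sum, LinearMap.sum_apply, LinearMap.sum_apply]
      exact Finset.sum_congr rfl fun i _ => by
        rw [map_smul, LinearMap.smul_apply, LinearMap.smul_apply, smul_eq_mul]
    rw [← h1, hu]
  have hB : ∀ u v w : Fin r → ℝ, TR u v w = ∑ i, v i * TR u (b i) w := by
    intro u v w
    have h1 : TR u (∑ i, v i • b i) w = ∑ i, v i * TR u (b i) w := by
      rw [map_sum, LinearMap.sum_apply]
      exact Finset.sum_congr rfl fun i _ => by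
        rw [map_smul, LinearMap.smul_apply, smul_eq_mul]
    rw [← h1, hu]
  have hC : ∀ u v w : Fin r → ℝ, TR u v w = ∑ i, w i * TR u v (b i) := by
    intro u v w
    have h1 : TR u v (∑ i, w i • b i) = ∑ i, w i * TR u v (b i) := by
      rw [map_sum]
      exact Finset.sum_congr rfl fun i _ => by rw [map_smul, smul_eq_mul]
    rw [← h1, hu]
  rw [hA u v w]
  refine Finset.sum_congr rfl fun i _ => ?_
  rw [hB (b i) v w, Finset.mul_sum]
  refine Finset.sum_congr rfl fun j _ => ?_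
  rw [hC (b i) (b j) w, Finset.mul_sum, Finset.mul_sum]

private theorem tri_cont (TR : Tri3 r) (s : Fin r → ℝ) (δ : ℝ) :
    Continuous fun u : Fin r → ℝ => TR u u u - 3 * δ * TR u u s := by
  have e : (fun u : Fin r → ℝ => TR u u u - 3 * δ * TR u u s) = fun u : Fin r → ℝ =>
      (∑ i, ∑ j, ∑ m, u i * (u j * (u m * TR (Pi.basisFun ℝ (Fin r) i) (Pi.basisFun ℝ (Fin r) j)
      (Pi.basisFun ℝ (Fin r) m)))) - 3 * δ * ∑ i, ∑ j, ∑ m, u i * (u j * (s m *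
      TR (Pi.basisFun ℝ (Fin r) i) (Pi.basisFun ℝ (Fin r) j) (Pi.basisFun ℝ (Fin r) m))) := by
    funext u
    rw [tri_eq TR u u u, tri_eq TR u u s]
  rw [e]
  fun_prop

/-- an ample class near `p` -/
private theorem near_x (h : Hyp X) (hν : NumR ν)
    (hT : ∀ U V W, TR (cR ν U) (cR ν V) (cR ν W) = T U V W) (hp : p ∈ closure (CC ν)) (h3 : 0 < TR p p p)
    {H : Cart X} (hH : Ample H) : ∃ (W : Cart X) (N : ℕ) (δ : ℝ), 0 < N ∧ 0 < δ ∧ Ample W ∧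
      3 * (N * δ) * T W W H < T W W W ∧ (N : ℝ) • p - cR ν W + ((N : ℝ) * δ) • cR ν H ∈ CC ν := by
  have hHc : cR ν H ∈ CC ν := cc_amp h.var hν hH
  obtain ⟨δ, hδ⟩ : ∃ δ, δ = TR p p p / (6 * (|TR p p (cR ν H)| + 1)) := ⟨_, rfl⟩
  have hδ0 : 0 < δ := by rw [hδ]; positivity
  have hf : 0 < TR p p p - 3 * δ * TR p p (cR ν H) := by
    have e1 : δ * (6 * (|TR p p (cR ν H)| + 1)) = TR p p p := by
      rw [hδ]
      have : (6 * (|TR p p (cR ν H)| + 1)) ≠ 0 := by positivity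
      field_simp
    have e2 := le_abs_self (TR p p (cR ν H))
    have e3 : δ * TR p p (cR ν H) ≤ δ * |TR p p (cR ν H)| := mul_le_mul_of_nonneg_left e2 hδ0.le
    nlinarith
  have hopen : IsOpen {u : Fin r → ℝ | 0 < TR u u u - 3 * δ * TR u u (cR ν H)} :=
    isOpen_lt continuous_const (tri_cont TR (cR ν H) δ)
  obtain ⟨ρ₁, hρ₁, hb1⟩ := Metric.isOpen_iff.1 hopen p hf
  have hδH : δ • cR ν H ∈ CC ν := cc_smul hδ0 hHc
  obtain ⟨ρ₂, hρ₂, hb2⟩ := Metric.isOpen_iff.1 (cc_open (ν := ν)) _ hδH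
  obtain ⟨ρ, hρ⟩ : ∃ ρ, ρ = min ρ₁ ρ₂ := ⟨_, rfl⟩
  have hρ0 : 0 < ρ := by rw [hρ]; exact lt_min hρ₁ hρ₂
  obtain ⟨u, huc, hup⟩ := Metric.mem_closure_iff.1 hp (ρ / 2) (by positivity)
  obtain ⟨ρ₃, hρ₃, hb3⟩ := Metric.isOpen_iff.1 (cc_open (ν := ν)) u huc
  obtain ⟨σ, hσ⟩ : ∃ σ, σ = min (ρ / 2) ρ₃ / 2 := ⟨_, rfl⟩
  have hσ0 : 0 < σ := by
    rw [hσ]
    have : 0 < min (ρ / 2) ρ₃ := lt_min (by positivity) hρ₃
    positivity
  have hσ1 : σ < ρ / 2 := by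
    have h4 : min (ρ / 2) ρ₃ ≤ ρ / 2 := min_le_left _ _
    have h5 : 0 < min (ρ / 2) ρ₃ := lt_min (by positivity) hρ₃
    rw [hσ]
    linarith
  have hσ3 : σ < ρ₃ := by
    have h4 : min (ρ / 2) ρ₃ ≤ ρ₃ := min_le_right _ _
    have h5 : 0 < min (ρ / 2) ρ₃ := lt_min (by positivity) hρ₃
    rw [hσ]
    linarith
  obtain ⟨N, d, hN, hNσ, hd⟩ := exists_near u hσ0
  obtain ⟨W, hW⟩ := ci_surj hν d
  have hN' : (0 : ℝ) < N := by exact_mod_cast hN
  obtain ⟨w, hw⟩ : ∃ w : Fin r → ℝ, w = (N : ℝ)⁻¹ • cR ν W := ⟨_, rfl⟩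
  have hWw : cR ν W = (N : ℝ) • w := by rw [hw, smul_smul, mul_inv_cancel₀ hN'.ne', one_smul]
  have hwu : ‖w - u‖ ≤ σ := by
    have e1 : w - u = (N : ℝ)⁻¹ • (rv d - (N : ℝ) • u) := by
      rw [smul_sub, smul_smul, inv_mul_cancel₀ hN'.ne', one_smul, hw]
      show (N : ℝ)⁻¹ • rv (ci ν W) - u = _
      rw [hW]
    rw [e1, norm_smul, norm_inv, Real.norm_eq_abs, abs_of_pos hN']
    have e2 : (N : ℝ)⁻¹ * ‖rv d - (N : ℝ) • u‖ ≤ (N : ℝ)⁻¹ * 1 :=
      mul_le_mul_of_nonneg_left hd (by positivity)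
    refine e2.trans ?_
    rw [mul_one, inv_le_iff_one_le_mul₀ hN']
    linarith
  have hwC : w ∈ CC ν := hb3 (by
    rw [Metric.mem_ball, dist_eq_norm]
    exact lt_of_le_of_lt hwu hσ3)
  have hwp : ‖w - p‖ < ρ := by
    have e1 : w - p = (w - u) + (u - p) := by abel
    rw [e1]
    refine lt_of_le_of_lt (norm_add_le _ _) ?_
    rw [dist_comm, dist_eq_norm] at hup
    linarith
  refine ⟨W, N, δ, hN, hδ0, ?_, ?_, ?_⟩
  · apply cc_ample
    show cR ν W ∈ CC ν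
    rw [hWw]
    exact cc_smul hN' hwC
  · have e1 : 0 < TR w w w - 3 * δ * TR w w (cR ν H) := hb1 (by
      rw [Metric.mem_ball, dist_eq_norm]
      exact lt_of_lt_of_le hwp (by rw [hρ]; exact min_le_left _ _))
    rw [← hT W W W, ← hT W W H, hWw]
    simp only [map_smul, LinearMap.smul_apply, smul_eq_mul]
    have e2 : 0 < (N : ℝ) ^ 3 * (TR w w w - 3 * δ * TR w w (cR ν H)) := by positivity
    nlinarith
  · have e1 : p - w + δ • cR ν H ∈ CC ν := hb2 (by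
      rw [Metric.mem_ball, dist_eq_norm]
      have e2 : p - w + δ • cR ν H - δ • cR ν H = -(w - p) := by abel
      rw [e2, norm_neg]
      exact lt_of_lt_of_le hwp (by rw [hρ]; exact min_le_right _ _))
    have e2 := cc_smul hN' e1
    have e3 : (N : ℝ) • (p - w + δ • cR ν H) = (N : ℝ) • p - cR ν W + ((N : ℝ) * δ) • cR ν H := by
      rw [smul_add, smul_sub, smul_smul, hWw]
    rwa [e3] at e2

theorem big_x [CharZero k] [IsAlgClosed k] [T0Space X.P] (h : Hyp X) (hr : RR T l c) (hν : NumR ν)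
    (hT : ∀ U V W, TR (cR ν U) (cR ν V) (cR ν W) = T U V W) (hp : p ∈ closure (CC ν)) (h3 : 0 < TR p p p) :
    ∃ (G : Cart X) (x₀ : ℝ), 0 < x₀ ∧ 0 < h0 G 1 ∧ x₀ • p - cR ν G ∈ CC ν := by
  obtain ⟨A, hA⟩ := h.amp
  obtain ⟨m₀, hm₀, hB⟩ := Pool.Agent.H20.TK.bpf_exists h.var A hA
  obtain ⟨G, hG⟩ : ∃ G, G = A ^ m₀ := ⟨_, rfl⟩
  rw [← hG] at hB
  have hGA : Ample G := by rw [hG]; exact ample_pow A m₀ hm₀ hA
  obtain ⟨W, N, δ', hN, hδ', hWA, hm3, hcc⟩ := near_x h hν hT hp h3 hGA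
  have hN' : (0 : ℝ) < N := by exact_mod_cast hN
  obtain ⟨a, ha⟩ : ∃ a, a = (N : ℝ) * δ' := ⟨_, rfl⟩
  have ha0 : 0 < a := by rw [ha]; positivity
  rw [← ha] at hm3 hcc
  obtain ⟨n0, h0'⟩ := Pool.Agent.H20.TQ.count h hWA hB
  obtain ⟨n1, h1⟩ := hr.ev 1 W hWA
  obtain ⟨n2, h2⟩ := hr.ev G⁻¹ W hWA
  obtain ⟨V, hV⟩ : ∃ V, V = T W W W := ⟨_, rfl⟩
  obtain ⟨Q, hQ⟩ : ∃ Q, Q = T W W G := ⟨_, rfl⟩
  have hQ0 : 0 ≤ Q := by
    have := Pool.Agent.H20.TQ.eff_nn h hr (Pool.Agent.H20.TQ.bpf_pos h hB) hWA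
    rw [hQ, hr.tri.s23, hr.tri.s12]
    exact this
  rw [← hV, ← hQ] at hm3
  obtain ⟨e, he⟩ : ∃ e, e = |T W G G| / 2 + |T G G G| / 6 + |l G| := ⟨_, rfl⟩
  have he0 : 0 ≤ e := by rw [he]; positivity
  obtain ⟨δ, hδ⟩ : ∃ δ, δ = V / 6 - a * Q / 2 := ⟨_, rfl⟩
  have hδ0 : 0 < δ := by rw [hδ]; linarith
  obtain ⟨n, hn⟩ := exists_nat_gt (max (max (n0 : ℝ) n1) (max (n2 : ℝ) ((e * a + Q / 2 + e + |l W| + |c|) / δ + 1)))
  have g0 : n0 ≤ n := by
    have : (n0 : ℝ) < n := lt_of_le_of_lt ((le_max_left _ _).trans (le_max_left _ _)) hn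
    exact_mod_cast this.le
  have g1 : n1 ≤ n := by
    have : (n1 : ℝ) < n := lt_of_le_of_lt ((le_max_right _ _).trans (le_max_left _ _)) hn
    exact_mod_cast this.le
  have g2 : n2 ≤ n := by
    have : (n2 : ℝ) < n := lt_of_le_of_lt ((le_max_left _ _).trans (le_max_right _ _)) hn
    exact_mod_cast this.le
  have g3 : (e * a + Q / 2 + e + |l W| + |c|) / δ + 1 < n :=
    lt_of_le_of_lt ((le_max_right _ _).trans (le_max_right _ _)) hn
  have g4 : 0 ≤ (e * a + Q / 2 + e + |l W| + |c|) / δ := by positivity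
  have hn1 : (1 : ℝ) ≤ n := by linarith
  have g5 : e * a + Q / 2 + e + |l W| + |c| < n * δ := by
    have : (e * a + Q / 2 + e + |l W| + |c|) / δ < n := by linarith
    rwa [div_lt_iff₀ hδ0] at this
  obtain ⟨j, hj⟩ : ∃ j, j = ⌊(n : ℝ) * a⌋₊ + 1 := ⟨_, rfl⟩
  have hj1 : (n : ℝ) * a < j := by
    rw [hj]
    push_cast
    exact Nat.lt_floor_add_one _
  have hj2 : (j : ℝ) ≤ n * a + 1 := by
    rw [hj]
    push_cast
    have := Nat.floor_le (show 0 ≤ (n : ℝ) * a by positivity)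
    linarith
  have a0 := h0' n g0 j
  have a1 := h1 n g1
  have a2 := h2 n g2
  have a3 := hr.chi_sub G (W ^ n)
  rw [one_mul] at a1
  rw [mul_comm] at a2
  rw [a1, a2, a3] at a0
  have a4 : chS T l G (W ^ n) ≤ n ^ 2 * (Q / 2) + n * e := by
    unfold chS
    rw [hr.tri.pow, hr.tri.pow2, hr.tri.pow, ← hQ, he]
    have b1 := neg_le_abs (T W G G)
    have b2 := le_abs_self (T G G G)
    have b3 := le_abs_self (l G)
    have b4 : (n : ℝ) * -T W G G ≤ n * |T W G G| := mul_le_mul_of_nonneg_left b1 (by linarith)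
    have b5 : 1 * |T G G G| ≤ n * |T G G G| := mul_le_mul_of_nonneg_right hn1 (abs_nonneg _)
    have b6 : 1 * |l G| ≤ n * |l G| := mul_le_mul_of_nonneg_right hn1 (abs_nonneg _)
    nlinarith
  have a5 : (j : ℝ) * chS T l G (W ^ n) ≤ (n * a + 1) * (n ^ 2 * (Q / 2) + n * e) := by
    refine (mul_le_mul_of_nonneg_left a4 (Nat.cast_nonneg j)).trans ?_
    exact mul_le_mul_of_nonneg_right hj2 (by positivity)
  have a6 : Pool.Agent.H24.VP.chi T l c (W ^ n) = n ^ 3 * (V / 6) + n * l W + c := by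
    unfold Pool.Agent.H24.VP.chi
    rw [hr.tri.pow, hr.tri.pow2, hr.tri.pow3, hr.l_pow, ← hV]
    ring
  rw [a6] at a0
  have a7 : 0 < (h0 (W ^ n * (G ^ j)⁻¹) 1 : ℝ) := by
    have b1 : (n : ℝ) ^ 2 * (e * a + Q / 2 + e + |l W| + |c|) < n ^ 2 * (n * δ) :=
      mul_lt_mul_of_pos_left g5 (by positivity)
    have b2 := neg_abs_le (l W)
    have b3 := neg_abs_le c
    have b4 : (n : ℝ) * 1 ≤ n * n := mul_le_mul_of_nonneg_left hn1 (by linarith)
    have b5 : (n : ℝ) * -|l W| ≤ n * l W := mul_le_mul_of_nonneg_left b2 (by linarith)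
    have b6 : (n : ℝ) * |l W| ≤ n ^ 2 * |l W| := mul_le_mul_of_nonneg_right (by nlinarith) (abs_nonneg _)
    have b7 : 1 * |c| ≤ (n : ℝ) ^ 2 * |c| := mul_le_mul_of_nonneg_right (by nlinarith) (abs_nonneg _)
    have b8 : (n : ℝ) * e ≤ n ^ 2 * e := mul_le_mul_of_nonneg_right (by nlinarith) he0
    have b9 : (n : ℝ) ^ 3 * (V / 6) = n ^ 2 * (n * δ) + n ^ 3 * (a * Q / 2) := by
      rw [hδ]
      ring
    nlinarith
  have hn0 : (0 : ℝ) < n := by linarith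
  refine ⟨W ^ n * (G ^ j)⁻¹, n * N, by positivity, by exact_mod_cast a7, ?_⟩
  have e1 : cR ν (W ^ n * (G ^ j)⁻¹) = (n : ℝ) • cR ν W - (j : ℝ) • cR ν G := by
    show rv (ci ν (W ^ n * (G ^ j)⁻¹)) = (n : ℝ) • rv (ci ν W) - (j : ℝ) • rv (ci ν G)
    rw [ci_mul, ci_inv, ci_pow, ci_pow, rv_add, rv_neg, rv_smul, rv_smul, sub_eq_add_neg,
      Int.cast_natCast, Int.cast_natCast]
  have e2 : ((n : ℝ) * N) • p - cR ν (W ^ n * (G ^ j)⁻¹) =
      (n : ℝ) • ((N : ℝ) • p - cR ν W + a • cR ν G) + ((j : ℝ) - n * a) • cR ν G := by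
    rw [e1, smul_add, smul_sub, smul_smul, smul_smul, sub_smul]
    abel
  rw [e2]
  exact cc_add h.var hν (cc_smul hn0 hcc) (cc_smul (by linarith) (cc_amp h.var hν hGA))

end Pool.Agent.H20.TP
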