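import Pool.Agent.H20.TP.Def

/-!
# [H20 TP Cmp] COROLLARY P (MP_e49dc9_ag): COMP

PROOF: `comp` of H20/TQ/Sp with `T(e,.,S)` instead of `T1 T A D t . S` and `he.eff` instead of `T1_nn`.
-/

set_option autoImplicit false

namespace Pool.Agent.H20.TP

open Pool.Agent.H54.RV Pool.Agent.H83.TU Pool.Agent.H83.TK Pool.Agent.H20.TD
open Pool.Agent.H24.VP (RR chS)

variable {k K : Type} [Field k] [Field K] [Algebra k K] {X : Mod k K} {r : ℕ}
  {ν : Cart X →* Multiplicative (Fin r → ℤ)} {T : Cart X → Cart X → Cart X → ℝ} {l : Cart X → ℝ} {c : ℝ} {TR : Tri3 r}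
  {e : Fin r → ℝ}

theorem cmp [CharZero k] [T0Space X.P] (h : Hyp X) (hr : RR T l c) (hν : NumR ν) (P : PDiv X) {S : Cart X}
    (hS : SPr X P.η S) (he : MS hν h.var TR P.η S e) {G : Cart X} (hG : 0 < h0 G 1)
    (hn : TR e (cR ν G) (cR ν S) < 0) : TR e (cR ν S) (cR ν S) < 0 := by
  by_contra hcon
  push Not at hcon
  obtain ⟨B, hB⟩ := h.amp
  have emul : ∀ U : Cart X, TR e (cR ν (U * S⁻¹)) (cR ν S) =
      TR e (cR ν U) (cR ν S) - TR e (cR ν S) (cR ν S) := by
    intro U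
    have e3 : cR ν (U * S⁻¹) = cR ν U - cR ν S := by
      change rv (ci ν (U * S⁻¹)) = rv (ci ν U) - rv (ci ν S)
      rw [ci_mul, ci_inv, rv_add, rv_neg, sub_eq_add_neg]
    rw [e3, map_sub, LinearMap.sub_apply]
  have key : ∀ a : ℕ, 0 < h0 (G * (S ^ a)⁻¹) 1 ∧ TR e (cR ν (G * (S ^ a)⁻¹)) (cR ν S) < 0 := by
    intro a
    induction a with
    | zero =>
      rw [pow_zero, inv_one, mul_one]
      exact ⟨hG, hn⟩
    | succ a ih =>
      obtain ⟨ih1, ih2⟩ := ih
      have e1 : G * (S ^ (a + 1))⁻¹ = G * (S ^ a)⁻¹ * S⁻¹ := by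
        rw [pow_succ, mul_inv, mul_assoc]
      rw [e1]
      constructor
      · have := Pool.Agent.H24.TK.fd h.var h.gen hB (G * (S ^ a)⁻¹)
        have a4 := ex_dim h.var hS (G * (S ^ a)⁻¹) 1
        by_contra h5
        have h6 : 0 < Module.finrank k (LinearMap.range (resS h.var P.η (G * (S ^ a)⁻¹) 1)) := by
          rw [pow_one] at a4
          omega
        have h7 : 0 < h0 (resD h.var P.η (G * (S ^ a)⁻¹)) 1 := by
          have h8 := Pool.Agent.H24.TK.fd (isVar_sub h.var P.η) ⟨_, gen_sub h.var P.η⟩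
            (res_ample h.var P.η _ hB) (resD h.var P.η (G * (S ^ a)⁻¹))
          unfold h0
          exact h6.trans_le (Submodule.finrank_le _)
        have h8 := he.eff _ h7
        linarith
      · rw [emul]
        linarith
  have hS0 := Pool.Agent.H24.VP.pos_prm h hr hB hB P hS
  obtain ⟨a, ha⟩ := exists_nat_gt (T G B B / T B B S)
  rw [div_lt_iff₀ hS0] at ha
  have h1 := Pool.Agent.H20.TQ.eff_nn h hr (key a).1 hB
  rw [hr.tri.add, hr.tri.inv, hr.tri.pow, hr.tri.s12 S B B, hr.tri.s23 B S B] at h1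
  linarith

end Pool.Agent.H20.TP
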