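import Pool.Agent.H20.TP.Ms

/-!
# [H20 TP Cpt] COROLLARY P (MP_e49dc9_ag): compactness of `M_S / K_S`

If LOC holds at all points of `M_S` with `T(e,A,S) > 0` then one finite family works for all of `M_S`.
PROOF. `KS` is a linear subspace (intersection of kernels): `K' : Submodule`, `V'` a complement (`Submodule.exists_isCompl`).  `Σ := {e ∈ V' | MS e, ‖e‖ = 1}` is compact
(`ms_closed`, finite dimension) and `T(e,A,S) > 0` on it (`eff` for a multiple of `A` gives `≥ 0`; `= 0` gives `e ∈ KS ∩ V' = 0`, `ms_zero`).  Finitely many of the balls of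
`LocAt` cover `Σ`: `F` := the union of their families and of `{dR x}` for one curve `x` of `z` (`hcur`).  Let `p ∈ M_S`, `p = p' + v`, `p' ∈ V'`, `v ∈ KS`: `p' ∈ M_S`
(`ms_add` with `-v`).  `p' = 0`: `dR x p = 0`.  Otherwise `p'/‖p'‖ ∈ Σ` is good or killed by a `φ ∈ F`; both properties are invariant under positive multiples and under `KS`.
-/

set_option autoImplicit false

namespace Pool.Agent.H20.TP

open Pool.Agent.H54.RV Pool.Agent.H83.TU Pool.Agent.H83.TK Pool.Agent.H20.TD
open Pool.Agent.H24.VP (RR chS)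

variable {k K : Type} [Field k] [Field K] [Algebra k K] {X : Mod k K} {r : ℕ}
  {ν : Cart X →* Multiplicative (Fin r → ℤ)} {T : Cart X → Cart X → Cart X → ℝ} {l : Cart X → ℝ} {c : ℝ} {TR : Tri3 r}
  {z : X.P} {S : Cart X}

private theorem lin_ext {M : Type*} [AddCommGroup M] [Module ℝ M] (hν : NumR ν)
    {f g : (Fin r → ℝ) →ₗ[ℝ] M} (h : ∀ W, f (cR ν W) = g (cR ν W)) : f = g := by
  refine LinearMap.pi_ext' fun i => LinearMap.ext_ring ?_
  obtain ⟨W, hW⟩ := ci_surj hν (Pi.single i 1)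
  have h1 := h W
  have h2 : cR ν W = Pi.single i 1 := by
    show rv (ci ν W) = Pi.single i 1
    rw [hW, rv_single]
  rw [h2] at h1
  exact h1

private theorem tr_sym (hr : RR T l c) (hν : NumR ν)
    (hT : ∀ U V W, TR (cR ν U) (cR ν V) (cR ν W) = T U V W) (u v w : Fin r → ℝ) :
    TR u v w = TR v u w := by
  have h1 : TR = TR.flip := by
    refine lin_ext hν fun U => lin_ext hν fun V => lin_ext hν fun W => ?_
    rw [LinearMap.flip_apply, hT, hT, hr.tri.s12]
  have h2 := congrArg (fun f : Tri3 r => f u v w) h1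
  simp only [LinearMap.flip_apply] at h2
  exact h2

/-- the kernel as a subspace -/
private def KSub (hν : NumR ν) (hX : IsVar X) (TR : Tri3 r) (z : X.P) (S : Cart X) :
    Submodule ℝ (Fin r → ℝ) where
  carrier := KS hν hX TR z S
  zero_mem' := ⟨fun W => by rw [map_zero, LinearMap.zero_apply, LinearMap.zero_apply],
    fun x _ => map_zero _⟩
  add_mem' := by
    rintro a b ⟨a1, a2⟩ ⟨b1, b2⟩
    refine ⟨fun W => ?_, fun x hx => ?_⟩
    · rw [map_add, LinearMap.add_apply, LinearMap.add_apply, a1, b1, add_zero]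
    · rw [map_add, a2 x hx, b2 x hx, add_zero]
  smul_mem' := by
    rintro t a ⟨a1, a2⟩
    refine ⟨fun W => ?_, fun x hx => ?_⟩
    · rw [map_smul, LinearMap.smul_apply, LinearMap.smul_apply, a1, smul_zero]
    · rw [map_smul, a2 x hx, smul_zero]

private theorem mem_KSub {hν : NumR ν} {hX : IsVar X} {v : Fin r → ℝ} :
    v ∈ KSub hν hX TR z S ↔ v ∈ KS hν hX TR z S := Iff.rfl

theorem cpt [CharZero k] [IsAlgClosed k] [T0Space X.P] (h : Hyp X) (hr : RR T l c) (hν : NumR ν)
    (hT : ∀ U V W, TR (cR ν U) (cR ν V) (cR ν W) = T U V W)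
    (htr : Algebra.trdeg k (X.kap z) = 2) (hS : SPr X z S) {A : Cart X} (hA : Ample A) (hcur : ∃ x, Cv z x)
    (hall : ∀ e, MS hν h.var TR z S e → 0 < TR e (cR ν A) (cR ν S) → LocAt hν h.var TR z S A e) :
    ∃ F : Set (Fin r → ℤ), Fam hν h.var TR z S A F ∧
      ∀ p, MS hν h.var TR z S p → Good hν h.var TR z S p ∨ ∃ φ ∈ F, rv φ ⬝ᵥ p = 0 := by
  classical
  have hsym := tr_sym hr hν hT
  have hMA : MS hν h.var TR z S (cR ν A) :=
    ms_nef h hr hν hT htr hS (subset_closure (cc_amp h.var hν hA))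
  have hker : ∀ v ∈ KS hν h.var TR z S, ∀ u, TR v u (cR ν S) = 0 := by
    intro v hv u
    have h1 : (TR v).flip (cR ν S) = 0 := by
      refine lin_ext hν fun W => ?_
      rw [LinearMap.flip_apply, LinearMap.zero_apply]
      exact hv.1 W
    have h2 := congrArg (fun f : (Fin r → ℝ) →ₗ[ℝ] ℝ => f u) h1
    simpa only [LinearMap.flip_apply, LinearMap.zero_apply] using h2
  obtain ⟨V', hV'⟩ := Submodule.exists_isCompl (KSub hν h.var TR z S)
  -- the compact set
  obtain ⟨Sg, hSg⟩ : ∃ Sg : Set (Fin r → ℝ), Sg = Metric.sphere 0 1 ∩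
    ((V' : Set (Fin r → ℝ)) ∩ {e | MS hν h.var TR z S e}) := ⟨_, rfl⟩
  have hSgc : IsCompact Sg := by
    rw [hSg]
    exact (isCompact_sphere _ _).inter_right
      ((Submodule.closed_of_finiteDimensional V').inter (ms_closed h.var hν))
  have hpos : ∀ e ∈ Sg, 0 < TR e (cR ν A) (cR ν S) := by
    intro e he
    rw [hSg] at he
    obtain ⟨h1, h2, h3⟩ := he
    refine lt_of_le_of_ne (ms_TT h hr hν hT htr hS h3 hMA) fun h0 => ?_
    have h4 : e ∈ KSub hν h.var TR z S := ms_zero h hr hν hT htr hS hA h3 h0.symm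
    have h5 : e = 0 := (Submodule.mem_bot ℝ).1 (hV'.disjoint.le_bot ⟨h4, h2⟩)
    rw [h5, mem_sphere_zero_iff_norm, norm_zero] at h1
    exact zero_ne_one h1
  have hloc : ∀ e ∈ Sg, LocAt hν h.var TR z S A e := by
    intro e he
    refine hall e ?_ (hpos e he)
    rw [hSg] at he
    exact he.2.2
  choose! η G hη hG1 hG2 using hloc
  obtain ⟨t, ht2⟩ := hSgc.elim_nhds_subcover' (fun e _ => Metric.ball e (η e))
    (fun e he => Metric.ball_mem_nhds e (hη e he))
  obtain ⟨x, hx⟩ := hcur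
  obtain ⟨φ, hφ⟩ := dR_int hν h.var x
  refine ⟨insert φ (⋃ e ∈ t, G e), ⟨?_, ?_, ?_⟩, ?_⟩
  · refine Set.Finite.insert _ (t.finite_toSet.biUnion fun e _ => (hG1 e e.2).fin)
  · intro ψ hψ
    rcases Set.mem_insert_iff.1 hψ with h1 | h1
    · rw [h1, ← hφ, dR_ci hν h.var h.amp hx.2]
      exact_mod_cast dz_pos h.var h.amp hx.2 (res_ample _ _ _ hA)
    · obtain ⟨e, he, h2⟩ := Set.mem_iUnion₂.1 h1
      exact (hG1 e e.2).pos ψ h2
  · intro ψ hψ v hv
    rcases Set.mem_insert_iff.1 hψ with h1 | h1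
    · rw [h1, ← hφ]
      exact hv.2 x hx
    · obtain ⟨e, he, h2⟩ := Set.mem_iUnion₂.1 h1
      exact (hG1 e e.2).ker ψ h2 v hv
  · intro p hp
    obtain ⟨v, hv, p', hp', hvp⟩ : ∃ v ∈ KSub hν h.var TR z S, ∃ p' ∈ V', v + p' = p :=
      Submodule.mem_sup.1 (by rw [hV'.sup_eq_top]; trivial)
    have hp'm : MS hν h.var TR z S p' := by
      have h1 : p' = p + -v := by
        rw [← hvp]
        abel
      rw [h1]
      exact ms_add h.var hν hsym hp ((KSub hν h.var TR z S).neg_mem hv)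
    by_cases h0 : p' = 0
    · right
      refine ⟨φ, Set.mem_insert _ _, ?_⟩
      rw [← hφ, ← hvp, h0, add_zero]
      exact hv.2 x hx
    · have hN : 0 < ‖p'‖ := norm_pos_iff.2 h0
      obtain ⟨q, hq⟩ : ∃ q, q = ‖p'‖⁻¹ • p' := ⟨_, rfl⟩
      have hpq : p' = ‖p'‖ • q := by
        rw [hq, smul_smul, mul_inv_cancel₀ hN.ne', one_smul]
      have hqSg : q ∈ Sg := by
        rw [hSg]
        refine ⟨?_, ?_, ?_⟩
        · rw [mem_sphere_zero_iff_norm, hq, norm_smul, norm_inv, norm_norm, inv_mul_cancel₀ hN.ne']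
        · rw [hq]
          exact V'.smul_mem _ hp'
        · rw [hq]
          exact ms_smul h.var hν (inv_nonneg.2 hN.le) hp'm
      have hqm : MS hν h.var TR z S q := by
        rw [hq]
        exact ms_smul h.var hν (inv_nonneg.2 hN.le) hp'm
      obtain ⟨e, he, hqe⟩ := Set.mem_iUnion₂.1 (ht2 hqSg)
      rw [Metric.mem_ball, dist_eq_norm] at hqe
      have hpe : p = v + ‖p'‖ • q := by rw [← hpq, hvp]
      rcases hG2 e e.2 q hqm hqe with h1 | ⟨ψ, hψ, h1⟩
      · left
        refine ⟨?_, fun y hy => ?_⟩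
        · have h2 : TR p p (cR ν S) = ‖p'‖ * (‖p'‖ * TR q q (cR ν S)) := by
            have h3 : ∀ u, TR p u (cR ν S) = TR v u (cR ν S) + ‖p'‖ * TR q u (cR ν S) := by
              intro u
              rw [hpe, map_add, map_smul, LinearMap.add_apply, LinearMap.add_apply,
                LinearMap.smul_apply, LinearMap.smul_apply, smul_eq_mul]
            have h4 : TR q p (cR ν S) = ‖p'‖ * TR q q (cR ν S) := by
              rw [hsym q p, h3, hker v hv, zero_add]
            rw [h3, h4, hker v hv, zero_add]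
          rw [h2]
          exact mul_pos hN (mul_pos hN h1.sq)
        · rw [hpe, map_add, map_smul, hv.2 y hy, zero_add, smul_eq_mul]
          exact mul_pos hN (h1.deg y hy)
      · right
        refine ⟨ψ, Set.mem_insert_of_mem _ (Set.mem_iUnion₂.2 ⟨e, he, hψ⟩), ?_⟩
        rw [hpe, dotProduct_add, dotProduct_smul, h1, smul_zero, add_zero]
        exact (hG1 e e.2).ker ψ hψ v hv

end Pool.Agent.H20.TP
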