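import Pool.Agent.H24.VP.Nef

/-!
# COROLLARY P (MP_e49dc9_ag): uniform exactness, abstract part

`EvA f P`: `f = P` far away in the ample directions.  `PlA P`: `P` is a polynomial along the lines.
`StA G A₁ f g`: the step along `G`.  `UE f P D B H`: `f = P` at `W D ^ n B ^ b H ^ h` for `n ≥ n₀ (W)` and all `b`, `h`.
`su`, `sl`: the bounds from above and from below.  `ue_of`: uniform exactness.
-/

set_option autoImplicit false

namespace Pool.Agent.H20.TP

open Pool.Agent.H54.RV Pool.Agent.H83.TU Pool.Agent.H83.TK Pool.Agent.H24.VP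

variable {k K : Type} [Field k] [Field K] [Algebra k K] {X : Mod k K}

/-- `f = P` far away in the ample directions -/
def EvA (f P : Cart X → ℝ) : Prop :=
  ∀ W A : Cart X, Ample A → ∃ n₀ : ℕ, ∀ n ≥ n₀, f (W * A ^ n) = P (W * A ^ n)

/-- `P` is a polynomial along the lines -/
def PlA (P : Cart X → ℝ) : Prop :=
  ∀ W A : Cart X, ∃ q : Polynomial ℝ, ∀ n : ℕ, P (W * A ^ n) = q.eval (n : ℝ)

/-- the step along `G` -/
structure StA (G A₁ : Cart X) (f g : Cart X → ℝ) : Prop where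
  le : ∀ W, f W ≤ f (W * G⁻¹) + g W
  eq : ∀ W, ∃ n₀ : ℕ, ∀ n ≥ n₀, f (W * A₁ ^ n) = f (W * A₁ ^ n * G⁻¹) + g (W * A₁ ^ n)

/-- uniform exactness -/
def UE (f P : Cart X → ℝ) (D B H : Cart X) : Prop :=
  ∀ W : Cart X, ∃ n₀ : ℕ, ∀ n ≥ n₀, ∀ b h : ℕ,
    f (W * D ^ n * B ^ b * H ^ h) = P (W * D ^ n * B ^ b * H ^ h)

theorem poly_inf {p q : Polynomial ℝ} {n₀ : ℕ} (h : ∀ n : ℕ, n₀ ≤ n → p.eval (n : ℝ) = q.eval (n : ℝ)) : p = q := by
  refine Polynomial.eq_of_infinite_eval_eq p q ?_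
  refine Set.Infinite.mono (s := Set.range fun n : ℕ => (((n + n₀ : ℕ)) : ℝ)) ?_ ?_
  · rintro _ ⟨n, rfl⟩
    exact h _ (Nat.le_add_left _ _)
  · refine Set.infinite_range_of_injective fun a b hab => ?_
    have : (a + n₀ : ℕ) = b + n₀ := by exact_mod_cast hab
    omega

variable {f g P Q : Cart X → ℝ} {G A₁ D B H : Cart X}

/-- the polynomials satisfy the equation everywhere -/
theorem st_poly (hs : StA G A₁ f g) (hA : Ample A₁) (hf : EvA f P) (hfp : PlA P) (hg : EvA g Q) (hgp : PlA Q)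
    (W : Cart X) : P W = P (W * G⁻¹) + Q W := by
  obtain ⟨n1, h1⟩ := hs.eq W
  obtain ⟨n2, h2⟩ := hf W A₁ hA
  obtain ⟨n3, h3⟩ := hf (W * G⁻¹) A₁ hA
  obtain ⟨n4, h4⟩ := hg W A₁ hA
  obtain ⟨q1, e1⟩ := hfp W A₁
  obtain ⟨q2, e2⟩ := hfp (W * G⁻¹) A₁
  obtain ⟨q3, e3⟩ := hgp W A₁
  have h5 : q1 = q2 + q3 := by
    refine poly_inf (n₀ := n1 + n2 + n3 + n4) fun n hn => ?_
    have a1 := h1 n (by omega)
    have a2 := h2 n (by omega)
    have a3 := h3 n (by omega)
    have a4 := h4 n (by omega)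
    rw [mul_right_comm W (A₁ ^ n)] at a1
    rw [a2, a3, a4, e1, e2, e3] at a1
    rw [Polynomial.eval_add]
    exact a1
  have a1 := e1 0
  have a2 := e2 0
  have a3 := e3 0
  rw [pow_zero, mul_one] at a1 a2 a3
  rw [a1, a2, a3, h5, Polynomial.eval_add]

/-- the defect does not increase if the pieces are exact -/
theorem e_step (hs : StA G A₁ f g) (hp : ∀ W, P W = P (W * G⁻¹) + Q W) (W : Cart X) (hg : g W = Q W) :
    f W - P W ≤ f (W * G⁻¹) - P (W * G⁻¹) := by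
  have h1 := hs.le W
  have h2 := hp W
  linarith

theorem su (hs : StA G A₁ f g) (hp : ∀ W, P W = P (W * G⁻¹) + Q W) (hf : EvA f P) (hB : Ample B)
    (hu : UE g Q D B H) {m : ℕ} (hm : 1 ≤ m) (hD : D ^ m = G * B) (W : Cart X) :
    ∃ n₀ : ℕ, ∀ n ≥ n₀, f (W * D ^ n) ≤ P (W * D ^ n) := by
  obtain ⟨n1, h1⟩ := hu W
  have key : ∀ n, n1 ≤ n → ∀ a i : ℕ, i ≤ a →
      f (W * D ^ n * B ^ a * G ^ i) - P (W * D ^ n * B ^ a * G ^ i) ≤ f (W * D ^ n * B ^ a) - P (W * D ^ n * B ^ a) := by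
    intro n hn a i
    induction i with
    | zero => intro _; rw [pow_zero, mul_one]
    | succ i ih =>
      intro hi
      have h2 : W * D ^ n * B ^ a * G ^ (i + 1) = W * D ^ (n + m * (i + 1)) * B ^ (a - (i + 1)) * H ^ 0 := by
        have e1 : B ^ a = B ^ (a - (i + 1)) * B ^ (i + 1) := by
          rw [← pow_add]
          congr 1
          omega
        have e2 : D ^ (n + m * (i + 1)) = D ^ n * (G ^ (i + 1) * B ^ (i + 1)) := by
          rw [pow_add, pow_mul, hD, mul_pow]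
        rw [e1, e2, pow_zero, mul_one]
        simp only [mul_assoc, mul_comm, mul_left_comm]
      have h3 := h1 (n + m * (i + 1)) (by omega) (a - (i + 1)) 0
      rw [← h2] at h3
      have h4 := e_step hs hp _ h3
      have h5 : W * D ^ n * B ^ a * G ^ (i + 1) * G⁻¹ = W * D ^ n * B ^ a * G ^ i := by
        rw [pow_succ, ← mul_assoc, mul_inv_cancel_right]
      rw [h5] at h4
      exact h4.trans (ih (by omega))
  choose a₀ ha₀ using fun n => hf (W * D ^ n) B hB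
  obtain ⟨M, hM⟩ : ∃ M, M = ∑ i ∈ Finset.range m, a₀ (n1 + i) := ⟨_, rfl⟩
  refine ⟨n1 + m * M, fun N hN => ?_⟩
  obtain ⟨i, hi⟩ : ∃ i, i = (N - n1) % m := ⟨_, rfl⟩
  obtain ⟨a, ha⟩ : ∃ a, a = (N - n1) / m := ⟨_, rfl⟩
  have hN2 : N = n1 + i + m * a := by
    have := Nat.mod_add_div (N - n1) m
    rw [hi, ha]
    omega
  have hi1 : i < m := by rw [hi]; exact Nat.mod_lt _ (by omega)
  have ha1 : M ≤ a := by
    rw [ha, Nat.le_div_iff_mul_le (by omega), mul_comm]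
    omega
  have ha2 : a₀ (n1 + i) ≤ a := by
    refine le_trans ?_ ha1
    rw [hM]
    exact Finset.single_le_sum (f := fun i => a₀ (n1 + i)) (fun _ _ => Nat.zero_le _) (Finset.mem_range.2 hi1)
  have h2 := key (n1 + i) (by omega) a a le_rfl
  have h3 := ha₀ (n1 + i) a ha2
  have h4 : W * D ^ (n1 + i) * B ^ a * G ^ a = W * D ^ N := by
    rw [hN2, pow_add D (n1 + i) (m * a), pow_mul, hD, mul_pow]
    simp only [mul_assoc, mul_comm, mul_left_comm]
  rw [h4] at h2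
  linarith

theorem sl (hs : StA H A₁ f g) (hp : ∀ W, P W = P (W * H⁻¹) + Q W) (hf : EvA f P) (hH : Ample H)
    (hu : UE g Q D B H) (W : Cart X) :
    ∃ n₀ : ℕ, ∀ n ≥ n₀, ∀ b h : ℕ, P (W * D ^ n * B ^ b * H ^ h) ≤ f (W * D ^ n * B ^ b * H ^ h) := by
  obtain ⟨n1, h1⟩ := hu W
  refine ⟨n1, fun n hn b h => ?_⟩
  have key : ∀ j : ℕ, f (W * D ^ n * B ^ b * H ^ (h + j)) - P (W * D ^ n * B ^ b * H ^ (h + j)) ≤
      f (W * D ^ n * B ^ b * H ^ h) - P (W * D ^ n * B ^ b * H ^ h) := by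
    intro j
    induction j with
    | zero => rw [add_zero]
    | succ j ih =>
      have h2 := e_step hs hp _ (h1 n hn b (h + (j + 1)))
      have h3 : W * D ^ n * B ^ b * H ^ (h + (j + 1)) * H⁻¹ = W * D ^ n * B ^ b * H ^ (h + j) := by
        rw [← add_assoc, pow_succ, ← mul_assoc, mul_inv_cancel_right]
      rw [h3] at h2
      exact h2.trans ih
  obtain ⟨n2, h2⟩ := hf (W * D ^ n * B ^ b) H hH
  have h3 := key n2
  have h4 := h2 (h + n2) (by omega)
  linarith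

theorem mono_B (hs : StA B A₁ f g) (hp : ∀ W, P W = P (W * B⁻¹) + Q W) {n : ℕ} {W : Cart X}
    (h1 : ∀ b h : ℕ, g (W * D ^ n * B ^ b * H ^ h) = Q (W * D ^ n * B ^ b * H ^ h)) (b h : ℕ) :
    f (W * D ^ n * B ^ b * H ^ h) - P (W * D ^ n * B ^ b * H ^ h) ≤
      f (W * D ^ n * H ^ h) - P (W * D ^ n * H ^ h) := by
  induction b with
  | zero => rw [pow_zero, mul_one]
  | succ b ih =>
    have h2 := e_step hs hp _ (h1 (b + 1) h)
    have h3 : W * D ^ n * B ^ (b + 1) * H ^ h * B⁻¹ = W * D ^ n * B ^ b * H ^ h := by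
      rw [pow_succ, ← mul_assoc, mul_right_comm _ (H ^ h), mul_inv_cancel_right]
    rw [h3] at h2
    exact h2.trans ih

theorem mono_H (hs : StA H A₁ f g) (hp : ∀ W, P W = P (W * H⁻¹) + Q W) {W : Cart X}
    (h1 : ∀ h : ℕ, g (W * H ^ h) = Q (W * H ^ h)) (h : ℕ) :
    f (W * H ^ h) - P (W * H ^ h) ≤ f W - P W := by
  induction h with
  | zero => rw [pow_zero, mul_one]
  | succ h ih =>
    have h2 := e_step hs hp _ (h1 (h + 1))
    have h3 : W * H ^ (h + 1) * H⁻¹ = W * H ^ h := by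
      rw [pow_succ, ← mul_assoc, mul_inv_cancel_right]
    rw [h3] at h2
    exact h2.trans ih

/-- uniform exactness -/
theorem ue_of {gG QG gB QB gH QH : Cart X → ℝ} (hf : EvA f P) (hH : Ample H)
    (hsG : StA G A₁ f gG) (hpG : ∀ W, P W = P (W * G⁻¹) + QG W) (huG : UE gG QG D H B)
    (hsB : StA B A₁ f gB) (hpB : ∀ W, P W = P (W * B⁻¹) + QB W) (huB : UE gB QB D B H)
    (hsH : StA H A₁ f gH) (hpH : ∀ W, P W = P (W * H⁻¹) + QH W) (huH : UE gH QH D B H)
    {m : ℕ} (hm : 1 ≤ m) (hD : D ^ m = G * H) : UE f P D B H := by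
  intro W
  obtain ⟨n1, h1⟩ := su hsG hpG hf hH huG hm hD W
  obtain ⟨n2, h2⟩ := sl hsH hpH hf hH huH W
  obtain ⟨n3, h3⟩ := huB W
  obtain ⟨n4, h4⟩ := huH W
  refine ⟨n1 + n2 + n3 + n4, fun n hn b h => le_antisymm ?_ (h2 n (by omega) b h)⟩
  have a1 := h1 n (by omega)
  have a2 := mono_B hsB hpB (h3 n (by omega)) b h
  have a3 := mono_H hsH hpH (W := W * D ^ n) (fun h => by
    have := h4 n (by omega) 0 h
    rwa [pow_zero, mul_one] at this) h
  linarith

/-! ## sums and shifts -/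

theorem ev_sum {ι : Type*} (S : Finset ι) (f P : ι → Cart X → ℝ) (h : ∀ i ∈ S, EvA (f i) (P i)) :
    EvA (fun W => ∑ i ∈ S, f i W) (fun W => ∑ i ∈ S, P i W) := by
  classical
  intro W A hA
  induction S using Finset.induction_on with
  | empty => exact ⟨0, fun _ _ => by simp⟩
  | insert a S ha ih =>
    obtain ⟨n1, h1⟩ := ih fun i hi => h i (Finset.mem_insert_of_mem hi)
    obtain ⟨n2, h2⟩ := h a (Finset.mem_insert_self _ _) W A hA
    refine ⟨n1 + n2, fun n hn => ?_⟩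
    have e1 := h1 n (by omega)
    dsimp only at e1 ⊢
    rw [Finset.sum_insert ha, Finset.sum_insert ha, h2 n (by omega), e1]

theorem ev_shift (h : EvA f P) (C : Cart X) : EvA (fun W => f (W * C)) (fun W => P (W * C)) := by
  intro W A hA
  obtain ⟨n₀, hn⟩ := h (W * C) A hA
  refine ⟨n₀, fun n hn' => ?_⟩
  dsimp only
  rw [mul_right_comm]
  exact hn n hn'

theorem pl_sum {ι : Type*} (S : Finset ι) (P : ι → Cart X → ℝ) (h : ∀ i ∈ S, PlA (P i)) :
    PlA (fun W => ∑ i ∈ S, P i W) := by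
  classical
  intro W A
  induction S using Finset.induction_on with
  | empty => exact ⟨0, fun _ => by simp⟩
  | insert a S ha ih =>
    obtain ⟨q1, h1⟩ := ih fun i hi => h i (Finset.mem_insert_of_mem hi)
    obtain ⟨q2, h2⟩ := h a (Finset.mem_insert_self _ _) W A
    refine ⟨q2 + q1, fun n => ?_⟩
    dsimp only at h1 ⊢
    rw [Finset.sum_insert ha, h2 n, h1 n, Polynomial.eval_add]

theorem pl_shift (h : PlA P) (C : Cart X) : PlA (fun W => P (W * C)) := by
  intro W A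
  obtain ⟨q, hq⟩ := h (W * C) A
  refine ⟨q, fun n => ?_⟩
  dsimp only
  rw [mul_right_comm]
  exact hq n

theorem ue_sum {ι : Type*} (S : Finset ι) (f P : ι → Cart X → ℝ) (h : ∀ i ∈ S, UE (f i) (P i) D B H) :
    UE (fun W => ∑ i ∈ S, f i W) (fun W => ∑ i ∈ S, P i W) D B H := by
  classical
  intro W
  induction S using Finset.induction_on with
  | empty => exact ⟨0, fun _ _ _ _ => by simp⟩
  | insert a S ha ih =>
    obtain ⟨n1, h1⟩ := ih fun i hi => h i (Finset.mem_insert_of_mem hi)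
    obtain ⟨n2, h2⟩ := h a (Finset.mem_insert_self _ _) W
    refine ⟨n1 + n2, fun n hn b j => ?_⟩
    have e1 := h1 n (by omega) b j
    dsimp only at e1 ⊢
    rw [Finset.sum_insert ha, Finset.sum_insert ha, h2 n (by omega), e1]

theorem ue_shift (h : UE f P D B H) (C : Cart X) : UE (fun W => f (W * C)) (fun W => P (W * C)) D B H := by
  intro W
  obtain ⟨n₀, hn⟩ := h (W * C)
  refine ⟨n₀, fun n hn' b j => ?_⟩
  dsimp only
  rw [mul_right_comm _ (H ^ j), mul_right_comm _ (B ^ b), mul_right_comm W]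
  exact hn n hn' b j

theorem ue_swap (h : UE f P D B H) : UE f P D H B := by
  intro W
  obtain ⟨n₀, hn⟩ := h W
  refine ⟨n₀, fun n hn' b j => ?_⟩
  rw [mul_right_comm _ (H ^ b)]
  exact hn n hn' j b

end Pool.Agent.H20.TP
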