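import Pool.Agent.H20.TD.Zon
import Pool.Agent.H20.TP.Ue
import Pool.Agent.H20.TQ.Sp

/-!
# COROLLARY P (MP_e49dc9_ag): definitions

`z` is a point of `X`, the generic point of a closed subvariety; `S` is the divisor of `z` if `z` has dimension `2`.

* `cR ν W`: the class of `W` in `ℝ ^ r`.  `hz hX z W`: the number of sections of `W` on `z`.  `dz hX x W`: the degree on the
  curve `x`.  `dR hν hX x`: the same as a linear functional on `ℝ ^ r`.  `Cv z x`: `x` is a curve on `z`.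
* `HasS hX z W Z`: `W` has a nonzero section on `z` with zero set `Z`; `HasX W Z`: the same on `X`.
* `MS`: the closed cone `M_S`.  `KS`: its kernel.  `Good`: the good points.  `LocAt`: the conclusion of LOC.
-/

set_option autoImplicit false

namespace Pool.Agent.H20.TP

open Pool.Agent.H54.RV Pool.Agent.H83.TU Pool.Agent.H83.TK Pool.Agent.H20.TD

variable {k K : Type} [Field k] [Field K] [Algebra k K] {X : Mod k K} {r : ℕ}
  {ν : Cart X →* Multiplicative (Fin r → ℤ)}

variable (ν) in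
/-- the class in `ℝ ^ r` -/
noncomputable abbrev cR (W : Cart X) : Fin r → ℝ := rv (ci ν W)

/-- the number of sections of `W` on the closed subvariety `z` -/
noncomputable def hz (hX : IsVar X) (z : X.P) (W : Cart X) : ℕ := h0 (resD hX z W) 1

/-- the degree of `W` on the curve `x` -/
noncomputable def dz (hX : IsVar X) (x : X.P) (W : Cart X) : ℤ := H41.TK.dg (resD hX x W)

/-- the curves on `z` -/
def Cv (z x : X.P) : Prop := z ⤳ x ∧ Algebra.trdeg k (X.kap x) = 1

/-- the zero set of the section `s` of `W` on `z` -/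
def Zst (hX : IsVar X) (z : X.P) (W : Cart X) (s : X.kap z) : Set X.P :=
  {x | ∃ hx : z ⤳ x, ¬ Un ((subM hX z).O ⟨x, hx⟩) (s * (resD hX z W).eq ⟨x, hx⟩)}

/-- `W` has a nonzero section on `z` with zero set `Z` -/
def HasS (hX : IsVar X) (z : X.P) (W : Cart X) (Z : Set X.P) : Prop :=
  ∃ s : X.kap z, s ≠ 0 ∧ Sec (resD hX z W) 1 s ∧ Zst hX z W s = Z

/-- `W` has a nonzero section on `X` with zero set `Z` -/
def HasX (W : Cart X) (Z : Set X.P) : Prop :=
  ∃ s : K, s ≠ 0 ∧ Sec W 1 s ∧ {x | ¬ Un (X.O x) (s * W.eq x)} = Z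

/-- the linear functional of an additive function -/
noncomputable def exR (hν : NumR ν) (f : Cart X → ℝ) : (Fin r → ℝ) →ₗ[ℝ] ℝ :=
  ∑ i, f (Classical.choose (ci_surj hν (Pi.single i 1))) • (LinearMap.proj i : (Fin r → ℝ) →ₗ[ℝ] ℝ)

theorem exR_ci (hν : NumR ν) {f : Cart X → ℝ} (hf : ∀ U V, f (U * V) = f U + f V) (hz : ∀ D, NumZ D → f D = 0)
    (D : Cart X) : exR hν f (cR ν D) = f D := by
  classical
  obtain ⟨L, hL⟩ := exists_ext hν hf hz
  have h1 : exR hν f = L := by
    refine LinearMap.pi_ext' fun i => LinearMap.ext_ring ?_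
    have h2 := Classical.choose_spec (ci_surj hν (Pi.single i 1))
    have h3 := hL (Classical.choose (ci_surj hν (Pi.single i 1)))
    rw [h2, rv_single] at h3
    have h4 : L (LinearMap.single ℝ (fun _ : Fin r => ℝ) i 1) =
        f (Classical.choose (ci_surj hν (Pi.single i 1))) := h3
    rw [LinearMap.comp_apply, LinearMap.comp_apply, h4, exR, LinearMap.sum_apply, Finset.sum_eq_single i]
    · simp
    · intro j _ hj
      simp [hj]
    · intro hi
      exact absurd (Finset.mem_univ i) hi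
  rw [h1, hL]

/-- the degree on the curve `x` as a linear functional -/
noncomputable def dR (hν : NumR ν) (hX : IsVar X) (x : X.P) : (Fin r → ℝ) →ₗ[ℝ] ℝ :=
  exR hν fun W => (dz hX x W : ℝ)

/-- the trilinear forms on `ℝ ^ r` -/
abbrev Tri3 (r : ℕ) : Type := (Fin r → ℝ) →ₗ[ℝ] (Fin r → ℝ) →ₗ[ℝ] (Fin r → ℝ) →ₗ[ℝ] ℝ

variable (hν : NumR ν) (hX : IsVar X) (TR : Tri3 r) (z : X.P) (S : Cart X)

/-- the closed cone `M_S` -/
structure MS (e : Fin r → ℝ) : Prop where
  deg : ∀ x, Cv z x → 0 ≤ dR hν hX x e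
  eff : ∀ W, 0 < hz hX z W → 0 ≤ TR e (cR ν W) (cR ν S)
  sq : 0 ≤ TR e e (cR ν S)
  cv : ∀ (W : Cart X) (Z : Set X.P) (x : X.P), HasS hX z W Z → x ∈ Z → Cv z x →
    dR hν hX x e ≤ TR e (cR ν W) (cR ν S)

/-- the kernel -/
def KS : Set (Fin r → ℝ) := {v | (∀ W, TR v (cR ν W) (cR ν S) = 0) ∧ ∀ x, Cv z x → dR hν hX x v = 0}

/-- the good points -/
structure Good (p : Fin r → ℝ) : Prop where
  sq : 0 < TR p p (cR ν S)
  deg : ∀ x, Cv z x → 0 < dR hν hX x p

/-- finite sets of integral functionals, positive at `A`, zero on the kernel -/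
structure Fam (A : Cart X) (F : Set (Fin r → ℤ)) : Prop where
  fin : F.Finite
  pos : ∀ φ ∈ F, 0 < rv φ ⬝ᵥ cR ν A
  ker : ∀ φ ∈ F, ∀ v ∈ KS hν hX TR z S, rv φ ⬝ᵥ v = 0

/-- near `e` the points of `M_S` are good or killed by one of finitely many functionals -/
def LocAt (A : Cart X) (e : Fin r → ℝ) : Prop :=
  ∃ (η : ℝ) (F : Set (Fin r → ℤ)), 0 < η ∧ Fam hν hX TR z S A F ∧
    ∀ p, MS hν hX TR z S p → ‖p - e‖ < η → Good hν hX TR z S p ∨ ∃ φ ∈ F, rv φ ⬝ᵥ p = 0

end Pool.Agent.H20.TP
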