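import Pool.Agent.H20.TP.Step
import Pool.Agent.H20.TP.Cur

/-!
# [H20 TP Lb] COROLLARY P (MP_e49dc9_ag): lower bound on a surface near a real class

`z` a surface, `e` real with nonnegative degree on all curves of `z`: `h0 (z, W) ≥ chi_S (W) - C` for all `W` within `c₀` of the ray of `e`.
PROOF. `H` ample without base points (`bpf_exists`, `bpf_res`: `H` has a section on `z`; zero set `Z`).  `stz` for `G = A₁ = H`: pieces
`y i` in `Z`, so of dimension `1` or `0` (`trdeg < 2`: the generic point `z` is not in `Z`; H83/TK/Dim `trdeg_lt_gen` on `subM hX z`).  `srf_ev`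
(H20/TQ/Geo): `hz z = chS` far away in ample directions; `pl_chS` like polynomials; `st_poly`, `e_step` (Ue): for `e_z = hz z - chS`:
`e_z(W H^(j)) ≤ e_z(W H^(j-1)) + sum_i e_(y i)(W H^(j - c i))`, where `e_y = 0` for points, and for a curve `y` with `hz_cur` (Cur):
`e_y(W') = 0` if `dz W' > -2 χ`, and `e_y(W') ≤ M dz(H)` if `dz W' ≥ -R`, `M := R + 2|χ| + 1` (multiplication by the `M`-th power of a
section of `H` on `y`: `H32.TK.mul_le`).  `|dR y (cR W - t e)| ≤ K c₀`, so `dz y (W H^(j - c i)) ≥ j - c i - K c₀` (as `dz H ≥ 1`, `t e`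
has degree `≥ 0`).  So only the `j ≤ J₀` (independent of `t`, `W`) contribute, each at most a constant: `e_z(W) ≥ e_z(W H^N) - C = - C`.
-/

set_option autoImplicit false

namespace Pool.Agent.H20.TP

open Pool.Agent.H54.RV Pool.Agent.H83.TU Pool.Agent.H83.TK Pool.Agent.H20.TD
open Pool.Agent.H24.VP (RR chS)

variable {k K : Type} [Field k] [Field K] [Algebra k K] {X : Mod k K} {r : ℕ}
  {ν : Cart X →* Multiplicative (Fin r → ℤ)} {T : Cart X → Cart X → Cart X → ℝ} {l : Cart X → ℝ} {c : ℝ}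

private theorem lin_bd (L : (Fin r → ℝ) →ₗ[ℝ] ℝ) : ∃ K : ℝ, 0 ≤ K ∧ ∀ v, |L v| ≤ K * ‖v‖ := by
  refine ⟨‖LinearMap.toContinuousLinearMap L‖, norm_nonneg _, fun v => ?_⟩
  have h1 := (LinearMap.toContinuousLinearMap L).le_opNorm v
  rw [LinearMap.coe_toContinuousLinearMap', Real.norm_eq_abs] at h1
  exact h1

/-- the polynomial of a surface along the lines -/
private theorem plA_chS (hr : RR T l c) (S : Cart X) : PlA (chS T l S) := by
  intro U G
  refine ⟨Polynomial.C (T G G S / 2) * Polynomial.X ^ 2 +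
    Polynomial.C (T U G S - T G S S / 2) * Polynomial.X + Polynomial.C (chS T l S U), fun n => ?_⟩
  simp only [Polynomial.eval_add, Polynomial.eval_C, Polynomial.eval_mul, Polynomial.eval_X, Polynomial.eval_pow]
  unfold chS
  simp only [hr.tri.add, hr.tri.add2, hr.tri.pow, hr.tri.pow2]
  rw [hr.tri.s12 G U S]
  ring

/-- a piece of dimension at most one: the polynomial, and the bound near the ray -/
private theorem piece [CharZero k] [IsAlgClosed k] (h : Hyp X) (hν : NumR ν) {y : X.P} {H : Cart X} (hH : Ample H)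
    (hHs : ∀ n : ℕ, 0 < h0 (resD h.var y (H ^ n)) 1) (htr : Algebra.trdeg k (X.kap y) < 2) {e : Fin r → ℝ}
    (he : Algebra.trdeg k (X.kap y) = 1 → 0 ≤ dR hν h.var y e) (c₀ : ℝ) (m : ℕ) :
    ∃ (Q : Cart X → ℝ) (J : ℕ) (B : ℝ), EvA (fun W => (hz h.var y W : ℝ)) Q ∧ PlA Q ∧ 0 ≤ B ∧
      ∀ (t : ℝ) (W : Cart X), 0 ≤ t → ‖cR ν W - t • e‖ ≤ c₀ → ∀ j : ℕ,
        (hz h.var y (W * H ^ j * (H ^ m)⁻¹) : ℝ) - Q (W * H ^ j * (H ^ m)⁻¹) ≤ if j < J then B else 0 := by
  obtain ⟨n, hn⟩ := Cardinal.lt_aleph0.1 (htr.trans (by exact_mod_cast Cardinal.natCast_lt_aleph0 (n := 2)))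
  have hn2 : n < 2 := by
    rw [hn] at htr
    exact_mod_cast htr
  rcases Nat.lt_succ_iff_lt_or_eq.1 hn2 with h1 | h1
  · have h2 : n = 0 := by omega
    rw [h2, Nat.cast_zero] at hn
    obtain ⟨e1, e2, -⟩ := ue_pt h.var hn
    refine ⟨_, 0, 0, e1, e2, le_rfl, fun t W _ _ j => ?_⟩
    rw [hz_pt h.var hn, Nat.cast_one, sub_self, ite_self]
  · rw [h1, Nat.cast_one] at hn
    have he' := he hn
    obtain ⟨χ, hχ⟩ := hz_cur h.var h.amp hn
    obtain ⟨K, hK0, hK⟩ := lin_bd (dR hν h.var y)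
    have hd1 : 1 ≤ dz h.var y H := dz_pos h.var h.amp hn (res_ample h.var y _ hH)
    obtain ⟨R, hR⟩ := exists_nat_gt (K * c₀)
    obtain ⟨a, ha⟩ : ∃ a : ℕ, (a : ℤ) = |χ| := ⟨χ.natAbs, Int.natCast_natAbs χ⟩
    have ha1 : -(2 * χ) ≤ 2 * a := by
      have := neg_abs_le χ
      rw [← ha] at this
      linarith
    obtain ⟨d, hd⟩ := Int.eq_ofNat_of_zero_le (show 0 ≤ dz h.var y H by omega)
    obtain ⟨M, hM⟩ : ∃ M, M = R + m * d + 2 * a + 1 := ⟨_, rfl⟩
    -- the degree near the ray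
    have hdeg : ∀ (t : ℝ) (W : Cart X), 0 ≤ t → ‖cR ν W - t • e‖ ≤ c₀ → ∀ j : ℕ,
        (j : ℤ) * dz h.var y H - m * dz h.var y H - R ≤ dz h.var y (W * H ^ j * (H ^ m)⁻¹) := by
      intro t W ht hW j
      have h2 : -(R : ℝ) ≤ dz h.var y W := by
        rw [← dR_ci hν h.var h.amp hn W]
        have e1 : dR hν h.var y (cR ν W) = dR hν h.var y (cR ν W - t • e) + t * dR hν h.var y e := by
          rw [map_sub, map_smul, smul_eq_mul]
          ring
        have e2 := neg_abs_le (dR hν h.var y (cR ν W - t • e))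
        have e3 := hK (cR ν W - t • e)
        have e4 : K * ‖cR ν W - t • e‖ ≤ K * c₀ := mul_le_mul_of_nonneg_left hW hK0
        have e5 : 0 ≤ t * dR hν h.var y e := mul_nonneg ht he'
        linarith
      have h3 : -(R : ℤ) ≤ dz h.var y W := by exact_mod_cast h2
      rw [dz_mul h.var h.amp hn, dz_mul h.var h.amp hn, dz_inv h.var h.amp hn, dz_pow h.var h.amp hn,
        dz_pow h.var h.amp hn]
      linarith
    refine ⟨fun W => (dz h.var y W : ℝ) + χ, R + m + 2 * a + 1, M * d, ?_, ?_, by positivity, ?_⟩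
    · intro W A hA'
      obtain ⟨n₀, hn₀⟩ : ∃ n₀ : ℕ, n₀ = (-2 * χ - dz h.var y W).toNat + 1 := ⟨_, rfl⟩
      refine ⟨n₀, fun n hn' => ?_⟩
      have h1 := dz_pos h.var h.amp hn (res_ample h.var y _ hA')
      have h2 := hχ (W * A ^ n) (by
        rw [dz_mul h.var h.amp hn, dz_pow h.var h.amp hn]
        have h3 : (n : ℤ) ≤ n * dz h.var y A := le_mul_of_one_le_right (by positivity) h1
        omega)
      have h3 : ((hz h.var y (W * A ^ n) : ℤ) : ℝ) = ((dz h.var y (W * A ^ n) + χ : ℤ) : ℝ) := by rw [h2]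
      push_cast at h3
      exact h3
    · intro W A
      refine ⟨Polynomial.C ((dz h.var y W : ℝ) + χ) + Polynomial.C (dz h.var y A : ℝ) * Polynomial.X, fun n => ?_⟩
      dsimp only
      rw [dz_mul h.var h.amp hn, dz_pow h.var h.amp hn]
      simp only [Polynomial.eval_add, Polynomial.eval_C, Polynomial.eval_mul, Polynomial.eval_X]
      push_cast
      ring
    · intro t W ht hW j
      have h2 := hdeg t W ht hW j
      obtain ⟨V, hV⟩ : ∃ V, V = W * H ^ j * (H ^ m)⁻¹ := ⟨_, rfl⟩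
      rw [← hV] at h2 ⊢
      rw [hd] at h2 hd1
      have h2' : (j : ℤ) * d - m * d - R ≤ dz h.var y V := h2
      have hd1' : (1 : ℤ) ≤ d := hd1
      dsimp only
      by_cases hj : j < R + m + 2 * a + 1
      · rw [if_pos hj]
        have h3 : -((R : ℤ) + m * d) ≤ dz h.var y V := by
          have : 0 ≤ (j : ℤ) * d := by positivity
          linarith
        have h4 : -2 * χ < dz h.var y (V * H ^ M) := by
          rw [dz_mul h.var h.amp hn, dz_pow h.var h.amp hn, hd]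
          have h5 : (M : ℤ) * 1 ≤ M * (d : ℤ) := mul_le_mul_of_nonneg_left hd1' (by positivity)
          have h6 : (M : ℤ) = R + m * d + 2 * a + 1 := by rw [hM]; push_cast; ring
          change _ < dz h.var y V + M * (d : ℤ)
          linarith
        have h5 := hχ _ h4
        have := Pool.Agent.H24.TK.fd (isVar_sub h.var y) ⟨_, gen_sub h.var y⟩ (res_ample h.var y _ hH)
          (resD h.var y V * resD h.var y (H ^ M))
        have h6 := H32.TK.mul_le (resD h.var y (H ^ M)) (resD h.var y V) this (hHs M)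
        rw [← map_mul] at h6
        have h7 : (hz h.var y V : ℤ) ≤ dz h.var y (V * H ^ M) + χ := by
          rw [← h5]
          exact_mod_cast h6
        rw [dz_mul h.var h.amp hn, dz_pow h.var h.amp hn, hd] at h7
        have h8 : (hz h.var y V : ℤ) ≤ dz h.var y V + M * (d : ℤ) + χ := h7
        have h9 : (hz h.var y V : ℝ) ≤ dz h.var y V + M * d + χ := by exact_mod_cast h8
        linarith
      · rw [if_neg hj]
        have h3 : -2 * χ < dz h.var y V := by
          have h4 : ((j : ℤ) - m) * 1 ≤ ((j : ℤ) - m) * d := mul_le_mul_of_nonneg_left hd1' (by omega)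
          have h5 : ((j : ℤ) - m) * d = j * d - m * d := by ring
          omega
        have h4 := hχ _ h3
        have h5 : (hz h.var y V : ℝ) = dz h.var y V + χ := by exact_mod_cast h4
        linarith

theorem lb [CharZero k] [IsAlgClosed k] [T0Space X.P] (h : Hyp X) (hr : RR T l c) (hν : NumR ν) {z : X.P} {S : Cart X}
    (htr : Algebra.trdeg k (X.kap z) = 2) (hS : SPr X z S) {e : Fin r → ℝ}
    (he : ∀ x, Cv z x → 0 ≤ dR hν h.var x e) (c₀ : ℝ) :
    ∃ C : ℝ, ∀ (t : ℝ) (W : Cart X), 0 ≤ t → ‖cR ν W - t • e‖ ≤ c₀ → chS T l S W - C ≤ (hz h.var z W : ℝ) := by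
  classical
  obtain ⟨A, hA⟩ := h.amp
  obtain ⟨a, ha, hB⟩ := Pool.Agent.H20.TK.bpf_exists h.var A hA
  obtain ⟨H, hHe⟩ : ∃ H, H = A ^ a := ⟨_, rfl⟩
  rw [← hHe] at hB
  have hH : Ample H := by
    rw [hHe]
    exact Pool.Agent.H83.TU.ample_pow A a ha hA
  -- sections of the powers of `H` on all subvarieties
  have hsec : ∀ y : X.P, ∃ s : X.kap y, s ≠ 0 ∧ Sec (resD h.var y H) 1 s := fun y => by
    obtain ⟨s, hs1, hs2⟩ := hB y
    refine ⟨(resS h.var y H 1 ⟨s, hs1⟩ : X.kap y), fun h1 => ?_, (resS h.var y H 1 ⟨s, hs1⟩).2⟩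
    exact (resS_zero h.var y H 1 ⟨s, hs1⟩).1 (Subtype.ext h1) hs2
  have hpow : ∀ (y : X.P) (n : ℕ), 0 < h0 (resD h.var y (H ^ n)) 1 := fun y n => by
    obtain ⟨s, hs0, hs1⟩ := hsec y
    have := Pool.Agent.H24.TK.fd (isVar_sub h.var y) ⟨_, gen_sub h.var y⟩ (res_ample h.var y _ hH)
      (resD h.var y (H ^ n))
    refine H32.TK.pos_of_sec _ this (s := s ^ n) (fun x => ?_) (pow_ne_zero n hs0)
    have h1 := hs1 x
    rw [pow_one] at h1
    rw [pow_one, map_pow, pow_eq, ← mul_pow]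
    exact pow_mem h1 n
  obtain ⟨s, hs0, hs1⟩ := hsec z
  obtain ⟨m, y, cc, h1, h2, h3⟩ := H41.ZP.step_pt h.var hH z H hs1 hs0
  have hst : StA H H (fun W => (hz h.var z W : ℝ)) (fun W => ∑ i, (hz h.var (y i) (W * (H ^ cc i)⁻¹) : ℝ)) := by
    refine ⟨fun W => ?_, fun W => ?_⟩
    · have h4 := h1 W
      show (h0 (resD h.var z W) 1 : ℝ) ≤ (h0 (resD h.var z (W * H⁻¹)) 1 : ℝ) + ∑ i, _
      exact_mod_cast h4
    · obtain ⟨n₀, hn⟩ := h2 W
      refine ⟨n₀, fun n hn' => ?_⟩
      have h4 := hn n hn'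
      show (h0 (resD h.var z (W * H ^ n)) 1 : ℝ) = (h0 (resD h.var z (W * H ^ n * H⁻¹)) 1 : ℝ) + ∑ i, _
      exact_mod_cast h4
  have hp := fun i : Fin m => piece h hν (y := y i) hH (hpow (y i)) (by rw [← htr]; exact (h3 i).1) (e := e)
    (fun h4 => he _ ⟨(h3 i).2.1, h4⟩) c₀ (cc i)
  choose Q J B hQ1 hQ2 hB0 hQ3 using hp
  have hev : EvA (fun W => (hz h.var z W : ℝ)) (chS T l S) := fun W A hA => Pool.Agent.H20.TQ.srf_ev h hr hS W A hA
  have hpoly := st_poly hst hH hev (plA_chS hr S)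
    (ev_sum Finset.univ (fun i W => (hz h.var (y i) (W * (H ^ cc i)⁻¹) : ℝ)) (fun i W => Q i (W * (H ^ cc i)⁻¹))
      fun i _ => ev_shift (hQ1 i) _)
    (pl_sum Finset.univ (fun i W => Q i (W * (H ^ cc i)⁻¹)) fun i _ => pl_shift (hQ2 i) _)
  obtain ⟨J', hJ'⟩ : ∃ J', J' = ∑ i, J i := ⟨_, rfl⟩
  obtain ⟨B', hB'⟩ : ∃ B', B' = ∑ i, B i := ⟨_, rfl⟩
  have hB'0 : 0 ≤ B' := by rw [hB']; exact Finset.sum_nonneg fun i _ => hB0 i
  refine ⟨J' * B', fun t W ht hW => ?_⟩
  obtain ⟨f, hf⟩ : ∃ f : Cart X → ℝ, f = fun W => (hz h.var z W : ℝ) - chS T l S W := ⟨_, rfl⟩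
  have hstep : ∀ j : ℕ, f (W * H ^ (j + 1)) ≤ f (W * H ^ j) + if j + 1 < J' then B' else 0 := by
    intro j
    have a1 := hst.le (W * H ^ (j + 1))
    have a2 := hpoly (W * H ^ (j + 1))
    have e1 : W * H ^ (j + 1) * H⁻¹ = W * H ^ j := by
      rw [pow_succ, ← mul_assoc, mul_inv_cancel_right]
    rw [e1] at a1 a2
    have a3 : ∑ i, ((hz h.var (y i) (W * H ^ (j + 1) * (H ^ cc i)⁻¹) : ℝ) - Q i (W * H ^ (j + 1) * (H ^ cc i)⁻¹)) ≤
        if j + 1 < J' then B' else 0 := by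
      by_cases hj : j + 1 < J'
      · rw [if_pos hj, hB']
        refine Finset.sum_le_sum fun i _ => (hQ3 i t W ht hW (j + 1)).trans ?_
        split_ifs
        · exact le_rfl
        · exact hB0 i
      · rw [if_neg hj]
        refine Finset.sum_nonpos fun i _ => (hQ3 i t W ht hW (j + 1)).trans ?_
        rw [if_neg]
        have : J i ≤ J' := by
          rw [hJ']
          exact Finset.single_le_sum (fun i _ => Nat.zero_le _) (Finset.mem_univ i)
        omega
    rw [Finset.sum_sub_distrib] at a3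
    rw [hf]
    dsimp only at a1 a2 ⊢
    linarith
  have hind : ∀ N : ℕ, f (W * H ^ N) ≤ f W + (min N J' : ℕ) * B' := by
    intro N
    induction N with
    | zero => rw [pow_zero, mul_one, Nat.zero_min, Nat.cast_zero, zero_mul, add_zero]
    | succ N ih =>
      refine (hstep N).trans ?_
      by_cases hN : N + 1 < J'
      · rw [if_pos hN]
        rw [min_eq_left (by omega)] at ih ⊢
        push_cast
        linarith
      · rw [if_neg hN, add_zero]
        refine ih.trans ?_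
        have : ((min N J' : ℕ) : ℝ) ≤ ((min (N + 1) J' : ℕ) : ℝ) := by
          exact_mod_cast min_le_min_right J' (Nat.le_succ N)
        have := mul_le_mul_of_nonneg_right this hB'0
        linarith
  obtain ⟨n₀, hn⟩ := hev W H hH
  have b1 := hind n₀
  have b2 : f (W * H ^ n₀) = 0 := by
    rw [hf]
    dsimp only
    rw [sub_eq_zero]
    exact hn n₀ le_rfl
  rw [b2] at b1
  have b3 : ((min n₀ J' : ℕ) : ℝ) * B' ≤ J' * B' := by
    refine mul_le_mul_of_nonneg_right ?_ hB'0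
    exact_mod_cast min_le_right n₀ J'
  have b4 : f W = (hz h.var z W : ℝ) - chS T l S W := by rw [hf]
  linarith

end Pool.Agent.H20.TP
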