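import Pool.Agent.H20.TP.SubSub

/-!
# [H20 TP Supp] COROLLARY P (MP_e49dc9_ag): supports are finite

`supp_fin`: `E` effective on a variety of dimension `n + 1`: only finitely many points of the support of `E` have dimension `n`.
PROOF. Finitely many affine charts cover `X` (`hX.comp`, `hX.chart`, `hX.op`); in a chart `U` the ring `X.sec U` is noetherian (`hX.fg`);
near a point of the support `E` has a local equation, the closed set `{¬ Un (X.O x) (E.eq x)}` (cover `U` by basic open sets on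
which `E.eq` is one equation) is the zero set of an ideal, and a point `x` of dimension `n` in it is minimal: a strictly larger
point of the support has dimension `> n` (`trdeg` increases strictly, compare H83/TK/Dim), so it is generic, which is impossible
(`trdeg_lt_eq`).  A noetherian ring has finitely many minimal primes over an ideal; in a `T0` space two points of `U` with the same
prime are equal.  Compare H41/TK/FU (`fin_un`, `fin_cart`: the case of curves).
`zst_fin`: the same for the zero set of a section on the subvariety `z` (apply it to `subM hX z`, `E = prin s * resD hX z W`, `trdeg_sub`).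
-/

set_option autoImplicit false

namespace Pool.Agent.H20.TP

open Pool.Agent.H54.RV Pool.Agent.H83.TU Pool.Agent.H83.TK Pool.Agent.H20.TD

variable {k K : Type} [Field k] [Field K] [Algebra k K] {X : Mod k K}

private theorem ker_iff {U : Set X.P} {x : X.P} (hx : x ∈ U) (a : X.sec U) :
    a ∈ RingHom.ker (evS X x hx : X.sec U →+* X.kap x) ↔ ¬ Un (X.O x) (a : K) := by
  rw [← rs_ne x ((mem_sec U a.1).1 a.2 x hx), not_not]
  exact Iff.rfl

open Classical in
private theorem fin_aff [CharZero k] [T0Space X.P] (hX : IsVar X) (hg : ∃ g, Gen X g) {n : ℕ}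
    (htr : Algebra.trdeg k K = ((n + 1 : ℕ) : Cardinal)) (U : Set X.P) (hU : X.aff U) (a : K) (ha : a ∈ X.sec U)
    (h0 : a ≠ 0) : {x | x ∈ U ∧ ¬ Un (X.O x) a ∧ Algebra.trdeg k (X.kap x) = (n : Cardinal)}.Finite := by
  rcases Set.eq_empty_or_nonempty U with he | hne
  · rw [he]
    simp
  obtain ⟨g, hg⟩ := hg
  have h1 : Algebra.FiniteType k (X.sec U) := (Subalgebra.fg_iff_finiteType _).1 (hX.fg U hU hne)
  have h2 : IsNoetherianRing (X.sec U) := Algebra.FiniteType.isNoetherianRing k (X.sec U)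
  let f : X.P → Ideal (X.sec U) := fun x =>
    if hx : x ∈ U then RingHom.ker (evS X x hx : X.sec U →+* X.kap x) else ⊥
  have hf : ∀ x (hx : x ∈ U), f x = RingHom.ker (evS X x hx : X.sec U →+* X.kap x) := fun x hx => dif_pos hx
  refine Set.Finite.of_finite_image (f := f) ?_ ?_
  · refine (Ideal.finite_minimalPrimes_of_isNoetherianRing (X.sec U) (Ideal.span {⟨a, ha⟩})).subset ?_
    rintro _ ⟨x, ⟨hx, hxa, hxn⟩, rfl⟩
    rw [hf x hx]
    have hap : (⟨a, ha⟩ : X.sec U) ∈ RingHom.ker (evS X x hx : X.sec U →+* X.kap x) := (ker_iff hx _).2 hxa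
    refine ⟨⟨RingHom.ker_isPrime _, ?_⟩, ?_⟩
    · rw [Ideal.span_le, Set.singleton_subset_iff]
      exact hap
    · rintro q ⟨hq, hle⟩ hqp
      have haq : (⟨a, ha⟩ : X.sec U) ∈ q := hle (Ideal.mem_span_singleton_self _)
      obtain ⟨y, hy, hqy⟩ := hX.prime U hU hne q hq
      have hyx : y ⤳ x := by
        refine sp_of hX hU hy hx fun b hb h4 h5 => ?_
        have h6 : (⟨b, hb⟩ : X.sec U) ∈ q := by
          rw [hqy]
          intro h7
          exact (rs_ne y h7.2.1).2 h7 h4
        exact (ker_iff hx _).1 (hqp h6) h5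
      have hxy : x ⤳ y := by
        by_contra hn
        have h4 := trdeg_lt hX hyx hn
        have h5 := trdeg_lt_gen hX hg h0 ((hqy _).1 haq)
        rw [htr] at h5
        rw [hxn] at h4
        have h6 : Algebra.trdeg k (X.kap y) < Cardinal.aleph0 := h5.trans (Cardinal.natCast_lt_aleph0 (n := n + 1))
        obtain ⟨m, hm⟩ := Cardinal.lt_aleph0.1 h6
        rw [hm] at h4 h5
        have h7 : n < m := by exact_mod_cast h4
        have h8 : m < n + 1 := by exact_mod_cast h5
        omega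
      intro b hb
      rw [ker_iff hx] at hb
      rw [hqy]
      intro h4
      exact hb (un_mono (hX.spec x y hxy) h4)
  · rintro x ⟨hx, hxa, -⟩ y ⟨hy, hya, -⟩ hxy
    rw [hf x hx, hf y hy] at hxy
    have h3 : x ⤳ y := by
      refine sp_of hX hU hx hy fun b hb h4 h5 => ?_
      have h6 : (⟨b, hb⟩ : X.sec U) ∈ RingHom.ker (evS X x hx : X.sec U →+* X.kap x) := h4
      rw [hxy] at h6
      exact (ker_iff hy _).1 h6 h5
    have h4 : y ⤳ x := by
      refine sp_of hX hU hy hx fun b hb h4 h5 => ?_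
      have h6 : (⟨b, hb⟩ : X.sec U) ∈ RingHom.ker (evS X y hy : X.sec U →+* X.kap y) := h4
      rw [← hxy] at h6
      exact (ker_iff hx _).1 h6 h5
    exact (h3.antisymm h4).eq

private theorem fin_loc [CharZero k] [T0Space X.P] (hX : IsVar X) (hg : ∃ g, Gen X g) {n : ℕ}
    (htr : Algebra.trdeg k K = ((n + 1 : ℕ) : Cardinal)) (U : Set X.P) (hU : X.aff U) (hne : U.Nonempty) (f : K)
    (hf : f ≠ 0) : {x | x ∈ U ∧ ¬ Un (X.O x) f ∧ Algebra.trdeg k (X.kap x) = (n : Cardinal)}.Finite := by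
  obtain ⟨s, hs, hs0, hfs⟩ := gen_frac hX hg U hU hne f
  refine ((fin_aff hX hg htr U hU (f * s) hfs (mul_ne_zero hf hs0)).union
    (fin_aff hX hg htr U hU s hs hs0)).subset ?_
  rintro x ⟨hx, hxf, hxn⟩
  by_contra hcon
  apply hxf
  have h1 : Un (X.O x) (f * s) := by
    by_contra h1
    exact hcon (Or.inl ⟨hx, h1, hxn⟩)
  have h2 : Un (X.O x) s := by
    by_contra h2
    exact hcon (Or.inr ⟨hx, h2, hxn⟩)
  have h3 := un_div h1 h2
  rwa [mul_div_cancel_right₀ _ hs0] at h3

private theorem fin_un [CharZero k] [T0Space X.P] (hX : IsVar X) (hg : ∃ g, Gen X g) {n : ℕ}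
    (htr : Algebra.trdeg k K = ((n + 1 : ℕ) : Cardinal)) (f : K) (hf : f ≠ 0) :
    {x | ¬ Un (X.O x) f ∧ Algebra.trdeg k (X.kap x) = (n : Cardinal)}.Finite := by
  choose U hU hxU using hX.chart
  have := hX.comp
  obtain ⟨T, -, hT⟩ := (isCompact_univ (X := X.P)).elim_nhds_subcover U
    (fun x _ => (hX.op _ (hU x)).mem_nhds (hxU x))
  refine Set.Finite.subset (T.finite_toSet.biUnion fun x _ =>
    fin_loc hX hg htr (U x) (hU x) ⟨x, hxU x⟩ f hf) ?_
  intro y hy
  have h1 := hT (Set.mem_univ y)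
  rw [Set.mem_iUnion₂] at h1
  obtain ⟨x, hx, hyx⟩ := h1
  rw [Set.mem_iUnion₂]
  exact ⟨x, hx, hyx, hy⟩

theorem supp_fin [CharZero k] [T0Space X.P] (hX : IsVar X) (hg : ∃ g, Gen X g) {n : ℕ}
    (htr : Algebra.trdeg k K = ((n + 1 : ℕ) : Cardinal)) (E : Cart X) (hE : Effective E) :
    {x : X.P | ¬ Un (X.O x) (E.eq x) ∧ Algebra.trdeg k (X.kap x) = (n : Cardinal)}.Finite := by
  obtain ⟨T, hT⟩ := fin_cover hX E
  refine Set.Finite.subset (T.finite_toSet.biUnion fun x _ => fin_un hX hg htr (E.eq x) (E.ne x)) ?_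
  intro y hy
  obtain ⟨x, hx, hun⟩ := hT y
  rw [Set.mem_iUnion₂]
  refine ⟨x, hx, fun h1 => hy.1 ?_, hy.2⟩
  have h2 := un_mul hun h1
  rwa [div_mul_cancel₀ _ (E.ne x)] at h2

theorem zst_fin [CharZero k] [T0Space X.P] (hX : IsVar X) {z : X.P} {n : ℕ}
    (htr : Algebra.trdeg k (X.kap z) = ((n + 1 : ℕ) : Cardinal)) {W : Cart X} {Z : Set X.P} (hs : HasS hX z W Z) :
    {x : X.P | x ∈ Z ∧ Algebra.trdeg k (X.kap x) = (n : Cardinal)}.Finite := by
  obtain ⟨s, hs0, hs1, hs2⟩ := hs
  have hT0 : T0Space (subM hX z).P := inferInstanceAs (T0Space {x : X.P // z ⤳ x})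
  have hE : Effective (prin (subM hX z) s hs0 * resD hX z W) := by
    intro x
    have h1 := hs1 x
    rwa [pow_one] at h1
  have h1 := supp_fin (isVar_sub hX z) ⟨_, gen_sub hX z⟩ htr (prin (subM hX z) s hs0 * resD hX z W) hE
  refine (h1.image Subtype.val).subset ?_
  rintro x ⟨hx, hxn⟩
  rw [← hs2] at hx
  obtain ⟨hzx, hx⟩ := hx
  refine ⟨⟨x, hzx⟩, ⟨hx, ?_⟩, rfl⟩
  rw [trdeg_sub hX z ⟨x, hzx⟩]
  exact hxn

end Pool.Agent.H20.TP
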