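import Pool.Agent.H20.TP.Ms
import Pool.Agent.H20.TP.Supp

/-!
# [H20 TP LocA] COROLLARY P (MP_e49dc9_ag): LOC, the case `T(e,e,S) > 0`

PROOF. `b` so large that `b A - w ∈ CC` for all `‖w‖ ≤ 1` (`CC` open cone).  `W` a lattice point within `1` of `t e - b A`, `t` large: by `lb` (radius
`1 + b ‖A‖`) it has sections on `z`: `chS W = t^2 T(e,e,S)/2 + O(t)`.  `t e - W ∈ CC`, fixed from now on (nonzero section, zero set `Z`).
For `p` near `e`: `t p - W ∈ CC`, `T(p,p,S) > 0` (continuity).  Let `x` be a curve of `z`.  If `x ∉ Z`: `0 ≤ dz x W` (`dz_nn`: restrict the section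
to `x`: nonzero), `dR x (t p - W) > 0` (`dR_cc`), so `dR x p > 0`.  If `x ∈ Z`: finitely many (`zst_fin`, `n = 1`): `F` := their functionals (`dR_int`);
`dR x p ≥ 0`; so `p` is good or killed.  `Fam`: `dz x A > 0`; `KS` by definition.
-/

set_option autoImplicit false

namespace Pool.Agent.H20.TP

open Pool.Agent.H54.RV Pool.Agent.H83.TU Pool.Agent.H83.TK Pool.Agent.H20.TD
open Pool.Agent.H24.VP (RR chS)

variable {k K : Type} [Field k] [Field K] [Algebra k K] {X : Mod k K} {r : ℕ}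
  {ν : Cart X →* Multiplicative (Fin r → ℤ)} {T : Cart X → Cart X → Cart X → ℝ} {l : Cart X → ℝ} {c : ℝ} {TR : Tri3 r}
  {z : X.P} {S : Cart X} {e : Fin r → ℝ}

private theorem bil_bd (TR : Tri3 r) (s : Fin r → ℝ) :
    ∃ M : ℝ, 0 ≤ M ∧ ∀ u v, |TR u v s| ≤ M * ‖u‖ * ‖v‖ := by
  classical
  let b := Pi.basisFun ℝ (Fin r)
  have key : ∀ u v : Fin r → ℝ, TR u v s = ∑ i, ∑ j, u i * (v j * TR (b i) (b j) s) := by
    intro u v
    have hu : u = ∑ i, u i • b i := by
      have := b.sum_repr u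
      simpa [b] using this.symm
    have hv : v = ∑ i, v i • b i := by
      have := b.sum_repr v
      simpa [b] using this.symm
    have h1 : TR u v s = TR (∑ i, u i • b i) (∑ i, v i • b i) s := by rw [← hu, ← hv]
    rw [h1]
    simp only [map_sum, map_smul, LinearMap.sum_apply, LinearMap.smul_apply, smul_eq_mul,
      Finset.mul_sum]
    rw [Finset.sum_comm]
    refine Finset.sum_congr rfl fun i _ => Finset.sum_congr rfl fun j _ => ?_
    ring
  refine ⟨∑ i, ∑ j, |TR (b i) (b j) s|, Finset.sum_nonneg fun i _ => Finset.sum_nonneg fun j _ =>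
    abs_nonneg _, fun u v => ?_⟩
  rw [key, Finset.sum_mul, Finset.sum_mul]
  refine (Finset.abs_sum_le_sum_abs _ _).trans (Finset.sum_le_sum fun i _ => ?_)
  rw [Finset.sum_mul, Finset.sum_mul]
  refine (Finset.abs_sum_le_sum_abs _ _).trans (Finset.sum_le_sum fun j _ => ?_)
  rw [abs_mul, abs_mul]
  have h1 : |u i| ≤ ‖u‖ := norm_le_pi_norm u i
  have h2 : |v j| ≤ ‖v‖ := norm_le_pi_norm v j
  have h3 : |u i| * |v j| ≤ ‖u‖ * ‖v‖ := mul_le_mul h1 h2 (abs_nonneg _) (norm_nonneg _)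
  have h4 := mul_le_mul_of_nonneg_right h3 (abs_nonneg (TR (b i) (b j) s))
  nlinarith

private theorem near_one (hν : NumR ν) (y : Fin r → ℝ) : ∃ W : Cart X, ‖cR ν W - y‖ ≤ 1 := by
  obtain ⟨W, hW⟩ := ci_surj hν (fun i => ⌊y i⌋)
  refine ⟨W, ?_⟩
  show ‖rv (ci ν W) - y‖ ≤ 1
  rw [hW, pi_norm_le_iff_of_nonneg zero_le_one]
  intro i
  rw [Pi.sub_apply, Real.norm_eq_abs, abs_le]
  have h1 := Int.floor_le (y i)
  have h2 := Int.lt_floor_add_one (y i)
  show -1 ≤ ((⌊y i⌋ : ℤ) : ℝ) - y i ∧ ((⌊y i⌋ : ℤ) : ℝ) - y i ≤ 1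
  constructor <;> linarith

/-- a section on `z` with zero set not containing the curve `x` -/
private theorem dz_off [CharZero k] (hX : IsVar X) {A : Cart X} (hA : Ample A) {z x : X.P} (hx : Cv z x)
    {W : Cart X} {Z : Set X.P} (hs : HasS hX z W Z) (hxZ : x ∉ Z) : 0 ≤ dz hX x W := by
  obtain ⟨s, hs0, hsec, hZ⟩ := hs
  obtain ⟨hzx, htr⟩ := hx
  have h1 : Un ((subM hX z).O ⟨x, hzx⟩) (s * (resD hX z W).eq ⟨x, hzx⟩) := by
    by_contra h1
    exact hxZ (hZ ▸ ⟨hzx, h1⟩)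
  have hX' := isVar_sub hX z
  let x' : (subM hX z).P := ⟨x, hzx⟩
  have h2 : resS hX' x' (resD hX z W) 1 ⟨s, hsec⟩ ≠ 0 := by
    intro h3
    rw [resS_zero, pow_one] at h3
    exact h3 h1
  have htr' : Algebra.trdeg k ((subM hX z).kap x') = 1 := by
    rw [trdeg_sub]
    exact htr
  have hcrv : H41.TK.Crv (subM hX' x') := crv_of hX' ⟨resD hX z A, res_ample _ _ _ hA⟩ htr'
  have hfin := H41.TK.sec_fin hcrv (resD hX' x' (resD hX z W))
  have h3 : 0 < h0 (resD hX' x' (resD hX z W)) 1 := by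
    unfold h0
    haveI : Nontrivial (secL (resD hX' x' (resD hX z W)) 1) := ⟨⟨_, _, h2⟩⟩
    exact Module.finrank_pos
  have h4 : 0 < hz hX x W := by
    have := hz_sub hX z x' W
    rw [← this]
    exact h3
  have h6 : ∃ t : secL (resD hX x W) 1, t ≠ 0 := by
    by_contra h7
    push Not at h7
    have h8 : Subsingleton (secL (resD hX x W) 1) := ⟨fun a b => by rw [h7 a, h7 b]⟩
    unfold hz h0 at h4
    rw [Module.finrank_zero_of_subsingleton] at h4
    exact lt_irrefl _ h4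
  obtain ⟨t, ht⟩ := h6
  exact dz_nn hX ⟨A, hA⟩ htr (s := (t : X.kap x)) t.2 fun h7 => ht (Subtype.ext h7)

private theorem hasS_of (hX : IsVar X) {z : X.P} {W : Cart X} (h4 : 0 < hz hX z W) :
    ∃ Z, HasS hX z W Z := by
  have h6 : ∃ t : secL (resD hX z W) 1, t ≠ 0 := by
    by_contra h7
    push Not at h7
    have h8 : Subsingleton (secL (resD hX z W) 1) := ⟨fun a b => by rw [h7 a, h7 b]⟩
    unfold hz h0 at h4
    rw [Module.finrank_zero_of_subsingleton] at h4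
    exact lt_irrefl _ h4
  obtain ⟨t, ht⟩ := h6
  exact ⟨_, (t : X.kap z), fun h7 => ht (Subtype.ext h7), t.2, rfl⟩

/-- a section in the direction of `e` -/
private theorem sec_e [CharZero k] [IsAlgClosed k] [T0Space X.P] (h : Hyp X) (hr : RR T l c) (hν : NumR ν)
    (hT : ∀ U V W, TR (cR ν U) (cR ν V) (cR ν W) = T U V W)
    (htr : Algebra.trdeg k (X.kap z) = 2) (hS : SPr X z S) {A : Cart X} (hA : Ample A) (he : MS hν h.var TR z S e)
    (h2 : 0 < TR e e (cR ν S)) : ∃ (t : ℝ) (W : Cart X), 0 < t ∧ t • e - cR ν W ∈ CC ν ∧ 0 < hz h.var z W := by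
  have hAc : cR ν A ∈ CC ν := cc_amp h.var hν hA
  obtain ⟨ε, hε, hball⟩ := Metric.isOpen_iff.1 (cc_open (ν := ν)) _ hAc
  -- the number b
  set b : ℝ := 2 / ε with hb
  have hb0 : 0 < b := by positivity
  have hbw : ∀ w : Fin r → ℝ, ‖w‖ ≤ 1 → b • cR ν A - w ∈ CC ν := by
    intro w hw
    have h3 : cR ν A - b⁻¹ • w ∈ CC ν := by
      apply hball
      rw [Metric.mem_ball, dist_eq_norm]
      have h4 : cR ν A - b⁻¹ • w - cR ν A = - (b⁻¹ • w) := by abel
      rw [h4, norm_neg, norm_smul, Real.norm_eq_abs, abs_of_pos (inv_pos.2 hb0)]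
      have h5 : b⁻¹ = ε / 2 := by rw [hb, inv_div]
      rw [h5]
      nlinarith [norm_nonneg w]
    have h4 := cc_smul hb0 h3
    rw [smul_sub, smul_smul, mul_inv_cancel₀ hb0.ne', one_smul] at h4
    exact h4
  obtain ⟨M, hM, hbd⟩ := bil_bd TR (cR ν S)
  set c₀ : ℝ := 1 + b * ‖cR ν A‖ with hc0
  have hc00 : 0 ≤ c₀ := by positivity
  obtain ⟨C, hC⟩ := lb h hr hν htr hS he.deg c₀
  set q : ℝ := TR e e (cR ν S) with hq
  set κ : ℝ := T S S S / 6 + l S with hκ
  set K1 : ℝ := M * ‖e‖ * c₀ + M * ‖e‖ * ‖cR ν S‖ with hK1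
  set K2 : ℝ := M * c₀ * c₀ + M * c₀ * ‖cR ν S‖ with hK2
  have hK1' : 0 ≤ K1 := by positivity
  have hK2' : 0 ≤ K2 := by positivity
  set t : ℝ := 2 / q * (K1 + K2 + |κ| + |C| + 1) + 1 with ht
  have hN : 0 ≤ K1 + K2 + |κ| + |C| + 1 := by positivity
  have ht1 : 1 ≤ t := by
    have : 0 ≤ 2 / q * (K1 + K2 + |κ| + |C| + 1) := by positivity
    linarith
  have htq : K1 + K2 + |κ| + |C| + 1 ≤ t * q / 2 := by
    have h3 : t * q / 2 = (K1 + K2 + |κ| + |C| + 1) + q / 2 := by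
      rw [ht]
      field_simp
    rw [h3]
    linarith
  obtain ⟨W, hW⟩ := near_one hν (t • e - b • cR ν A)
  refine ⟨t, W, by linarith, ?_, ?_⟩
  · have h3 := hbw (cR ν W - (t • e - b • cR ν A)) hW
    have h4 : b • cR ν A - (cR ν W - (t • e - b • cR ν A)) = t • e - cR ν W := by abel
    rwa [h4] at h3
  · set w : Fin r → ℝ := cR ν W - t • e with hw
    have hwn : ‖w‖ ≤ c₀ := by
      have h3 : w = (cR ν W - (t • e - b • cR ν A)) - b • cR ν A := by rw [hw]; abel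
      rw [h3, hc0]
      refine (norm_sub_le _ _).trans (add_le_add hW ?_)
      rw [norm_smul, Real.norm_eq_abs, abs_of_pos hb0]
    have hcW : cR ν W = t • e + w := by rw [hw]; abel
    have h3 := hC t W (by linarith) hwn
    have h4 : chS T l S W = (t ^ 2 * q + t * (TR e w (cR ν S) + TR w e (cR ν S)) + TR w w (cR ν S)) / 2 -
        (t * TR e (cR ν S) (cR ν S) + TR w (cR ν S) (cR ν S)) / 2 + κ := by
      unfold chS
      rw [← hT W W S, ← hT W S S, hcW]
      simp only [map_add, map_smul, LinearMap.add_apply, LinearMap.smul_apply, smul_eq_mul]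
      rw [hκ, hq]
      ring
    have hewb : |TR e w (cR ν S)| ≤ M * ‖e‖ * c₀ :=
      (hbd e w).trans (mul_le_mul_of_nonneg_left hwn (by positivity))
    have hweb : |TR w e (cR ν S)| ≤ M * ‖e‖ * c₀ := by
      refine (hbd w e).trans ?_
      have : M * ‖w‖ * ‖e‖ ≤ M * c₀ * ‖e‖ :=
        mul_le_mul_of_nonneg_right (mul_le_mul_of_nonneg_left hwn hM) (norm_nonneg _)
      linarith
    have hwwb : |TR w w (cR ν S)| ≤ M * c₀ * c₀ := by
      refine (hbd w w).trans ?_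
      exact mul_le_mul (mul_le_mul_of_nonneg_left hwn hM) hwn (norm_nonneg _) (by positivity)
    have heSb : |TR e (cR ν S) (cR ν S)| ≤ M * ‖e‖ * ‖cR ν S‖ := hbd _ _
    have hwSb : |TR w (cR ν S) (cR ν S)| ≤ M * c₀ * ‖cR ν S‖ :=
      (hbd _ _).trans (mul_le_mul_of_nonneg_right (mul_le_mul_of_nonneg_left hwn hM) (norm_nonneg _))
    have e1 := (abs_le.1 hewb).1
    have e2 := (abs_le.1 hweb).1
    have e3 := (abs_le.1 hwwb).1
    have e4 := (abs_le.1 heSb).2
    have e5 := (abs_le.1 hwSb).2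
    have e6 := neg_abs_le κ
    have e7 := le_abs_self C
    have ht0 : (0 : ℝ) < t := by linarith
    have e8 : t * (-(M * ‖e‖ * c₀)) ≤ t * TR e w (cR ν S) := mul_le_mul_of_nonneg_left e1 ht0.le
    have e9 : t * (-(M * ‖e‖ * c₀)) ≤ t * TR w e (cR ν S) := mul_le_mul_of_nonneg_left e2 ht0.le
    have e10 : t * TR e (cR ν S) (cR ν S) ≤ t * (M * ‖e‖ * ‖cR ν S‖) :=
      mul_le_mul_of_nonneg_left e4 ht0.le
    have e11 : t * (K1 + K2 + |κ| + |C| + 1) ≤ t * (t * q / 2) := mul_le_mul_of_nonneg_left htq ht0.le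
    have e12 : K2 + |κ| + |C| + 1 ≤ t * (K2 + |κ| + |C| + 1) :=
      le_mul_of_one_le_left (by positivity) ht1
    have e13 : 0 ≤ t * (M * ‖e‖ * ‖cR ν S‖) := by positivity
    have e14 : 0 ≤ M * c₀ * ‖cR ν S‖ := by positivity
    have e15 : 0 ≤ M * c₀ * c₀ := by positivity
    have h5 : (1 : ℝ) ≤ chS T l S W - C := by
      rw [h4]
      rw [hK1] at e11
      rw [hK2] at e11 e12
      nlinarith
    have h6 : (0 : ℝ) < (hz h.var z W : ℝ) := by linarith
    exact_mod_cast h6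

theorem loc_a [CharZero k] [IsAlgClosed k] [T0Space X.P] (h : Hyp X) (hr : RR T l c) (hν : NumR ν)
    (hT : ∀ U V W, TR (cR ν U) (cR ν V) (cR ν W) = T U V W)
    (htr : Algebra.trdeg k (X.kap z) = 2) (hS : SPr X z S) {A : Cart X} (hA : Ample A) (he : MS hν h.var TR z S e)
    (h2 : 0 < TR e e (cR ν S)) : LocAt hν h.var TR z S A e := by
  classical
  obtain ⟨t, W, ht, hcc, hzp⟩ := sec_e h hr hν hT htr hS hA he h2
  obtain ⟨Z, hZ⟩ := hasS_of h.var hzp
  -- the points near `e`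
  obtain ⟨ε, hε, hball⟩ := Metric.isOpen_iff.1 (cc_open (ν := ν)) _ hcc
  obtain ⟨M, hM, hbd⟩ := bil_bd TR (cR ν S)
  set q : ℝ := TR e e (cR ν S) with hq
  set η : ℝ := min (ε / t) (min 1 (q / (2 * (M * (2 * ‖e‖ + 1) + 1)))) with hη
  have hη0 : 0 < η := by
    rw [hη]
    have : 0 < 2 * (M * (2 * ‖e‖ + 1) + 1) := by positivity
    refine lt_min (by positivity) (lt_min one_pos (by positivity))
  have hη1 : η ≤ ε / t := min_le_left _ _
  have hη2 : η ≤ 1 := (min_le_right _ _).trans (min_le_left _ _)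
  have hη3 : η ≤ q / (2 * (M * (2 * ‖e‖ + 1) + 1)) := (min_le_right _ _).trans (min_le_right _ _)
  choose φ hφ using fun x => dR_int hν h.var x
  have htr' : Algebra.trdeg k (X.kap z) = ((1 + 1 : ℕ) : Cardinal) := by
    rw [htr]
    norm_num
  have hfin := zst_fin h.var htr' hZ
  refine ⟨η, φ '' {x | (x ∈ Z ∧ Algebra.trdeg k (X.kap x) = ((1 : ℕ) : Cardinal)) ∧ z ⤳ x}, hη0,
    ⟨(hfin.subset fun x hx => hx.1).image _, ?_, ?_⟩, ?_⟩
  · rintro _ ⟨x, ⟨⟨hxZ, hx1⟩, hzx⟩, rfl⟩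
    rw [← hφ, dR_ci hν h.var ⟨A, hA⟩ (by rw [hx1, Nat.cast_one])]
    exact_mod_cast dz_pos h.var ⟨A, hA⟩ (by rw [hx1, Nat.cast_one]) (res_ample _ _ _ hA)
  · rintro _ ⟨x, ⟨⟨hxZ, hx1⟩, hzx⟩, rfl⟩ v hv
    rw [← hφ]
    exact hv.2 x ⟨hzx, by rw [hx1, Nat.cast_one]⟩
  · intro p hp hpe
    by_cases hkill : ∃ ψ ∈ φ '' {x | (x ∈ Z ∧ Algebra.trdeg k (X.kap x) = ((1 : ℕ) : Cardinal)) ∧ z ⤳ x},
        rv ψ ⬝ᵥ p = 0
    · exact Or.inr hkill
    · refine Or.inl ⟨?_, fun x hx => ?_⟩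
      · set w : Fin r → ℝ := p - e with hw
        have hpw : p = e + w := by rw [hw]; abel
        have h3 : TR p p (cR ν S) = q + TR e w (cR ν S) + TR w e (cR ν S) + TR w w (cR ν S) := by
          rw [hpw]
          simp only [map_add, LinearMap.add_apply]
          rw [hq]
          ring
        rw [h3]
        have e1 := (abs_le.1 (hbd e w)).1
        have e2 := (abs_le.1 (hbd w e)).1
        have e3 := (abs_le.1 (hbd w w)).1
        have hw1 : ‖w‖ ≤ η := hpe.le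
        have hpos : 0 < 2 * (M * (2 * ‖e‖ + 1) + 1) := by positivity
        have e4 : η * (2 * (M * (2 * ‖e‖ + 1) + 1)) ≤ q := (le_div_iff₀ hpos).1 hη3
        have hwn := norm_nonneg w
        have hen := norm_nonneg e
        have e5 : M * ‖e‖ * ‖w‖ ≤ M * ‖e‖ * η := mul_le_mul_of_nonneg_left hw1 (by positivity)
        have e6 : M * ‖w‖ * ‖w‖ ≤ M * η * 1 :=
          mul_le_mul (mul_le_mul_of_nonneg_left hw1 hM) (hw1.trans hη2) hwn (by positivity)
        have e7 : M * ‖w‖ * ‖e‖ ≤ M * η * ‖e‖ :=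
          mul_le_mul_of_nonneg_right (mul_le_mul_of_nonneg_left hw1 hM) hen
        have e8 : 0 ≤ η * (M * (2 * ‖e‖ + 1)) := by positivity
        nlinarith
      · by_cases hxZ : x ∈ Z
        · have h3 : 0 ≤ dR hν h.var x p := hp.deg x hx
          rcases h3.lt_or_eq with h4 | h4
          · exact h4
          · exfalso
            refine hkill ⟨φ x, ⟨x, ⟨⟨hxZ, by rw [hx.2, Nat.cast_one]⟩, hx.1⟩, rfl⟩, ?_⟩
            rw [← hφ, ← h4]
        · have h3 := dz_off h.var hA hx hZ hxZ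
          have h4 : t • p - cR ν W ∈ CC ν := by
            apply hball
            rw [Metric.mem_ball, dist_eq_norm]
            have h5 : t • p - cR ν W - (t • e - cR ν W) = t • (p - e) := by
              rw [smul_sub]
              abel
            rw [h5, norm_smul, Real.norm_eq_abs, abs_of_pos ht]
            have h6 : ‖p - e‖ < ε / t := lt_of_lt_of_le hpe hη1
            rw [lt_div_iff₀ ht] at h6
            linarith
          have h5 := dR_cc hν h.var hA hx.2 h4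
          rw [map_sub, map_smul, dR_ci hν h.var ⟨A, hA⟩ hx.2, smul_eq_mul] at h5
          have h6 : (0 : ℝ) ≤ (dz h.var x W : ℝ) := by exact_mod_cast h3
          have h7 : 0 < t * dR hν h.var x p := by linarith
          exact (mul_pos_iff_of_pos_left ht).1 h7

end Pool.Agent.H20.TP
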