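import Pool.Agent.H20.TP.Ms
import Pool.Agent.H20.TP.Supp

/-!
# [H20 TP LocB] COROLLARY P (MP_e49dc9_ag): LOC, the case `T(e,e,S) = 0`, `T(e,S,S) < 0`

PROOF: think 1120, LOC, case 2.  `Th := T(e,.,S)`, `kappa := - T(e,S,S)`.
(1) for `c₀` there is `t₁`: `W` within `c₀` of `t e`, `t ≥ t₁`, `Th(W) ≥ - kappa/4` gives a section on `z` (`lb`; `chS W = t Th(W) + t kappa/2 + O(1)`),
so (2) `Th(W) ≥ 0` (`he.eff`).  (3) no lattice point `u` has `- kappa/4 < Th(u) < 0`; so `Th = tau delta` on the lattice, `delta` integral, `delta(a0) = 1`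
(`AddSubgroup` of `ℝ`, cyclic).  (4) `u_ij := delta_i e_j - delta_j e_i`, `v = sum a0_i v_j u_ij` for `delta(v) = 0`.  `m` large, then `t`, then `W0` a lattice
point with `delta = 0` within a constant of `t e`, then `η`.  The points `W0`, `W0 ± m u_ij`, `W0 + a0` have sections on `z`.
LEMMA (linear algebra, separate): `phi` a linear functional, `phi ≥ 0` on these points, `phi(A) > 0`, `delta(A) > 0`, `‖p - e‖ < η`, `delta(p) > 0`: `phi(p) > 0`.
Apply it to `phi = dR x` for the curves `x` of `z` outside of the zero sets of these sections and to `phi = T(p,.,S)` (`T(p,A,S) > 0` near `e`).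
`delta(p) ≥ 0` for `p ∈ M_S` by `ms_TT`.  `F := {delta} ∪ {dR x : x` a curve in one of the zero sets`}` (`zst_fin`).
`Th(A) > 0`: hypothesis.
-/

set_option autoImplicit false

namespace Pool.Agent.H20.TP

open Pool.Agent.H54.RV Pool.Agent.H83.TU Pool.Agent.H83.TK Pool.Agent.H20.TD
open Pool.Agent.H24.VP (RR chS)

variable {k K : Type} [Field k] [Field K] [Algebra k K] {X : Mod k K} {r : ℕ}
  {ν : Cart X →* Multiplicative (Fin r → ℤ)} {T : Cart X → Cart X → Cart X → ℝ} {l : Cart X → ℝ} {c : ℝ} {TR : Tri3 r}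
  {z : X.P} {S : Cart X} {e : Fin r → ℝ}

section lin

private lemma lin_bd (φ : (Fin r → ℝ) →ₗ[ℝ] ℝ) : ∃ M : ℝ, 0 ≤ M ∧ ∀ v, |φ v| ≤ M * ‖v‖ :=
  ⟨‖LinearMap.toContinuousLinearMap φ‖, norm_nonneg _, fun v =>
    (LinearMap.toContinuousLinearMap φ).le_opNorm v⟩

private lemma bil_bd (B : (Fin r → ℝ) →ₗ[ℝ] (Fin r → ℝ) →ₗ[ℝ] ℝ) :
    ∃ M : ℝ, 0 ≤ M ∧ ∀ u v, |B u v| ≤ M * ‖u‖ * ‖v‖ := by
  classical
  choose M hM0 hM using fun i : Fin r => lin_bd (B (fun j => if i = j then 1 else 0))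
  refine ⟨∑ i, M i, Finset.sum_nonneg fun i _ => hM0 i, fun u v => ?_⟩
  rw [LinearMap.pi_apply_eq_sum_univ B u, LinearMap.sum_apply]
  refine (Finset.abs_sum_le_sum_abs _ _).trans ?_
  rw [Finset.sum_mul, Finset.sum_mul]
  refine Finset.sum_le_sum fun i _ => ?_
  rw [LinearMap.smul_apply, smul_eq_mul, abs_mul]
  have h1 := hM i v
  have h2 : |u i| ≤ ‖u‖ := norm_le_pi_norm u i
  calc |u i| * |B (fun j => if i = j then 1 else 0) v| ≤ ‖u‖ * (M i * ‖v‖) :=
        mul_le_mul h2 h1 (abs_nonneg _) (norm_nonneg _)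
    _ = M i * ‖u‖ * ‖v‖ := by ring

private lemma rnd (x : Fin r → ℝ) : ∃ d : Fin r → ℤ, ‖rv d - x‖ ≤ 1 := by
  refine ⟨fun i => ⌊x i⌋, ?_⟩
  rw [pi_norm_le_iff_of_nonneg zero_le_one]
  intro i
  rw [Pi.sub_apply, Real.norm_eq_abs, abs_le]
  have h1 := Int.floor_le (x i)
  have h2 := Int.lt_floor_add_one (x i)
  show -1 ≤ ((⌊x i⌋ : ℤ) : ℝ) - x i ∧ ((⌊x i⌋ : ℤ) : ℝ) - x i ≤ 1
  constructor <;> linarith

private lemma rv_sub (D E : Fin r → ℤ) : rv (D - E) = rv D - rv E := by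
  funext i
  simp [rv]

private lemma disc (Th : (Fin r → ℝ) →ₗ[ℝ] ℝ) {κ : ℝ} (hκ : 0 < κ)
    (h : ∀ d : Fin r → ℤ, ¬ (-κ < Th (rv d) ∧ Th (rv d) < 0)) (hne : ∃ d : Fin r → ℤ, Th (rv d) ≠ 0) :
    ∃ (τ : ℝ) (δ a0 : Fin r → ℤ), 0 < τ ∧ (∀ v, Th v = τ * (rv δ ⬝ᵥ v)) ∧ rv δ ⬝ᵥ rv a0 = 1 := by
  classical
  set f : (Fin r → ℤ) →+ ℝ :=
    { toFun := fun d => Th (rv d)
      map_zero' := by
        have : rv (0 : Fin r → ℤ) = 0 := by
          funext i
          simp [rv]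
        show Th (rv 0) = 0
        rw [this, map_zero]
      map_add' := fun d e => by
        show Th (rv (d + e)) = _
        rw [rv_add, map_add] } with hf
  have hfa : ∀ d, f d = Th (rv d) := fun d => rfl
  have hd : Disjoint (f.range : Set ℝ) (Set.Ioo 0 κ) := by
    rw [Set.disjoint_left]
    rintro x ⟨d, rfl⟩ ⟨h1, h2⟩
    rw [hfa] at h1 h2
    refine h (-d) ?_
    rw [rv_neg, map_neg]
    constructor <;> linarith
  obtain ⟨b, hb⟩ := AddSubgroup.cyclic_of_isolated_zero hκ hd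
  have hb0 : b ≠ 0 := by
    rintro rfl
    obtain ⟨d, hd⟩ := hne
    have h1 : f d ∈ f.range := ⟨d, rfl⟩
    rw [hb, AddSubgroup.mem_closure_singleton] at h1
    obtain ⟨n, hn⟩ := h1
    rw [smul_zero] at hn
    exact hd hn.symm
  obtain ⟨τ, hτ, hτ1, hτ2⟩ : ∃ τ : ℝ, 0 < τ ∧ τ ∈ f.range ∧ ∀ x ∈ f.range, ∃ n : ℤ, x = n * τ := by
    have hbm : b ∈ f.range := by
      rw [hb]
      exact AddSubgroup.mem_closure_singleton_self b
    rcases lt_or_gt_of_ne hb0 with hlt | hgt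
    · refine ⟨-b, by linarith, f.range.neg_mem hbm, fun x hx => ?_⟩
      rw [hb, AddSubgroup.mem_closure_singleton] at hx
      obtain ⟨n, hn⟩ := hx
      refine ⟨-n, ?_⟩
      rw [← hn, zsmul_eq_mul]
      push_cast
      ring
    · refine ⟨b, hgt, hbm, fun x hx => ?_⟩
      rw [hb, AddSubgroup.mem_closure_singleton] at hx
      obtain ⟨n, hn⟩ := hx
      exact ⟨n, by rw [← hn, zsmul_eq_mul]⟩
  choose δ hδ using fun i : Fin r => hτ2 (f (Pi.single i 1)) ⟨_, rfl⟩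
  have hTh : ∀ v, Th v = τ * (rv δ ⬝ᵥ v) := by
    intro v
    rw [LinearMap.pi_apply_eq_sum_univ Th v, dotProduct, Finset.mul_sum]
    refine Finset.sum_congr rfl fun i _ => ?_
    have h1 : (fun j => if i = j then (1 : ℝ) else 0) = rv (Pi.single i 1) := by
      rw [rv_single]
      funext j
      by_cases hij : i = j
      · subst hij
        simp
      · rw [if_neg hij, Pi.single_eq_of_ne (fun h => hij h.symm)]
    rw [h1, ← hfa, hδ i, smul_eq_mul]
    show v i * ((δ i : ℝ) * τ) = τ * ((δ i : ℝ) * v i)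
    ring
  obtain ⟨a0, ha0⟩ := hτ1
  refine ⟨τ, δ, a0, hτ, hTh, ?_⟩
  rw [hfa, hTh] at ha0
  have h1 : τ * (rv δ ⬝ᵥ rv a0) = τ * 1 := by rw [ha0, mul_one]
  exact mul_left_cancel₀ hτ.ne' h1

/-- the generators of the kernel -/
private def uu (δ : Fin r → ℤ) (i j : Fin r) : Fin r → ℤ :=
  δ i • Pi.single j 1 - δ j • Pi.single i 1

private lemma phi_sum (φ : (Fin r → ℝ) →ₗ[ℝ] ℝ) (v : Fin r → ℝ) :
    φ v = ∑ j, v j * φ (Pi.single j 1) := by
  classical
  rw [LinearMap.pi_apply_eq_sum_univ φ v]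
  refine Finset.sum_congr rfl fun i _ => ?_
  rw [smul_eq_mul]
  congr 2
  funext j
  by_cases hij : i = j
  · subst hij
    simp
  · rw [if_neg hij, Pi.single_eq_of_ne (fun h => hij h.symm)]

private lemma phi_uu (φ : (Fin r → ℝ) →ₗ[ℝ] ℝ) (δ : Fin r → ℤ) (i j : Fin r) :
    φ (rv (uu δ i j)) = δ i * φ (Pi.single j 1) - δ j * φ (Pi.single i 1) := by
  classical
  unfold uu
  rw [rv_sub, rv_smul, rv_smul, rv_single, rv_single, map_sub, map_smul, map_smul, smul_eq_mul,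
    smul_eq_mul]

private lemma ker_dec (φ : (Fin r → ℝ) →ₗ[ℝ] ℝ) {δ a0 : Fin r → ℤ} (h1 : rv δ ⬝ᵥ rv a0 = 1)
    {v : Fin r → ℝ} (hv : rv δ ⬝ᵥ v = 0) :
    φ v = ∑ i, ∑ j, (a0 i : ℝ) * v j * φ (rv (uu δ i j)) := by
  have h2 : ∑ i, ∑ j, (a0 i : ℝ) * v j * φ (rv (uu δ i j)) =
      (∑ i, (δ i : ℝ) * (a0 i : ℝ)) * (∑ j, v j * φ (Pi.single j 1)) -
      (∑ i, (a0 i : ℝ) * φ (Pi.single i 1)) * (∑ j, (δ j : ℝ) * v j) := by
    rw [Finset.sum_mul_sum, Finset.sum_mul_sum, ← Finset.sum_sub_distrib]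
    refine Finset.sum_congr rfl fun i _ => ?_
    rw [← Finset.sum_sub_distrib]
    refine Finset.sum_congr rfl fun j _ => ?_
    rw [phi_uu]
    ring
  have h3 : (∑ i, (δ i : ℝ) * (a0 i : ℝ)) = 1 := h1
  have h4 : (∑ j, (δ j : ℝ) * v j) = 0 := hv
  rw [h2, h3, h4, one_mul, mul_zero, sub_zero]
  exact phi_sum φ v

/-- the key lemma of linear algebra -/
private lemma lin_pos (φ : (Fin r → ℝ) →ₗ[ℝ] ℝ) {δ a0 W0 : Fin r → ℤ} (h1 : rv δ ⬝ᵥ rv a0 = 1)
    (hW0 : rv δ ⬝ᵥ rv W0 = 0) {c m : ℝ} (hc : 0 ≤ c) (hm : 0 < m)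
    (hcm : 4 * ((∑ i, |(a0 i : ℝ)|) * (r : ℝ) * c) ≤ m)
    (p0 : 0 ≤ φ (rv W0)) (pp : ∀ i j, 0 ≤ φ (rv W0) + m * φ (rv (uu δ i j)))
    (pm : ∀ i j, 0 ≤ φ (rv W0) - m * φ (rv (uu δ i j)))
    (pa : 0 ≤ φ (rv W0) + φ (rv a0)) {a : Fin r → ℝ} (ha : 0 < φ a) (hδa : 0 < rv δ ⬝ᵥ a)
    {p : Fin r → ℝ} {t : ℝ} (ht : 0 < t) (hθ : 0 < rv δ ⬝ᵥ p) (htθ : t * (rv δ ⬝ᵥ p) < 3 / 4)
    (hn : ‖t • p - (t * (rv δ ⬝ᵥ p)) • rv a0 - rv W0‖ ≤ c) : 0 < φ p := by
  have hu : ∀ i j, m * |φ (rv (uu δ i j))| ≤ φ (rv W0) := by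
    intro i j
    rcases abs_cases (φ (rv (uu δ i j))) with ⟨h2, _⟩ | ⟨h2, _⟩
    · rw [h2]
      linarith [pm i j]
    · rw [h2]
      linarith [pp i j]
  rcases p0.eq_or_lt with h0 | h0
  · -- `φ` vanishes on the kernel
    have hu0 : ∀ i j, φ (rv (uu δ i j)) = 0 := by
      intro i j
      have h2 := hu i j
      rw [← h0] at h2
      have h3 : |φ (rv (uu δ i j))| ≤ 0 := by
        by_contra h4
        push Not at h4
        have := mul_pos hm h4
        linarith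
      exact abs_nonpos_iff.mp h3
    have hk : ∀ v, rv δ ⬝ᵥ v = 0 → φ v = 0 := by
      intro v hv
      rw [ker_dec φ h1 hv]
      refine Finset.sum_eq_zero fun i _ => Finset.sum_eq_zero fun j _ => ?_
      rw [hu0, mul_zero]
    have hg : ∀ v, φ v = (rv δ ⬝ᵥ v) * φ (rv a0) := by
      intro v
      have h2 := hk (v - (rv δ ⬝ᵥ v) • rv a0) (by
        rw [dotProduct_sub, dotProduct_smul, h1, smul_eq_mul, mul_one, sub_self])
      rw [map_sub, map_smul, smul_eq_mul] at h2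
      linarith
    have h2 := hg a
    have h3 : 0 < φ (rv a0) := by
      by_contra h4
      push Not at h4
      have := mul_nonpos_of_nonneg_of_nonpos hδa.le h4
      linarith
    rw [hg p]
    exact mul_pos hθ h3
  · set θ := rv δ ⬝ᵥ p with hθd
    set v := t • p - (t * θ) • rv a0 - rv W0 with hv
    have hv0 : rv δ ⬝ᵥ v = 0 := by
      rw [hv, dotProduct_sub, dotProduct_sub, dotProduct_smul, dotProduct_smul, h1, hW0,
        smul_eq_mul, smul_eq_mul, ← hθd]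
      ring
    have h2 : |φ v| ≤ φ (rv W0) / 4 := by
      rw [ker_dec φ h1 hv0]
      refine (Finset.abs_sum_le_sum_abs _ _).trans ?_
      have h3 : ∀ i : Fin r, |∑ j, (a0 i : ℝ) * v j * φ (rv (uu δ i j))| ≤
          |(a0 i : ℝ)| * ((r : ℝ) * c * (φ (rv W0) / m)) := by
        intro i
        refine (Finset.abs_sum_le_sum_abs _ _).trans ?_
        have h4 : ∀ j ∈ (Finset.univ : Finset (Fin r)), |(a0 i : ℝ) * v j * φ (rv (uu δ i j))| ≤
            |(a0 i : ℝ)| * (c * (φ (rv W0) / m)) := by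
          intro j _
          rw [abs_mul, abs_mul, mul_assoc]
          refine mul_le_mul_of_nonneg_left ?_ (abs_nonneg _)
          refine mul_le_mul ((norm_le_pi_norm v j).trans hn) ?_ (abs_nonneg _) hc
          rw [le_div_iff₀ hm, mul_comm]
          exact hu i j
        refine (Finset.sum_le_sum h4).trans (le_of_eq ?_)
        rw [Finset.sum_const, Finset.card_univ, Fintype.card_fin, nsmul_eq_mul]
        ring
      refine (Finset.sum_le_sum fun i _ => h3 i).trans ?_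
      rw [← Finset.sum_mul]
      have h5 : (∑ i, |(a0 i : ℝ)|) * ((r : ℝ) * c * (φ (rv W0) / m)) =
          ((∑ i, |(a0 i : ℝ)|) * (r : ℝ) * c) / m * φ (rv W0) := by
        field_simp
      rw [h5]
      have h6 : ((∑ i, |(a0 i : ℝ)|) * (r : ℝ) * c) / m ≤ 1 / 4 := by
        rw [div_le_iff₀ hm]
        linarith
      have h7 := mul_le_mul_of_nonneg_right h6 h0.le
      linarith
    have h3 : t * φ p = φ v + t * θ * φ (rv a0) + φ (rv W0) := by
      rw [hv, map_sub, map_sub, map_smul, map_smul, smul_eq_mul, smul_eq_mul]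
      ring
    have h4 : - (φ (rv W0) / 4) ≤ φ v := (abs_le.mp h2).1
    have h5 : - (t * θ * φ (rv W0)) ≤ t * θ * φ (rv a0) := by
      have h6 : 0 ≤ t * θ := (mul_pos ht hθ).le
      have h7 := mul_nonneg h6 pa
      rw [mul_add] at h7
      linarith
    have h6 : 0 < (3 / 4 - t * θ) * φ (rv W0) := mul_pos (by linarith) h0
    have h8 : 0 < t * φ p := by
      rw [h3]
      nlinarith
    exact (mul_pos_iff_of_pos_left ht).mp h8

end lin

/-- a section on `z` which does not vanish at the curve `x` -/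
private lemma dz_of_sec [CharZero k] (hX : IsVar X) (hA : ∃ A : Cart X, Ample A) {x : X.P} (hx : Cv z x)
    {W : Cart X} {Z : Set X.P} (hs : HasS hX z W Z) (hxZ : x ∉ Z) : 0 ≤ dz hX x W := by
  obtain ⟨s, hs0, hs1, rfl⟩ := hs
  have hun : Un ((subM hX z).O ⟨x, hx.1⟩) (s * (resD hX z W).eq ⟨x, hx.1⟩) := by
    by_contra h1
    exact hxZ ⟨hx.1, h1⟩
  have h1 : 0 < hz hX x W := by
    rw [← hz_sub hX z ⟨x, hx.1⟩ W]
    set Y := subM hX z with hY
    set y : Y.P := ⟨x, hx.1⟩ with hy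
    have hYv : IsVar Y := isVar_sub hX z
    have h2 : (resS hYv y (resD hX z W) 1 ⟨s, hs1⟩) ≠ 0 := by
      intro h3
      rw [resS_zero] at h3
      rw [pow_one] at h3
      exact h3 hun
    have hYv2 : IsVar (subM hYv y) := isVar_sub hYv y
    have hA' : ∃ A : Cart Y, Ample A := by
      obtain ⟨A, hA⟩ := hA
      exact ⟨resD hX z A, res_ample _ _ _ hA⟩
    unfold h0
    rw [Nat.pos_iff_ne_zero]
    intro h4
    have hfin : FiniteDimensional k (secL (resD hYv y (resD hX z W)) 1) := by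
      obtain ⟨A, hA2⟩ := hA'
      exact Pool.Agent.H24.TK.fd hYv2 ⟨_, gen_sub hYv y⟩ (res_ample _ _ _ hA2) _
    rw [Module.finrank_zero_iff] at h4
    exact h2 (Subsingleton.elim _ _)
  obtain ⟨s', hs', hE⟩ := Pool.Agent.H20.TK.eff_of_pos (resD hX x W) h1
  exact dz_nn hX hA hx.2 (s := s') (fun y => by
    have := hE y
    rw [pow_one]
    exact this) hs'


/-- the form `(u, v) ↦ T(u, v, S)` -/
private noncomputable def Bfm (TR : Tri3 r) (s' : Fin r → ℝ) : (Fin r → ℝ) →ₗ[ℝ] (Fin r → ℝ) →ₗ[ℝ] ℝ :=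
  LinearMap.compr₂ TR (LinearMap.applyₗ (R := ℝ) (M := Fin r → ℝ) (M₂ := ℝ) s')

private lemma Bfm_apply (TR : Tri3 r) (s' u v : Fin r → ℝ) : Bfm TR s' u v = TR u v s' := rfl

private lemma tr_symm (hr : RR T l c) (hν : NumR ν)
    (hT : ∀ U V W, TR (cR ν U) (cR ν V) (cR ν W) = T U V W) (u v w : Fin r → ℝ) : TR u v w = TR v u w := by
  have e1 : ∀ D E : Cart X, TR (cR ν D) (cR ν E) = TR (cR ν E) (cR ν D) := by
    intro D E
    have h1 : ∀ F : Cart X, TR (cR ν D) (cR ν E) (rv (ci ν F)) = TR (cR ν E) (cR ν D) (rv (ci ν F)) := by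
      intro F
      have h2 := hT E D F
      have h3 := hT D E F
      rw [h2, h3, hr.tri.s12]
    exact ext_uniq hν h1
  have e2 : ∀ D : Cart X, TR (cR ν D) = LinearMap.flip TR (cR ν D) := by
    intro D
    have h1 : ∀ E : Cart X, TR (cR ν D) (rv (ci ν E)) = LinearMap.flip TR (cR ν D) (rv (ci ν E)) := by
      intro E
      rw [LinearMap.flip_apply]
      exact e1 D E
    exact ext_uniq hν h1
  have e3 : (TR : (Fin r → ℝ) →ₗ[ℝ] ((Fin r → ℝ) →ₗ[ℝ] (Fin r → ℝ) →ₗ[ℝ] ℝ)) = LinearMap.flip TR :=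
    ext_uniq (F := (Fin r → ℝ) →ₗ[ℝ] (Fin r → ℝ) →ₗ[ℝ] ℝ) hν (L := TR) (L' := LinearMap.flip TR) e2
  have h4 : LinearMap.flip TR v u = TR v u := by rw [← e3]
  rw [LinearMap.flip_apply] at h4
  rw [h4]

/-- sections of the lattice points on the nef side of `e` -/
private lemma sec_pos [CharZero k] [IsAlgClosed k] [T0Space X.P] (h : Hyp X) (hr : RR T l c) (hν : NumR ν)
    (hT : ∀ U V W, TR (cR ν U) (cR ν V) (cR ν W) = T U V W)
    (htr : Algebra.trdeg k (X.kap z) = 2) (hS : SPr X z S) (he : MS hν h.var TR z S e)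
    (h2 : TR e e (cR ν S) = 0) (h3 : TR e (cR ν S) (cR ν S) < 0) (c₀ : ℝ) (hc₀ : 0 ≤ c₀) :
    ∃ t₁ : ℝ, 0 < t₁ ∧ ∀ W : Cart X, ‖cR ν W - t₁ • e‖ ≤ c₀ →
      TR e (cR ν S) (cR ν S) / 4 ≤ TR e (cR ν W) (cR ν S) → 0 < hz h.var z W := by
  obtain ⟨C, hC⟩ := lb h hr hν htr hS he.deg c₀
  obtain ⟨M, hM0, hM⟩ := bil_bd (Bfm TR (cR ν S))
  set s' := cR ν S with hs'
  obtain ⟨κ, hκ⟩ : ∃ κ : ℝ, κ = - TR e s' s' := ⟨_, rfl⟩
  have hκ0 : 0 < κ := by linarith
  obtain ⟨Q, hQ⟩ : ∃ Q : ℝ, Q = M * c₀ * c₀ / 2 + M * c₀ * ‖s'‖ / 2 + |T S S S / 6 + l S| + |C| := ⟨_, rfl⟩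
  have hQ0 : 0 ≤ Q := by rw [hQ]; positivity
  refine ⟨4 * (Q + 1) / κ, by positivity, fun W hW hW2 => ?_⟩
  set t := 4 * (Q + 1) / κ with ht
  have ht0 : 0 < t := by positivity
  have htκ : t * κ = 4 * (Q + 1) := by rw [ht]; field_simp
  obtain ⟨w, hw⟩ : ∃ w : Fin r → ℝ, w = cR ν W - t • e := ⟨_, rfl⟩
  have hWw : cR ν W = t • e + w := by rw [hw]; abel
  rw [← hw] at hW
  have hTh : TR e (cR ν W) s' = TR e w s' := by
    rw [hWw, map_add, map_smul, LinearMap.add_apply, LinearMap.smul_apply, h2, smul_zero, zero_add]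
  have hsym := tr_symm hr hν hT
  have hWW : T W W S = 2 * t * TR e w s' + TR w w s' := by
    rw [← hT, ← hs', hWw]
    simp only [map_add, map_smul, LinearMap.add_apply, LinearMap.smul_apply, smul_eq_mul, h2]
    rw [hsym w e s']
    ring
  have hWS : T W S S = t * TR e s' s' + TR w s' s' := by
    rw [← hT, ← hs', hWw]
    simp only [map_add, map_smul, LinearMap.add_apply, LinearMap.smul_apply, smul_eq_mul]
  have hb1 : |TR w w s'| ≤ M * c₀ * c₀ := by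
    have h4 := hM w w
    rw [Bfm_apply] at h4
    refine h4.trans ?_
    exact mul_le_mul (mul_le_mul_of_nonneg_left hW hM0) hW (norm_nonneg _) (by positivity)
  have hb2 : |TR w s' s'| ≤ M * c₀ * ‖s'‖ := by
    have h4 := hM w s'
    rw [Bfm_apply] at h4
    refine h4.trans ?_
    exact mul_le_mul_of_nonneg_right (mul_le_mul_of_nonneg_left hW hM0) (norm_nonneg _)
  have h5 := hC t W ht0.le (by rw [← hw]; exact hW)
  have h6 : chS T l S W = T W W S / 2 - T W S S / 2 + T S S S / 6 + l S := rfl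
  rw [h6, hWW, hWS] at h5
  rw [hTh] at hW2
  have h7 := (abs_le.mp hb1).1
  have h8 := (abs_le.mp hb2).2
  have h9 := (abs_le.mp (le_refl |T S S S / 6 + l S|)).1
  have h10 := le_abs_self C
  have h11 : t * (TR e s' s' / 4) ≤ t * TR e w s' := mul_le_mul_of_nonneg_left hW2 ht0.le
  have h12 : (0 : ℝ) < (hz h.var z W : ℝ) := by
    have h13 : TR e s' s' = - κ := by rw [hκ]; ring
    rw [h13] at h5 h11
    have h14 : t * (-κ / 4) = - (Q + 1) := by
      have : t * (-κ / 4) = - (t * κ) / 4 := by ring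
      rw [this, htκ]
      ring
    rw [h14] at h11
    have h15 : t * -κ = - (4 * (Q + 1)) := by
      have : t * -κ = - (t * κ) := by ring
      rw [this, htκ]
    rw [h15] at h5
    linarith
  exact_mod_cast h12

theorem loc_b [CharZero k] [IsAlgClosed k] [T0Space X.P] (h : Hyp X) (hr : RR T l c) (hν : NumR ν)
    (hT : ∀ U V W, TR (cR ν U) (cR ν V) (cR ν W) = T U V W)
    (htr : Algebra.trdeg k (X.kap z) = 2) (hS : SPr X z S) {A : Cart X} (hA : Ample A) (he : MS hν h.var TR z S e)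
    (h1 : 0 < TR e (cR ν A) (cR ν S)) (h2 : TR e e (cR ν S) = 0) (h3 : TR e (cR ν S) (cR ν S) < 0) :
    LocAt hν h.var TR z S A e := by
  classical
  have hamp : ∃ A : Cart X, Ample A := ⟨A, hA⟩
  have hsym := tr_symm hr hν hT
  have hsec := sec_pos h hr hν hT htr hS he h2 h3
  choose Dv hDv using fun q : Fin r → ℤ => ci_surj hν q
  have hDc : ∀ q, cR ν (Dv q) = rv q := fun q => by
    show rv (ci ν (Dv q)) = rv q
    rw [hDv q]
  obtain ⟨κ, hκ⟩ : ∃ κ : ℝ, κ = - TR e (cR ν S) (cR ν S) / 4 := ⟨_, rfl⟩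
  have hκ0 : 0 < κ := by linarith
  obtain ⟨Th, hTh⟩ : ∃ Th : (Fin r → ℝ) →ₗ[ℝ] ℝ, ∀ v, Th v = TR e v (cR ν S) := ⟨Bfm TR (cR ν S) e, fun v => rfl⟩
  have hThe : Th e = 0 := by rw [hTh]; exact h2
  obtain ⟨M, hM0, hM⟩ := lin_bd Th
  -- lattice points near the ray with sections
  have hsecq : ∀ c₀ : ℝ, 0 ≤ c₀ → ∃ t₁ : ℝ, 0 < t₁ ∧ ∀ q : Fin r → ℤ, ‖rv q - t₁ • e‖ ≤ c₀ →
      -κ ≤ Th (rv q) → 0 < hz h.var z (Dv q) := by
    intro c₀ hc₀
    obtain ⟨t₁, ht₁, h4⟩ := hsec c₀ hc₀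
    refine ⟨t₁, ht₁, fun q hq hq2 => h4 (Dv q) (by rw [hDc]; exact hq) ?_⟩
    have h5 := hTh (rv q)
    rw [hDc, ← h5]
    rw [hκ] at hq2
    linarith
  have hThnn : ∀ q : Fin r → ℤ, 0 < hz h.var z (Dv q) → 0 ≤ Th (rv q) := by
    intro q hq
    have h4 := he.eff (Dv q) hq
    rw [hDc] at h4
    rw [hTh]
    exact h4
  -- discreteness
  have hdis : ∀ d : Fin r → ℤ, ¬ (-κ < Th (rv d) ∧ Th (rv d) < 0) := by
    rintro d ⟨h4, h5⟩
    obtain ⟨τ0, hτ0⟩ : ∃ τ0 : ℝ, τ0 = - Th (rv d) := ⟨_, rfl⟩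
    have hτ1 : 0 < τ0 := by linarith
    obtain ⟨t₁, ht₁, h6⟩ := hsecq (1 + (M / τ0 + 1) * ‖rv d‖) (by positivity)
    obtain ⟨q, hq⟩ := rnd (t₁ • e)
    have h7 : |Th (rv q)| ≤ M := by
      have h8 := hM (rv q - t₁ • e)
      rw [map_sub, map_smul, hThe, smul_zero, sub_zero] at h8
      refine h8.trans ?_
      calc M * ‖rv q - t₁ • e‖ ≤ M * 1 := mul_le_mul_of_nonneg_left hq hM0
        _ = M := mul_one M
    obtain ⟨n, hn⟩ : ∃ n : ℤ, n = ⌊Th (rv q) / τ0⌋ + 1 := ⟨_, rfl⟩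
    have hn1 : Th (rv q) / τ0 < n := by
      rw [hn]
      push_cast
      exact Int.lt_floor_add_one _
    have hn2 : (n : ℝ) ≤ Th (rv q) / τ0 + 1 := by
      rw [hn]
      push_cast
      linarith [Int.floor_le (Th (rv q) / τ0)]
    rw [div_lt_iff₀ hτ1] at hn1
    have hn3 : (n : ℝ) * τ0 ≤ Th (rv q) + τ0 := by
      have := mul_le_mul_of_nonneg_right hn2 hτ1.le
      rw [add_mul, div_mul_cancel₀ _ hτ1.ne', one_mul] at this
      exact this
    have hnabs : |(n : ℝ)| ≤ M / τ0 + 1 := by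
      have h8 : |(n : ℝ)| * τ0 ≤ M + τ0 := by
        have h9 : |(n : ℝ)| * τ0 = |(n : ℝ) * τ0| := by
          rw [abs_mul, abs_of_pos hτ1]
        rw [h9, abs_le]
        have h10 := abs_le.mp h7
        constructor <;> linarith [h10.1, h10.2]
      have h12 : (M + τ0) / τ0 = M / τ0 + 1 := by field_simp
      rw [← h12, le_div_iff₀ hτ1]
      exact h8
    have h8 : rv (q + n • d) = rv q + (n : ℝ) • rv d := by rw [rv_add, rv_smul]
    have h9 : Th (rv (q + n • d)) = Th (rv q) - n * τ0 := by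
      rw [h8, map_add, map_smul, smul_eq_mul, hτ0]
      ring
    have h10 := h6 (q + n • d) (by
      rw [h8]
      have h11 : rv q + (n : ℝ) • rv d - t₁ • e = (rv q - t₁ • e) + (n : ℝ) • rv d := by abel
      rw [h11]
      refine (norm_add_le _ _).trans (add_le_add hq ?_)
      rw [norm_smul, Real.norm_eq_abs]
      exact mul_le_mul_of_nonneg_right hnabs (norm_nonneg _)) (by
      rw [h9]
      linarith)
    have h11 := hThnn _ h10
    rw [h9] at h11
    linarith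
  have hTha : 0 < Th (cR ν A) := by rw [hTh]; exact h1
  obtain ⟨τ, δ, a0, hτ, hThδ, hδa0⟩ := disc Th hκ0 hdis ⟨ci ν A, hTha.ne'⟩
  have hδe : rv δ ⬝ᵥ e = 0 := by
    have h4 := hThδ e
    rw [hThe] at h4
    rcases mul_eq_zero.mp h4.symm with h5 | h5
    · exact absurd h5 hτ.ne'
    · exact h5
  have hδA : 0 < rv δ ⬝ᵥ cR ν A := by
    have h4 := hThδ (cR ν A)
    rw [h4] at hTha
    exact (mul_pos_iff_of_pos_left hτ).mp hTha
  -- the norm of `δ`
  obtain ⟨N, hN⟩ : ∃ N : ℝ, N = ∑ i, |(δ i : ℝ)| := ⟨_, rfl⟩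
  have hN0 : 0 ≤ N := by rw [hN]; positivity
  have hδb : ∀ v : Fin r → ℝ, |rv δ ⬝ᵥ v| ≤ N * ‖v‖ := by
    intro v
    rw [dotProduct, hN, Finset.sum_mul]
    refine (Finset.abs_sum_le_sum_abs _ _).trans (Finset.sum_le_sum fun i _ => ?_)
    rw [abs_mul]
    exact mul_le_mul_of_nonneg_left (norm_le_pi_norm v i) (abs_nonneg _)
  -- the constants
  obtain ⟨c1, hc1⟩ : ∃ c1 : ℝ, c1 = 1 + N * ‖rv a0‖ := ⟨_, rfl⟩
  have hc10 : 0 ≤ c1 := by rw [hc1]; positivity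
  obtain ⟨m, hm⟩ := exists_nat_gt (4 * ((∑ i, |(a0 i : ℝ)|) * (r : ℝ) * (c1 + 1)))
  have hm0 : (0 : ℝ) < m := lt_of_le_of_lt (by positivity) hm
  obtain ⟨Nu, hNu⟩ : ∃ Nu : ℝ, Nu = ∑ i, ∑ j, ‖rv (uu δ i j)‖ := ⟨_, rfl⟩
  have hNu1 : ∀ i j, ‖rv (uu δ i j)‖ ≤ Nu := by
    intro i j
    rw [hNu]
    have h4 : ‖rv (uu δ i j)‖ ≤ ∑ j, ‖rv (uu δ i j)‖ :=
      Finset.single_le_sum (f := fun j => ‖rv (uu δ i j)‖) (fun _ _ => norm_nonneg _) (Finset.mem_univ j)
    refine h4.trans ?_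
    exact Finset.single_le_sum (f := fun i => ∑ j, ‖rv (uu δ i j)‖)
      (fun _ _ => Finset.sum_nonneg fun _ _ => norm_nonneg _) (Finset.mem_univ i)
  have hNu0 : 0 ≤ Nu := by
    rw [hNu]
    exact Finset.sum_nonneg fun _ _ => Finset.sum_nonneg fun _ _ => norm_nonneg _
  obtain ⟨t, ht0, hsect⟩ := hsecq (c1 + m * Nu + ‖rv a0‖) (by positivity)
  -- the lattice point `W0`
  obtain ⟨d, hd⟩ := rnd (t • e)
  have hddot : ∀ a b : Fin r → ℤ, rv a ⬝ᵥ rv b = ((a ⬝ᵥ b : ℤ) : ℝ) := by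
    intro a b
    simp only [dotProduct, rv]
    push_cast
    rfl
  obtain ⟨W0, hW0⟩ : ∃ W0 : Fin r → ℤ, W0 = d - (δ ⬝ᵥ d) • a0 := ⟨_, rfl⟩
  have hW0r : rv W0 = rv d - (rv δ ⬝ᵥ rv d) • rv a0 := by
    rw [hW0, rv_sub, rv_smul, hddot]
  have hδW0 : rv δ ⬝ᵥ rv W0 = 0 := by
    rw [hW0r, dotProduct_sub, dotProduct_smul, hδa0, smul_eq_mul, mul_one, sub_self]
  have hW0n : ‖rv W0 - t • e‖ ≤ c1 := by
    have h4 : rv W0 - t • e = (rv d - t • e) - (rv δ ⬝ᵥ (rv d - t • e)) • rv a0 := by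
      rw [hW0r, dotProduct_sub, dotProduct_smul, hδe, smul_zero, sub_zero]
      abel
    rw [h4, hc1]
    refine (norm_sub_le _ _).trans (add_le_add hd ?_)
    rw [norm_smul, Real.norm_eq_abs]
    refine mul_le_mul_of_nonneg_right ?_ (norm_nonneg _)
    refine (hδb _).trans ?_
    calc N * ‖rv d - t • e‖ ≤ N * 1 := mul_le_mul_of_nonneg_left hd hN0
      _ = N := mul_one N
  -- the finitely many points
  set Pts : Finset (Fin r → ℤ) := {W0, W0 + a0} ∪
    (Finset.univ.image fun ij : Fin r × Fin r => W0 + (m : ℤ) • uu δ ij.1 ij.2) ∪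
    (Finset.univ.image fun ij : Fin r × Fin r => W0 - (m : ℤ) • uu δ ij.1 ij.2) with hPts
  have hδuu : ∀ i j, rv δ ⬝ᵥ rv (uu δ i j) = 0 := by
    intro i j
    have h5 : ∀ l : Fin r, rv δ ⬝ᵥ (Pi.single l 1 : Fin r → ℝ) = δ l := by
      intro l
      rw [dotProduct_single_one]
      rfl
    unfold uu
    rw [rv_sub, rv_smul, rv_smul, rv_single, rv_single, dotProduct_sub, dotProduct_smul,
      dotProduct_smul, h5, h5, smul_eq_mul, smul_eq_mul]
    ring
  have hThz : ∀ v : Fin r → ℝ, rv δ ⬝ᵥ v = 0 → Th v = 0 := by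
    intro v hv
    rw [hThδ, hv, mul_zero]
  have hrvm : ∀ i j, rv ((m : ℤ) • uu δ i j) = (m : ℝ) • rv (uu δ i j) := by
    intro i j
    rw [rv_smul]
    push_cast
    rfl
  have hPos : ∀ q ∈ Pts, 0 < hz h.var z (Dv q) := by
    intro q hq
    rw [hPts, Finset.mem_union, Finset.mem_union, Finset.mem_insert, Finset.mem_singleton,
      Finset.mem_image, Finset.mem_image] at hq
    rcases hq with ((rfl | rfl) | ⟨⟨i, j⟩, -, rfl⟩) | ⟨⟨i, j⟩, -, rfl⟩
    · refine hsect _ (hW0n.trans ?_) ?_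
      · have : 0 ≤ (m : ℝ) * Nu := by positivity
        linarith [norm_nonneg (rv a0)]
      · rw [hThz _ hδW0]
        linarith
    · refine hsect _ ?_ ?_
      · rw [rv_add]
        have h4 : rv W0 + rv a0 - t • e = (rv W0 - t • e) + rv a0 := by abel
        rw [h4]
        refine (norm_add_le _ _).trans ?_
        have : 0 ≤ (m : ℝ) * Nu := by positivity
        linarith
      · rw [rv_add, map_add, hThz _ hδW0, hThδ, hδa0]
        linarith
    · refine hsect _ ?_ ?_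
      · rw [rv_add, hrvm]
        have h4 : rv W0 + (m : ℝ) • rv (uu δ i j) - t • e = (rv W0 - t • e) + (m : ℝ) • rv (uu δ i j) := by abel
        rw [h4]
        refine (norm_add_le _ _).trans ?_
        rw [norm_smul, Real.norm_eq_abs, abs_of_pos hm0]
        have := mul_le_mul_of_nonneg_left (hNu1 i j) hm0.le
        linarith [norm_nonneg (rv a0)]
      · rw [rv_add, hrvm, map_add, map_smul, hThz _ hδW0, hThz _ (hδuu i j), smul_zero, add_zero]
        linarith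
    · refine hsect _ ?_ ?_
      · rw [rv_sub, hrvm]
        have h4 : rv W0 - (m : ℝ) • rv (uu δ i j) - t • e = (rv W0 - t • e) - (m : ℝ) • rv (uu δ i j) := by abel
        rw [h4]
        refine (norm_sub_le _ _).trans ?_
        rw [norm_smul, Real.norm_eq_abs, abs_of_pos hm0]
        have := mul_le_mul_of_nonneg_left (hNu1 i j) hm0.le
        linarith [norm_nonneg (rv a0)]
      · rw [rv_sub, hrvm, map_sub, map_smul, hThz _ hδW0, hThz _ (hδuu i j), smul_zero, sub_zero]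
        linarith
  have hm1 : W0 ∈ Pts := by simp [hPts]
  have hm2 : W0 + a0 ∈ Pts := by simp [hPts]
  have hm3 : ∀ i j, W0 + (m : ℤ) • uu δ i j ∈ Pts := by
    intro i j
    rw [hPts, Finset.mem_union, Finset.mem_union]
    exact Or.inl (Or.inr (Finset.mem_image.mpr ⟨(i, j), Finset.mem_univ _, rfl⟩))
  have hm4 : ∀ i j, W0 - (m : ℤ) • uu δ i j ∈ Pts := by
    intro i j
    rw [hPts, Finset.mem_union]
    exact Or.inr (Finset.mem_image.mpr ⟨(i, j), Finset.mem_univ _, rfl⟩)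
  -- the key lemma for functionals which are nonnegative on the points
  obtain ⟨η1, hη1, hη1'⟩ : ∃ η1 : ℝ, 0 < η1 ∧ ∀ p : Fin r → ℝ, ‖p - e‖ < η1 → 0 < TR p (cR ν A) (cR ν S) := by
    have hcont : Continuous fun p : Fin r → ℝ => TR p (cR ν A) (cR ν S) := by
      have h4 : (fun p : Fin r → ℝ => TR p (cR ν A) (cR ν S)) =
          fun p => (Bfm TR (cR ν S)).flip (cR ν A) p := by
        funext p
        rfl
      rw [h4]
      exact LinearMap.continuous_of_finiteDimensional _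
    have h4 : IsOpen {p : Fin r → ℝ | 0 < TR p (cR ν A) (cR ν S)} := isOpen_lt continuous_const hcont
    obtain ⟨η1, h5, h6⟩ := Metric.isOpen_iff.1 h4 e h1
    exact ⟨η1, h5, fun p hp => h6 (by rw [Metric.mem_ball, dist_eq_norm]; exact hp)⟩
  obtain ⟨η2, hη2⟩ : ∃ η2 : ℝ, η2 = 1 / (2 * (t * (1 + N) * (1 + ‖rv a0‖))) := ⟨_, rfl⟩
  have hη20 : 0 < η2 := by rw [hη2]; positivity
  have hη2' : t * (1 + N) * (1 + ‖rv a0‖) * η2 = 1 / 2 := by
    rw [hη2]
    field_simp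
  have key : ∀ φ : (Fin r → ℝ) →ₗ[ℝ] ℝ, (∀ q ∈ Pts, 0 ≤ φ (rv q)) → 0 < φ (cR ν A) →
      ∀ p : Fin r → ℝ, ‖p - e‖ < η2 → 0 < rv δ ⬝ᵥ p → 0 < φ p := by
    intro φ hφ hφA p hp hδp
    have hθ : rv δ ⬝ᵥ p = rv δ ⬝ᵥ (p - e) := by rw [dotProduct_sub, hδe, sub_zero]
    have hθb : rv δ ⬝ᵥ p ≤ N * η2 := by
      rw [hθ]
      refine (le_abs_self _).trans ((hδb _).trans ?_)
      exact mul_le_mul_of_nonneg_left hp.le hN0
    have hx1 : t * (N * η2) ≤ 1 / 2 := by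
      rw [← hη2']
      have h4 : t * (N * η2) = t * N * 1 * η2 := by ring
      rw [h4]
      refine mul_le_mul_of_nonneg_right ?_ hη20.le
      refine mul_le_mul ?_ (by linarith [norm_nonneg (rv a0)]) zero_le_one (by positivity)
      exact mul_le_mul_of_nonneg_left (by linarith) ht0.le
    refine lin_pos φ hδa0 hδW0 (c := c1 + 1) (m := (m : ℝ)) (by linarith) hm0 hm.le (hφ _ hm1) ?_ ?_ ?_
      hφA hδA ht0 hδp ?_ ?_
    · intro i j
      have h4 := hφ _ (hm3 i j)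
      rw [rv_add, hrvm, map_add, map_smul, smul_eq_mul] at h4
      exact h4
    · intro i j
      have h4 := hφ _ (hm4 i j)
      rw [rv_sub, hrvm, map_sub, map_smul, smul_eq_mul] at h4
      exact h4
    · have h4 := hφ _ hm2
      rw [rv_add, map_add] at h4
      exact h4
    · have h4 := mul_le_mul_of_nonneg_left hθb ht0.le
      linarith
    · have h4 : t • p - (t * (rv δ ⬝ᵥ p)) • rv a0 - rv W0 =
          t • (p - e) - (t * (rv δ ⬝ᵥ p)) • rv a0 - (rv W0 - t • e) := by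
        rw [smul_sub]
        abel
      rw [h4]
      refine (norm_sub_le _ _).trans ?_
      have h5 := norm_sub_le (t • (p - e)) ((t * (rv δ ⬝ᵥ p)) • rv a0)
      rw [norm_smul, norm_smul, Real.norm_eq_abs, Real.norm_eq_abs, abs_of_pos ht0,
        abs_of_pos (mul_pos ht0 hδp)] at h5
      have h6 : t * ‖p - e‖ + t * (rv δ ⬝ᵥ p) * ‖rv a0‖ ≤ 1 := by
        have h7 : t * ‖p - e‖ ≤ t * η2 := mul_le_mul_of_nonneg_left hp.le ht0.le
        have h8 : t * (rv δ ⬝ᵥ p) * ‖rv a0‖ ≤ t * (N * η2) * ‖rv a0‖ :=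
          mul_le_mul_of_nonneg_right (mul_le_mul_of_nonneg_left hθb ht0.le) (norm_nonneg _)
        have h9 : t * η2 + t * (N * η2) * ‖rv a0‖ ≤ t * (1 + N) * (1 + ‖rv a0‖) * η2 := by
          have h10 : t * (1 + N) * (1 + ‖rv a0‖) * η2 =
              t * η2 + t * (N * η2) * ‖rv a0‖ + (t * η2 * ‖rv a0‖ + t * N * η2) := by ring
          rw [h10]
          have : 0 ≤ t * η2 * ‖rv a0‖ + t * N * η2 := by positivity
          linarith
        rw [hη2'] at h9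
        linarith
      linarith
  -- the zero sets
  have hZ : ∀ q : Fin r → ℤ, ∃ Z : Set X.P, q ∈ Pts → HasS h.var z (Dv q) Z := by
    intro q
    by_cases hq : q ∈ Pts
    · obtain ⟨s, hs, hE⟩ := Pool.Agent.H20.TK.eff_of_pos (resD h.var z (Dv q)) (hPos q hq)
      refine ⟨Zst h.var z (Dv q) s, fun _ => ⟨s, hs, fun y => ?_, rfl⟩⟩
      have := hE y
      rw [pow_one]
      exact this
    · exact ⟨∅, fun h' => absurd h' hq⟩
  choose Z hZ using hZ
  have h11 : (((1 : ℕ) : Cardinal)) = 1 := by norm_num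
  have hBadfin : (⋃ q ∈ Pts, {x : X.P | x ∈ Z q ∧ Algebra.trdeg k (X.kap x) = ((1 : ℕ) : Cardinal)}).Finite := by
    refine Set.Finite.biUnion Pts.finite_toSet fun q hq => ?_
    refine zst_fin h.var (n := 1) ?_ (hZ q hq)
    rw [htr]
    norm_num
  obtain ⟨Bad, hBad⟩ : ∃ Bad : Set X.P, Bad =
    ⋃ q ∈ Pts, {x : X.P | x ∈ Z q ∧ Algebra.trdeg k (X.kap x) = ((1 : ℕ) : Cardinal)} := ⟨_, rfl⟩
  rw [← hBad] at hBadfin
  have hBadCv : ∀ x ∈ Bad, Cv z x := by
    intro x hx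
    rw [hBad, Set.mem_iUnion₂] at hx
    obtain ⟨q, hq, hxZ, hx1⟩ := hx
    obtain ⟨s, _, _, hs⟩ := hZ q hq
    rw [← hs] at hxZ
    obtain ⟨hzx, _⟩ := hxZ
    exact ⟨hzx, by rw [hx1, h11]⟩
  choose Φ hΦ using fun x : X.P => dR_int hν h.var x
  have hMSp : ∀ p, MS hν h.var TR z S p → ‖p - e‖ < min η1 η2 →
      (0 < rv δ ⬝ᵥ p → 0 < TR p p (cR ν S)) := by
    intro p hp hpe hδp
    refine key (Bfm TR (cR ν S) p) ?_ (hη1' p (lt_of_lt_of_le hpe (min_le_left _ _))) p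
      (lt_of_lt_of_le hpe (min_le_right _ _)) hδp
    intro q hq
    have h4 := hp.eff (Dv q) (hPos q hq)
    rw [hDc] at h4
    exact h4
  refine ⟨min η1 η2, {δ} ∪ Φ '' Bad, lt_min hη1 hη20, ⟨?_, ?_, ?_⟩, ?_⟩
  · exact (Set.finite_singleton δ).union (hBadfin.image Φ)
  · rintro φ (hφ | ⟨x, hx, rfl⟩)
    · rw [Set.mem_singleton_iff] at hφ
      rw [hφ]
      exact hδA
    · rw [← hΦ x, dR_ci hν h.var hamp (hBadCv x hx).2]
      exact_mod_cast dz_pos h.var hamp (hBadCv x hx).2 (res_ample _ _ _ hA)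
  · rintro φ (hφ | ⟨x, hx, rfl⟩) v hv
    · rw [Set.mem_singleton_iff] at hφ
      rw [hφ]
      have h4 : Th v = 0 := by
        rw [hTh, hsym]
        have h5 : (Bfm TR (cR ν S)) v = 0 := by
          refine ext_uniq hν fun D => ?_
          rw [LinearMap.zero_apply]
          exact hv.1 D
        have h6 : (Bfm TR (cR ν S)) v e = 0 := by rw [h5, LinearMap.zero_apply]
        exact h6
      rw [hThδ] at h4
      rcases mul_eq_zero.mp h4 with h5 | h5
      · exact absurd h5 hτ.ne'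
      · exact h5
    · rw [← hΦ x]
      exact hv.2 x (hBadCv x hx)
  · intro p hp hpe
    have hδnn : 0 ≤ rv δ ⬝ᵥ p := by
      have h4 := ms_TT h hr hν hT htr hS he hp
      rw [← hTh, hThδ] at h4
      exact nonneg_of_mul_nonneg_right h4 hτ
    rcases hδnn.eq_or_lt with h0 | hδp
    · exact Or.inr ⟨δ, Or.inl rfl, h0.symm⟩
    · by_cases hx : ∃ x ∈ Bad, dR hν h.var x p = 0
      · obtain ⟨x, hx1, hx2⟩ := hx
        refine Or.inr ⟨Φ x, Or.inr ⟨x, hx1, rfl⟩, ?_⟩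
        rw [← hΦ x]
        exact hx2
      · push Not at hx
        refine Or.inl ⟨hMSp p hp hpe hδp, fun x hxc => ?_⟩
        by_cases hxB : x ∈ Bad
        · exact lt_of_le_of_ne (hp.deg x hxc) (hx x hxB).symm
        · refine key (dR hν h.var x) ?_ ?_ p (lt_of_lt_of_le hpe (min_le_right _ _)) hδp
          · intro q hq
            rw [← hDc q, dR_ci hν h.var hamp hxc.2]
            have hxZ : x ∉ Z q := by
              intro h4
              refine hxB ?_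
              rw [hBad, Set.mem_iUnion₂]
              exact ⟨q, hq, h4, by rw [hxc.2, h11]⟩
            exact_mod_cast dz_of_sec h.var hamp hxc (hZ q hq) hxZ
          · rw [dR_ci hν h.var hamp hxc.2]
            exact_mod_cast dz_pos h.var hamp hxc.2 (res_ample _ _ _ hA)

end Pool.Agent.H20.TP
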