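import Pool.Agent.H20.TP.Lb

/-!
# [H20 TP Ms] COROLLARY P (MP_e49dc9_ag): the cone `M_S`

* `ms_nef`: nef classes are in `M_S`.  PROOF. The conditions are closed (`TR`, `dR` are continuous: finite dimension), so it is enough for
  positive multiples of ample classes `B` (`CC ν ⊆ closure (AmpR ν)`, `cc_cl`; or: rational points of `CC` are dense, `exists_near`).
  `deg`: `dz_pos`, `res_ample`.  `eff`: `srf_nn` (H20/TQ/Srf).  `sq`: `pos_prm` (H24/VP/PosA).  `cv`: for `n` large `resS` from `z` to `x` for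
  `B ^ n` is onto (`ser_ample` on `subM hX z`), and its kernel contains `s * secL (B^n * W⁻¹)`, where `s` is the section of `W` with `x ∈ Z`; so
  `hz z (B^n) ≥ hz z (B^n * W⁻¹) + hz x (B^n)`; by `srf_ev` and `hz_cur` the difference of the `chS` is `n T(B,W,S) + const` and
  `hz x (B^n) = n dz x B + χ`: `T(B,W,S) ≥ dz x B`.
* `ms_TT`: `e, p ∈ M_S` gives `0 ≤ T(e,p,S)`.  PROOF. For `ε > 0` let `p' := p + ε A`: `T(p',p',S) > 0`, degrees `≥ 0`; by `lb` the lattice points
  `W` within `1` of `t p'` have `chS W = t^2 T(p',p',S)/2 + O(t)`, so sections on `z` for `t` large; `eff` for `e`: `0 ≤ T(e,W,S)`; divide by `t`,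
  `t → ∞`, then `ε → 0`.
* `ms_zero`: `e ∈ M_S`, `T(e,A,S) = 0` gives `e ∈ KS`.  PROOF. `n A ± W` has sections on `z` for `n` large: `T(e,W,S) = 0` by `eff`.  For a curve
  `x` of `z` some `A ^ m` has a nonzero section on `z` which vanishes at `x` (`hz z (A^m)` grows quadratically, `hz x (A^m)` linearly): by `cv`
  `dR x e ≤ m T(e,A,S) = 0`.
* `ms_cc`: `e ∈ M_S`, `T(e,A,S) > 0`, `a ∈ CC ν` gives `T(e,a,S) > 0`.  PROOF. `a - ε A ∈ CC` for some `ε > 0`; `T(e,.,S) ≥ 0` on `CC` (closure of the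
  combinations of ample classes; an ample class has a multiple with sections on `z`).
* `ms_add`: `M_S + KS = M_S`.  `ms_smul`.  `ms_closed`.
-/

set_option autoImplicit false

namespace Pool.Agent.H20.TP

open Pool.Agent.H54.RV Pool.Agent.H83.TU Pool.Agent.H83.TK Pool.Agent.H20.TD
open Pool.Agent.H24.VP (RR chS)

variable {k K : Type} [Field k] [Field K] [Algebra k K] {X : Mod k K} {r : ℕ}
  {ν : Cart X →* Multiplicative (Fin r → ℤ)} {T : Cart X → Cart X → Cart X → ℝ} {l : Cart X → ℝ} {c : ℝ} {TR : Tri3 r}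
  {z : X.P} {S : Cart X} {e p : Fin r → ℝ}

/-! ## linear algebra -/

/-- the slice in the first variable -/
private noncomputable def s1 (TR : Tri3 r) (v w : Fin r → ℝ) : (Fin r → ℝ) →ₗ[ℝ] ℝ := (LinearMap.flip TR v).flip w

private theorem s1_apply (TR : Tri3 r) (u v w : Fin r → ℝ) : s1 TR v w u = TR u v w := rfl

/-- the slice in the second variable -/
private noncomputable def s2 (TR : Tri3 r) (u w : Fin r → ℝ) : (Fin r → ℝ) →ₗ[ℝ] ℝ := (TR u).flip w

private theorem s2_apply (TR : Tri3 r) (u v w : Fin r → ℝ) : s2 TR u w v = TR u v w := rfl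

private theorem cont_lin (f : (Fin r → ℝ) →ₗ[ℝ] ℝ) : Continuous f := LinearMap.continuous_of_finiteDimensional f

private theorem cont_quad (TR : Tri3 r) (w : Fin r → ℝ) : Continuous fun e => TR e e w := by
  have h1 : (fun e => TR e e w) = fun e => ∑ i, e i * TR (fun j => if i = j then 1 else 0) e w := by
    funext e
    have h2 := LinearMap.pi_apply_eq_sum_univ (s1 TR e w) e
    rw [s1_apply] at h2
    rw [h2]
    rfl
  rw [h1]
  refine continuous_finsetSum _ fun i _ => ?_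
  exact (continuous_apply i).mul (cont_lin (s2 TR (fun j => if i = j then 1 else 0) w))

private theorem bd_ball {f : (Fin r → ℝ) → ℝ} (hf : Continuous f) : ∃ C : ℝ, 0 ≤ C ∧ ∀ u, ‖u‖ ≤ 1 → |f u| ≤ C := by
  obtain ⟨C, hC⟩ := (isCompact_closedBall (0 : Fin r → ℝ) 1).exists_bound_of_continuousOn hf.continuousOn
  have h1 : ∀ u, ‖u‖ ≤ 1 → |f u| ≤ C := fun u hu => hC u (by rwa [mem_closedBall_zero_iff])
  exact ⟨C, (abs_nonneg _).trans (h1 0 (by rw [norm_zero]; exact zero_le_one)), h1⟩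

private theorem sym12 (hr : RR T l c) (hν : NumR ν) (hT : ∀ U V W, TR (cR ν U) (cR ν V) (cR ν W) = T U V W)
    (u v w : Fin r → ℝ) : TR u v w = TR v u w := by
  have h1 : TR = LinearMap.flip TR := by
    refine ext_uniq hν fun U => ext_uniq hν fun V => ext_uniq hν fun W => ?_
    rw [LinearMap.flip_apply]
    exact (hT U V W).trans ((hr.tri.s12 _ _ _).trans (hT V U W).symm)
  have h2 := congrArg (fun F : Tri3 r => F u v w) h1
  exact h2

private theorem cR_mul (U V : Cart X) : cR ν (U * V) = cR ν U + cR ν V := by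
  show rv (ci ν (U * V)) = _
  rw [ci_mul, rv_add]

private theorem cR_pow (U : Cart X) (n : ℕ) : cR ν (U ^ n) = (n : ℝ) • cR ν U := by
  show rv (ci ν (U ^ n)) = _
  rw [ci_pow, rv_smul]
  rfl

private theorem cR_inv (U : Cart X) : cR ν U⁻¹ = - cR ν U := by
  show rv (ci ν U⁻¹) = _
  rw [ci_inv, rv_neg]

/-- a linear function of `n` which is nonnegative for large `n` -/
private theorem lin_nn {a b : ℝ} {n₀ : ℕ} (h : ∀ n : ℕ, n₀ ≤ n → 0 ≤ a + n * b) : 0 ≤ b := by
  by_contra hb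
  push Not at hb
  obtain ⟨n, hn⟩ := exists_nat_gt (a / -b)
  rw [div_lt_iff₀ (by linarith)] at hn
  have h1 := h (max n n₀) (le_max_right _ _)
  have h2 : (n : ℝ) ≤ (max n n₀ : ℕ) := by exact_mod_cast le_max_left n n₀
  have h3 := mul_le_mul_of_nonneg_right h2 (show 0 ≤ -b by linarith)
  linarith

/-- a quadratic function of `n` with positive leading coefficient -/
private theorem quad_pos (a b : ℝ) {q : ℝ} (hq : 0 < q) : ∃ n₀ : ℕ, ∀ n : ℕ, n₀ ≤ n → 0 < a + n * b + n ^ 2 * q := by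
  obtain ⟨m, hm⟩ := exists_nat_gt ((|a| + |b|) / q)
  rw [div_lt_iff₀ hq] at hm
  refine ⟨m + 1, fun n hn => ?_⟩
  have hn1 : (m : ℝ) + 1 ≤ n := by exact_mod_cast hn
  have hm0 : (0 : ℝ) ≤ m := Nat.cast_nonneg m
  have h1 : -(|a| * n) ≤ a := by
    have h2 := neg_abs_le a
    have h3 : |a| * 1 ≤ |a| * n := mul_le_mul_of_nonneg_left (by linarith) (abs_nonneg a)
    linarith
  have h2 : -(|b| * n) ≤ n * b := by
    have h3 := mul_le_mul_of_nonneg_left (neg_abs_le b) (show (0 : ℝ) ≤ n by linarith)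
    linarith
  have h3 : (|a| + |b|) * n < n ^ 2 * q := by
    have h4 : (|a| + |b|) * n < m * q * n := mul_lt_mul_of_pos_right hm (by linarith)
    have h5 : m * q * n ≤ n * q * n := by
      have : (m : ℝ) * q ≤ n * q := mul_le_mul_of_nonneg_right (by linarith) hq.le
      exact mul_le_mul_of_nonneg_right this (by linarith)
    have h6 : (n : ℝ) * q * n = n ^ 2 * q := by ring
    linarith
  linarith

/-! ## geometry -/

private theorem pos_z [CharZero k] [T0Space X.P] (h : Hyp X) (hr : RR T l c)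
    (htr : Algebra.trdeg k (X.kap z) = 2) (hS : SPr X z S) {A B : Cart X} (hA : Ample A) (hB : Ample B) :
    0 < T A B S := by
  obtain ⟨P, h1, h2⟩ := pdiv_of_trdeg h htr
  exact Pool.Agent.H24.VP.pos_prm h hr hA hB P (spr_congr h.var h2 h1 hS)

/-- the polynomial of the surface along a line -/
private theorem chS_line (hr : RR T l c) (W A : Cart X) (n : ℕ) :
    chS T l S (W * A ^ n) = chS T l S W + n * (T W A S - T A S S / 2) + n ^ 2 * (T A A S / 2) := by
  unfold chS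
  simp only [hr.tri.add, hr.tri.add2, hr.tri.pow, hr.tri.pow2]
  rw [hr.tri.s12 A W S]
  ring

/-- sections on the surface -/
private theorem sec_z [CharZero k] [T0Space X.P] (h : Hyp X) (hr : RR T l c)
    (htr : Algebra.trdeg k (X.kap z) = 2) (hS : SPr X z S) {A : Cart X} (hA : Ample A) (W : Cart X) (a b : ℝ) :
    ∃ n₀ : ℕ, ∀ n : ℕ, n₀ ≤ n → a + n * b < (hz h.var z (W * A ^ n) : ℝ) := by
  obtain ⟨n1, h1⟩ := Pool.Agent.H20.TQ.srf_ev h hr hS W A hA
  obtain ⟨n2, h2⟩ := quad_pos (chS T l S W - a) (T W A S - T A S S / 2 - b)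
    (show 0 < T A A S / 2 from half_pos (pos_z h hr htr hS hA hA))
  refine ⟨max n1 n2, fun n hn => ?_⟩
  have a1 := h1 n ((le_max_left _ _).trans hn)
  have a2 := h2 n ((le_max_right _ _).trans hn)
  have a3 : (hz h.var z (W * A ^ n) : ℝ) = chS T l S (W * A ^ n) := a1
  rw [a3, chS_line hr]
  linarith

private theorem sec_z' [CharZero k] [T0Space X.P] (h : Hyp X) (hr : RR T l c)
    (htr : Algebra.trdeg k (X.kap z) = 2) (hS : SPr X z S) {A : Cart X} (hA : Ample A) (W : Cart X) :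
    ∃ n : ℕ, 1 ≤ n ∧ 0 < hz h.var z (W * A ^ n) := by
  obtain ⟨n₀, hn⟩ := sec_z h hr htr hS hA W 0 0
  refine ⟨n₀ + 1, Nat.le_add_left _ _, ?_⟩
  have h1 := hn (n₀ + 1) (Nat.le_succ _)
  rw [mul_zero, add_zero] at h1
  exact_mod_cast h1

/-- an ample class is nonnegative against the elements of `M_S` -/
private theorem amp_nn [CharZero k] [T0Space X.P] (h : Hyp X) (hr : RR T l c) (hν : NumR ν)
    (htr : Algebra.trdeg k (X.kap z) = 2) (hS : SPr X z S) {A : Cart X} (hA : Ample A)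
    (he : MS hν h.var TR z S e) : 0 ≤ TR e (cR ν A) (cR ν S) := by
  obtain ⟨n, hn1, hn⟩ := sec_z' h hr htr hS hA 1
  rw [one_mul] at hn
  have h1 := he.eff _ hn
  rw [cR_pow, map_smul, LinearMap.smul_apply, smul_eq_mul] at h1
  have hn0 : (0 : ℝ) < n := by exact_mod_cast hn1
  exact nonneg_of_mul_nonneg_right h1 hn0

/-- a linear functional which is nonnegative on the ample classes is nonnegative on the nef cone -/
private theorem nef_nn (hX : IsVar X) (hν : NumR ν) (f : (Fin r → ℝ) →ₗ[ℝ] ℝ)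
    (hf : ∀ B : Cart X, Ample B → 0 ≤ f (cR ν B)) (hp : p ∈ closure (CC ν)) : 0 ≤ f p := by
  rw [← cl_eq hX hν] at hp
  have h1 : IsClosed {x | 0 ≤ f x} := isClosed_le continuous_const (cont_lin f)
  refine closure_minimal ?_ h1 hp
  rintro v ⟨m, cc, D, hc, hD, rfl⟩
  show 0 ≤ f _
  rw [map_sum]
  refine Finset.sum_nonneg fun i _ => ?_
  rw [map_smul, smul_eq_mul]
  exact mul_nonneg (hc i).le (hf _ (hD i))

private theorem nef_sq (hX : IsVar X) (hν : NumR ν) (w : Fin r → ℝ)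
    (hf : ∀ A B : Cart X, Ample A → Ample B → 0 ≤ TR (cR ν A) (cR ν B) w) (hp : p ∈ closure (CC ν)) :
    0 ≤ TR p p w := by
  rw [← cl_eq hX hν] at hp
  have h1 : IsClosed {x | 0 ≤ TR x x w} := isClosed_le continuous_const (cont_quad TR w)
  refine closure_minimal ?_ h1 hp
  rintro v ⟨m, cc, D, hc, hD, rfl⟩
  show 0 ≤ TR _ _ w
  have h2 : ∀ i, 0 ≤ TR (cR ν (D i)) (∑ i, cc i • rv (ci ν (D i))) w := by
    intro i
    rw [map_sum, LinearMap.sum_apply]
    refine Finset.sum_nonneg fun j _ => ?_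
    rw [map_smul, LinearMap.smul_apply, smul_eq_mul]
    exact mul_nonneg (hc j).le (hf _ _ (hD i) (hD j))
  have h3 : TR (∑ i, cc i • rv (ci ν (D i))) (∑ i, cc i • rv (ci ν (D i))) w =
      ∑ i, cc i * TR (cR ν (D i)) (∑ i, cc i • rv (ci ν (D i))) w := by
    rw [← s1_apply, map_sum]
    refine Finset.sum_congr rfl fun i _ => ?_
    rw [map_smul, s1_apply, smul_eq_mul]
  rw [h3]
  exact Finset.sum_nonneg fun i _ => mul_nonneg (hc i).le (h2 i)

/-- the sections of `W` on `z` which vanish at the curve `x` -/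
private theorem ker_dim [CharZero k] (hX : IsVar X) {A : Cart X} (hA : Ample A) {x : X.P} (hx : z ⤳ x) (B W : Cart X)
    (hs : Function.Surjective (resS (isVar_sub hX z) ⟨x, hx⟩ (resD hX z B) 1)) {s : X.kap z} (hs0 : s ≠ 0)
    (hsW : Sec (resD hX z W) 1 s) (hsx : x ∈ Zst hX z W s) :
    hz hX z (B * W⁻¹) + hz hX x B ≤ hz hX z B := by
  have hfd := Pool.Agent.H24.TK.fd (isVar_sub hX z) ⟨_, gen_sub hX z⟩ (res_ample hX z _ hA) (resD hX z B)
  have h1 := LinearMap.finrank_range_add_finrank_ker (resS (isVar_sub hX z) ⟨x, hx⟩ (resD hX z B) 1)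
  rw [LinearMap.range_eq_top.2 hs, finrank_top] at h1
  have h2 : Module.finrank k (secL (resD (isVar_sub hX z) ⟨x, hx⟩ (resD hX z B)) 1) = hz hX x B :=
    hz_sub hX z ⟨x, hx⟩ B
  obtain ⟨hx', hsx'⟩ := hsx
  have hmem : ∀ f : secL (resD hX z (B * W⁻¹)) 1, ∀ y, (s * (resD hX z W).eq y) ∈ (subM hX z).O y ∧
      (f : X.kap z) * (resD hX z (B * W⁻¹)).eq y ∈ (subM hX z).O y ∧
      s * (f : X.kap z) * (resD hX z B).eq y ^ 1 =
        (s * (resD hX z W).eq y) * ((f : X.kap z) * (resD hX z (B * W⁻¹)).eq y) := by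
    intro f y
    have a1 := hsW y
    have a2 := f.2 y
    rw [pow_one] at a1 a2
    refine ⟨a1, a2, ?_⟩
    have a3 : resD hX z B = resD hX z W * resD hX z (B * W⁻¹) := by
      rw [← map_mul]
      congr 1
      rw [mul_comm B, mul_inv_cancel_left]
    rw [pow_one, a3, mul_eq]
    ring
  have hsec : ∀ f : secL (resD hX z (B * W⁻¹)) 1, s * (f : X.kap z) ∈ secL (resD hX z B) 1 := by
    intro f y
    obtain ⟨a1, a2, a3⟩ := hmem f y
    rw [a3]
    exact mul_mem a1 a2
  have hker : ∀ f : secL (resD hX z (B * W⁻¹)) 1, (⟨s * (f : X.kap z), hsec f⟩ : secL (resD hX z B) 1) ∈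
      LinearMap.ker (resS (isVar_sub hX z) ⟨x, hx⟩ (resD hX z B) 1) := by
    intro f
    rw [LinearMap.mem_ker, resS_zero]
    obtain ⟨a1, a2, a3⟩ := hmem f ⟨x, hx⟩
    rw [a3, un_mul_iff a1 a2]
    exact fun hh => hsx' hh.1
  have h3 : hz hX z (B * W⁻¹) ≤
      Module.finrank k (LinearMap.ker (resS (isVar_sub hX z) ⟨x, hx⟩ (resD hX z B) 1)) := by
    refine LinearMap.finrank_le_finrank_of_injective
      (f := ({ toFun := fun f => ⟨⟨s * (f : X.kap z), hsec f⟩, hker f⟩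
               map_add' := fun f g => Subtype.ext (Subtype.ext (mul_add s _ _))
               map_smul' := fun a f => Subtype.ext (Subtype.ext (mul_smul_comm a s _)) } :
        secL (resD hX z (B * W⁻¹)) 1 →ₗ[k] LinearMap.ker (resS (isVar_sub hX z) ⟨x, hx⟩ (resD hX z B) 1))) ?_
    intro f g hfg
    have h4 : s * (f : X.kap z) = s * (g : X.kap z) :=
      congrArg (fun t : LinearMap.ker (resS (isVar_sub hX z) ⟨x, hx⟩ (resD hX z B) 1) => (t.1.1 : X.kap z)) hfg
    exact Subtype.ext (mul_left_cancel₀ hs0 h4)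
  have h5 : hz hX z B = Module.finrank k (secL (resD hX z B) 1) := rfl
  omega

/-- the condition `cv` for ample classes -/
private theorem cv_amp [CharZero k] [T0Space X.P] (h : Hyp X) (hr : RR T l c) (hS : SPr X z S) {B : Cart X}
    (hB : Ample B) {W : Cart X} {x : X.P} (hx : Cv z x) {s : X.kap z} (hs0 : s ≠ 0)
    (hsW : Sec (resD h.var z W) 1 s) (hsx : x ∈ Zst h.var z W s) : (dz h.var x B : ℝ) ≤ T B W S := by
  have hdB := dz_pos h.var h.amp hx.2 (res_ample h.var x _ hB)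
  obtain ⟨χ, hχ⟩ := hz_cur h.var h.amp hx.2
  obtain ⟨n1, h1⟩ := Pool.Agent.H24.TK.ser_ample (isVar_sub h.var z) (res_ample h.var z _ hB) ⟨x, hx.1⟩ 1
  obtain ⟨n2, h2⟩ := Pool.Agent.H20.TQ.srf_ev h hr hS 1 B hB
  obtain ⟨n3, h3⟩ := Pool.Agent.H20.TQ.srf_ev h hr hS W⁻¹ B hB
  have key : 0 ≤ T B W S - dz h.var x B := by
    refine lin_nn (a := - (T W W S + T W S S) / 2 - χ) (n₀ := max (max n1 n2) (max n3 ((-2 * χ).toNat + 1)))
      fun n hn => ?_
    have a1 := h1 n (((le_max_left _ _).trans (le_max_left _ _)).trans hn)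
    have a2 := h2 n (((le_max_right _ _).trans (le_max_left _ _)).trans hn)
    have a3 := h3 n (((le_max_left _ _).trans (le_max_right _ _)).trans hn)
    have hn4 : (-2 * χ).toNat + 1 ≤ n := ((le_max_right _ _).trans (le_max_right _ _)).trans hn
    rw [one_mul, ← map_pow] at a1
    rw [one_mul] at a2
    rw [mul_comm] at a3
    have a4 := ker_dim h.var hB hx.1 (B ^ n) W a1 hs0 hsW hsx
    have a5 := hχ (B ^ n) (by
      rw [dz_pow h.var h.amp hx.2]
      have h5 : (n : ℤ) ≤ n * dz h.var x B := le_mul_of_one_le_right (by positivity) hdB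
      omega)
    rw [dz_pow h.var h.amp hx.2] at a5
    have a6 : (hz h.var x (B ^ n) : ℝ) = n * dz h.var x B + χ := by exact_mod_cast a5
    have a7 : (hz h.var z (B ^ n * W⁻¹) : ℝ) + hz h.var x (B ^ n) ≤ hz h.var z (B ^ n) := by exact_mod_cast a4
    have a8 : (hz h.var z (B ^ n) : ℝ) = chS T l S (B ^ n) := a2
    have a9 : (hz h.var z (B ^ n * W⁻¹) : ℝ) = chS T l S (B ^ n * W⁻¹) := a3
    have a10 := hr.chS_sub S (B ^ n) W
    rw [hr.tri.pow] at a10
    rw [a6, a8, a9] at a7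
    linarith
  linarith

theorem ms_nef [CharZero k] [IsAlgClosed k] [T0Space X.P] (h : Hyp X) (hr : RR T l c) (hν : NumR ν)
    (hT : ∀ U V W, TR (cR ν U) (cR ν V) (cR ν W) = T U V W)
    (htr : Algebra.trdeg k (X.kap z) = 2) (hS : SPr X z S) (hp : p ∈ closure (CC ν)) : MS hν h.var TR z S p := by
  refine ⟨fun x hx => ?_, fun W hW => ?_, ?_, ?_⟩
  · obtain ⟨A, hA⟩ := h.amp
    exact dR_nef hν h.var hA hx.2 hp
  · have h1 := nef_nn h.var hν (s1 TR (cR ν W) (cR ν S)) (fun B hB => by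
      rw [s1_apply, hT]
      exact Pool.Agent.H20.TQ.srf_nn h hr hS hW hB) hp
    exact h1
  · refine nef_sq h.var hν (cR ν S) (fun A B hA hB => ?_) hp
    rw [hT]
    exact (pos_z h hr htr hS hA hB).le
  · rintro W Z x ⟨s, hs0, hsW, rfl⟩ hx hxc
    have h1 := nef_nn h.var hν (s1 TR (cR ν W) (cR ν S) - dR hν h.var x) (fun B hB => by
      rw [LinearMap.sub_apply, s1_apply, hT, dR_ci hν h.var h.amp hxc.2]
      have h2 := cv_amp h hr hS hB hxc hs0 hsW hx
      linarith) hp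
    rw [LinearMap.sub_apply, s1_apply] at h1
    linarith

theorem ms_TT [CharZero k] [IsAlgClosed k] [T0Space X.P] (h : Hyp X) (hr : RR T l c) (hν : NumR ν)
    (hT : ∀ U V W, TR (cR ν U) (cR ν V) (cR ν W) = T U V W)
    (htr : Algebra.trdeg k (X.kap z) = 2) (hS : SPr X z S) (he : MS hν h.var TR z S e) (hp : MS hν h.var TR z S p) :
    0 ≤ TR e p (cR ν S) := by
  have hsym := sym12 hr hν hT
  obtain ⟨A, hA⟩ := h.amp
  have hAA : 0 < TR (cR ν A) (cR ν A) (cR ν S) := by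
    rw [hT]
    exact pos_z h hr htr hS hA hA
  have hpA := amp_nn h hr hν htr hS hA hp
  have heA := amp_nn h hr hν htr hS hA he
  -- the claim for `p + ε A`
  have key : ∀ ε : ℝ, 0 < ε → 0 ≤ TR e (p + ε • cR ν A) (cR ν S) := by
    intro ε hε
    obtain ⟨p', hp'⟩ : ∃ p', p' = p + ε • cR ν A := ⟨_, rfl⟩
    rw [← hp']
    obtain ⟨Q, hQ⟩ : ∃ Q, Q = TR p' p' (cR ν S) := ⟨_, rfl⟩
    have hQ0 : 0 < Q := by
      have e1 : Q = TR p p (cR ν S) + 2 * ε * TR p (cR ν A) (cR ν S) + ε ^ 2 * TR (cR ν A) (cR ν A) (cR ν S) := by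
        rw [hQ, hp']
        simp only [map_add, map_smul, LinearMap.add_apply, LinearMap.smul_apply, smul_eq_mul]
        rw [hsym (cR ν A) p]
        ring
      have e2 := hp.sq
      have e3 : 0 < ε ^ 2 * TR (cR ν A) (cR ν A) (cR ν S) := by positivity
      have e4 : 0 ≤ 2 * ε * TR p (cR ν A) (cR ν S) := by positivity
      linarith
    have hdeg : ∀ x, Cv z x → 0 ≤ dR hν h.var x p' := by
      intro x hx
      have e1 := hp.deg x hx
      have e2 := dR_cc hν h.var hA hx.2 (cc_amp h.var hν hA)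
      rw [hp', map_add, map_smul, smul_eq_mul]
      have e3 := mul_pos hε e2
      show 0 ≤ dR hν h.var x p + ε * dR hν h.var x (rv (ci ν A))
      linarith
    obtain ⟨C, hC⟩ := lb h hr hν htr hS hdeg 1
    obtain ⟨c1, hc10, hc1⟩ := bd_ball (cont_lin (s2 TR p' (cR ν S)))
    obtain ⟨c2, hc20, hc2⟩ := bd_ball (cont_quad TR (cR ν S))
    obtain ⟨c3, hc30, hc3⟩ := bd_ball (cont_lin (s1 TR (cR ν S) (cR ν S)))
    obtain ⟨c4, hc40, hc4⟩ := bd_ball (cont_lin (s2 TR e (cR ν S)))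
    obtain ⟨n₀, hn₀⟩ := quad_pos (- c2 / 2 - c3 / 2 + T S S S / 6 + l S - C)
      (- c1 - TR p' (cR ν S) (cR ν S) / 2) (half_pos hQ0)
    refine lin_nn (a := c4) (n₀ := n₀) fun n hn => ?_
    obtain ⟨W, hW⟩ := ci_surj hν (fun i => ⌊(n : ℝ) * p' i⌋)
    obtain ⟨u, hu⟩ : ∃ u, u = cR ν W - (n : ℝ) • p' := ⟨_, rfl⟩
    have hu1 : ‖u‖ ≤ 1 := by
      rw [hu, pi_norm_le_iff_of_nonneg zero_le_one]
      intro i
      show ‖rv (ci ν W) i - ((n : ℝ) • p') i‖ ≤ 1
      rw [hW, Pi.smul_apply, smul_eq_mul, Real.norm_eq_abs, abs_le]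
      have h1 := Int.floor_le ((n : ℝ) * p' i)
      have h2 := Int.lt_floor_add_one ((n : ℝ) * p' i)
      show -1 ≤ ((⌊(n : ℝ) * p' i⌋ : ℤ) : ℝ) - n * p' i ∧ ((⌊(n : ℝ) * p' i⌋ : ℤ) : ℝ) - n * p' i ≤ 1
      constructor <;> linarith
    have hWu : cR ν W = (n : ℝ) • p' + u := by rw [hu]; abel
    have hn0 : (0 : ℝ) ≤ n := Nat.cast_nonneg n
    have e1 := hC n W hn0 (by rw [← hu]; exact hu1)
    have b1 := abs_le.1 (hc1 u hu1)
    have b2 := abs_le.1 (hc2 u hu1)
    have b3 := abs_le.1 (hc3 u hu1)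
    have b4 := abs_le.1 (hc4 u hu1)
    rw [s2_apply] at b1 b4
    rw [s1_apply] at b3
    have e2 : chS T l S W = n ^ 2 * (Q / 2) + n * TR p' u (cR ν S) + TR u u (cR ν S) / 2 -
        n * (TR p' (cR ν S) (cR ν S) / 2) - TR u (cR ν S) (cR ν S) / 2 + T S S S / 6 + l S := by
      unfold chS
      rw [← hT W W S, ← hT W S S, hWu, hQ]
      simp only [map_add, map_smul, LinearMap.add_apply, LinearMap.smul_apply, smul_eq_mul]
      rw [hsym u p']
      ring
    have e3 := hn₀ n hn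
    have b5 : -(n * c1) ≤ n * TR p' u (cR ν S) := by
      have := mul_le_mul_of_nonneg_left b1.1 hn0
      linarith
    have e4 : 0 < (hz h.var z W : ℝ) := by
      refine lt_of_lt_of_le ?_ e1
      rw [e2]
      linarith [b2.1, b3.2]
    have e5 := he.eff W (by exact_mod_cast e4)
    rw [hWu, map_add, map_smul, LinearMap.add_apply, LinearMap.smul_apply, smul_eq_mul] at e5
    linarith [b4.2]
  have h1 : ∀ ε : ℝ, 0 < ε → 0 ≤ TR e p (cR ν S) + ε * TR e (cR ν A) (cR ν S) := by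
    intro ε hε
    have h2 := key ε hε
    rwa [map_add, map_smul, LinearMap.add_apply, LinearMap.smul_apply, smul_eq_mul] at h2
  by_contra hcon
  push Not at hcon
  have h2 := h1 (- TR e p (cR ν S) / (2 * (TR e (cR ν A) (cR ν S) + 1))) (div_pos (by linarith) (by linarith))
  have h3 : - TR e p (cR ν S) / (2 * (TR e (cR ν A) (cR ν S) + 1)) * TR e (cR ν A) (cR ν S) ≤
      - TR e p (cR ν S) / 2 := by
    rw [div_mul_eq_mul_div, div_le_div_iff₀ (by linarith) (by norm_num)]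
    nlinarith
  linarith

theorem ms_zero [CharZero k] [IsAlgClosed k] [T0Space X.P] (h : Hyp X) (hr : RR T l c) (hν : NumR ν)
    (hT : ∀ U V W, TR (cR ν U) (cR ν V) (cR ν W) = T U V W)
    (htr : Algebra.trdeg k (X.kap z) = 2) (hS : SPr X z S) {A : Cart X} (hA : Ample A) (he : MS hν h.var TR z S e)
    (h0 : TR e (cR ν A) (cR ν S) = 0) : e ∈ KS hν h.var TR z S := by
  have h1 : ∀ W, 0 ≤ TR e (cR ν W) (cR ν S) := by
    intro W
    obtain ⟨n, -, hn⟩ := sec_z' h hr htr hS hA W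
    have h2 := he.eff _ hn
    rw [cR_mul, cR_pow, map_add, map_smul, LinearMap.add_apply, LinearMap.smul_apply, smul_eq_mul, h0] at h2
    linarith
  refine ⟨fun W => ?_, fun x hx => ?_⟩
  · have h2 := h1 W
    have h3 := h1 W⁻¹
    rw [cR_inv, map_neg, LinearMap.neg_apply] at h3
    linarith
  · refine le_antisymm ?_ (he.deg x hx)
    obtain ⟨χ, hχ⟩ := hz_cur h.var h.amp hx.2
    have hdA := dz_pos h.var h.amp hx.2 (res_ample h.var x _ hA)
    obtain ⟨n1, hn1⟩ := sec_z h hr htr hS hA 1 χ (dz h.var x A)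
    obtain ⟨m, hm⟩ : ∃ m, m = max n1 ((-2 * χ).toNat + 1) := ⟨_, rfl⟩
    have a1 := hn1 m (by rw [hm]; exact le_max_left _ _)
    have hm4 : (-2 * χ).toNat + 1 ≤ m := by rw [hm]; exact le_max_right _ _
    have a5 := hχ (A ^ m) (by
      rw [dz_pow h.var h.amp hx.2]
      have h5 : (m : ℤ) ≤ m * dz h.var x A := le_mul_of_one_le_right (by positivity) hdA
      omega)
    rw [dz_pow h.var h.amp hx.2] at a5
    have a6 : (hz h.var x (A ^ m) : ℝ) = m * dz h.var x A + χ := by exact_mod_cast a5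
    rw [one_mul] at a1
    have a7 : hz h.var x (A ^ m) < hz h.var z (A ^ m) := by
      have : (hz h.var x (A ^ m) : ℝ) < hz h.var z (A ^ m) := by
        rw [a6]
        linarith
      exact_mod_cast this
    have hfd1 := Pool.Agent.H24.TK.fd (isVar_sub h.var z) ⟨_, gen_sub h.var z⟩ (res_ample h.var z _ hA)
      (resD h.var z (A ^ m))
    have hfd2 := Pool.Agent.H24.TK.fd (isVar_sub (isVar_sub h.var z) ⟨x, hx.1⟩) ⟨_, gen_sub (isVar_sub h.var z) ⟨x, hx.1⟩⟩
      (res_ample (isVar_sub h.var z) ⟨x, hx.1⟩ _ (res_ample h.var z _ hA))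
      (resD (isVar_sub h.var z) ⟨x, hx.1⟩ (resD h.var z (A ^ m)))
    have a8 : Module.finrank k (secL (resD (isVar_sub h.var z) ⟨x, hx.1⟩ (resD h.var z (A ^ m))) 1) = hz h.var x (A ^ m) :=
      hz_sub h.var z ⟨x, hx.1⟩ (A ^ m)
    have a9 : Module.finrank k (secL (resD h.var z (A ^ m)) 1) = hz h.var z (A ^ m) := rfl
    have a10 : LinearMap.ker (resS (isVar_sub h.var z) ⟨x, hx.1⟩ (resD h.var z (A ^ m)) 1) ≠ ⊥ := by
      refine LinearMap.ker_ne_bot_of_finrank_lt ?_
      rw [a8, a9]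
      exact a7
    obtain ⟨s, hs, hs0⟩ := Submodule.exists_mem_ne_zero_of_ne_bot a10
    rw [LinearMap.mem_ker, resS_zero, pow_one] at hs
    have a11 : HasS h.var z (A ^ m) (Zst h.var z (A ^ m) s.1) :=
      ⟨s.1, fun h5 => hs0 (Subtype.ext h5), s.2, rfl⟩
    have a12 := he.cv _ _ x a11 ⟨hx.1, hs⟩ hx
    rw [cR_pow, map_smul, LinearMap.smul_apply, smul_eq_mul, h0, mul_zero] at a12
    exact a12

theorem ms_cc [CharZero k] [IsAlgClosed k] [T0Space X.P] (h : Hyp X) (hr : RR T l c) (hν : NumR ν)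
    (hT : ∀ U V W, TR (cR ν U) (cR ν V) (cR ν W) = T U V W)
    (htr : Algebra.trdeg k (X.kap z) = 2) (hS : SPr X z S) {A : Cart X} (hA : Ample A) (he : MS hν h.var TR z S e)
    (h0 : 0 < TR e (cR ν A) (cR ν S)) {a : Fin r → ℝ} (ha : a ∈ CC ν) : 0 < TR e a (cR ν S) := by
  have hoc : OC (CC ν) := ⟨cc_open, fun x hx y hy => cc_add h.var hν hx hy, fun c hc x hx => cc_smul hc hx⟩
  obtain ⟨ε, hε, h1⟩ := hoc.sub_small ha (cR ν A)
  have h2 := h1 (-ε) (by rw [abs_neg, abs_of_pos hε])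
  have h3 := nef_nn h.var hν (s2 TR e (cR ν S)) (fun B hB => by
    rw [s2_apply]
    exact amp_nn h hr hν htr hS hB he) (subset_closure h2)
  rw [s2_apply, map_add, map_smul, LinearMap.add_apply, LinearMap.smul_apply, smul_eq_mul] at h3
  have h4 := mul_pos hε h0
  linarith

theorem ms_smul (hX : IsVar X) (hν : NumR ν) {t : ℝ} (ht : 0 ≤ t) (he : MS hν hX TR z S e) :
    MS hν hX TR z S (t • e) := by
  refine ⟨fun x hx => ?_, fun W hW => ?_, ?_, fun W Z x h1 h2 h3 => ?_⟩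
  · rw [map_smul, smul_eq_mul]
    exact mul_nonneg ht (he.deg x hx)
  · rw [map_smul, LinearMap.smul_apply, LinearMap.smul_apply, smul_eq_mul]
    exact mul_nonneg ht (he.eff W hW)
  · have h1 : TR (t • e) (t • e) (cR ν S) = t * (t * TR e e (cR ν S)) := by
      simp only [map_smul, LinearMap.smul_apply, smul_eq_mul]
    rw [h1]
    exact mul_nonneg ht (mul_nonneg ht he.sq)
  · rw [map_smul, map_smul, LinearMap.smul_apply, LinearMap.smul_apply, smul_eq_mul, smul_eq_mul]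
    exact mul_le_mul_of_nonneg_left (he.cv W Z x h1 h2 h3) ht

theorem ms_add (hX : IsVar X) (hν : NumR ν) (hs12 : ∀ u v w, TR u v w = TR v u w) (he : MS hν hX TR z S e)
    {v : Fin r → ℝ} (hv : v ∈ KS hν hX TR z S) : MS hν hX TR z S (e + v) := by
  obtain ⟨hv1, hv2⟩ := hv
  have h0 : ∀ u, TR v u (cR ν S) = 0 := by
    intro u
    have h1 : s2 TR v (cR ν S) = 0 := ext_uniq hν fun D => by
      rw [s2_apply, LinearMap.zero_apply]
      exact hv1 D
    rw [← s2_apply, h1, LinearMap.zero_apply]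
  refine ⟨fun x hx => ?_, fun W hW => ?_, ?_, fun W Z x h1 h2 h3 => ?_⟩
  · rw [map_add, hv2 x hx, add_zero]
    exact he.deg x hx
  · rw [map_add, LinearMap.add_apply, LinearMap.add_apply, h0, add_zero]
    exact he.eff W hW
  · have h1 : TR (e + v) (e + v) (cR ν S) = TR e e (cR ν S) := by
      simp only [map_add, LinearMap.add_apply]
      rw [h0, h0, hs12 e v, h0, add_zero, add_zero, add_zero]
    rw [h1]
    exact he.sq
  · rw [map_add, hv2 x h3, add_zero, map_add, LinearMap.add_apply, LinearMap.add_apply, h0, add_zero]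
    exact he.cv W Z x h1 h2 h3

theorem ms_closed (hX : IsVar X) (hν : NumR ν) : IsClosed {e | MS hν hX TR z S e} := by
  have h1 : {e | MS hν hX TR z S e} =
      (⋂ (x : X.P) (_ : Cv z x), {e | 0 ≤ dR hν hX x e}) ∩
      ((⋂ (W : Cart X) (_ : 0 < hz hX z W), {e | 0 ≤ s1 TR (cR ν W) (cR ν S) e}) ∩
      ({e | 0 ≤ TR e e (cR ν S)} ∩
      ⋂ (W : Cart X) (Z : Set X.P) (x : X.P) (_ : HasS hX z W Z) (_ : x ∈ Z) (_ : Cv z x),
        {e | dR hν hX x e ≤ s1 TR (cR ν W) (cR ν S) e})) := by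
    ext e
    simp only [Set.mem_inter_iff, Set.mem_iInter, Set.mem_ofPred_eq, s1_apply]
    exact ⟨fun h => ⟨h.deg, h.eff, h.sq, h.cv⟩, fun h => ⟨h.1, h.2.1, h.2.2.1, h.2.2.2⟩⟩
  rw [h1]
  refine IsClosed.inter ?_ (IsClosed.inter ?_ (IsClosed.inter ?_ ?_))
  · exact isClosed_iInter fun x => isClosed_iInter fun _ => isClosed_le continuous_const (cont_lin _)
  · exact isClosed_iInter fun x => isClosed_iInter fun _ => isClosed_le continuous_const (cont_lin _)
  · exact isClosed_le continuous_const (cont_quad TR _)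
  · exact isClosed_iInter fun W => isClosed_iInter fun Z => isClosed_iInter fun x => isClosed_iInter fun _ =>
      isClosed_iInter fun _ => isClosed_iInter fun _ => isClosed_le (cont_lin _) (cont_lin _)

end Pool.Agent.H20.TP
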