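import Pool.Agent.H20.TP.Near
import Pool.Agent.H20.TP.LocA
import Pool.Agent.H20.TP.LocB
import Pool.Agent.H20.TP.Cmp
import Pool.Agent.H20.TP.BigX
import Pool.Agent.H20.TP.Cpt
import Pool.Agent.H20.TP.Ms

/-!
# COROLLARY P (MP_e49dc9_ag): the nef cone is locally rational polyhedral at the big classes

* `good_cc`: a nef class with positive cube which is good on all surfaces is in the (open) ample cone.
* `local_poly`: near a nef class with positive cube the nef classes are in the ample cone or killed by one of finitely many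
  integral functionals which are positive at `A`.
-/

set_option autoImplicit false

namespace Pool.Agent.H20.TP

open Pool.Agent.H54.RV Pool.Agent.H83.TU Pool.Agent.H83.TK Pool.Agent.H20.TD Pool.Agent.H39.TK
open Pool.Agent.H24.VP (RR chS)

variable {k K : Type} [Field k] [Field K] [Algebra k K] {X : Mod k K} {r : ℕ}
  {ν : Cart X →* Multiplicative (Fin r → ℤ)} {T : Cart X → Cart X → Cart X → ℝ} {l : Cart X → ℝ} {c : ℝ} {TR : Tri3 r}
  {z : X.P} {S A H G : Cart X} {p q : Fin r → ℝ} {ZG ZH : Set X.P}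

/-! ## symmetry of the real trilinear form -/

theorem tr_s12 (hr : RR T l c) (hν : NumR ν) (hT : ∀ U V W, TR (cR ν U) (cR ν V) (cR ν W) = T U V W)
    (u v w : Fin r → ℝ) : TR u v w = TR v u w := by
  have h1 : TR = TR.flip := ext_uniq hν fun U => ext_uniq hν fun V => ext_uniq hν fun W => by
    rw [LinearMap.flip_apply, hT, hT, hr.tri.s12]
  conv_lhs => rw [h1]
  rw [LinearMap.flip_apply]

theorem tr_s23 (hr : RR T l c) (hν : NumR ν) (hT : ∀ U V W, TR (cR ν U) (cR ν V) (cR ν W) = T U V W)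
    (u v w : Fin r → ℝ) : TR u v w = TR u w v := by
  have h2 : ∀ U, TR (cR ν U) = (TR (cR ν U)).flip := fun U => ext_uniq hν fun V => ext_uniq hν fun W => by
    rw [LinearMap.flip_apply, hT, hT, hr.tri.s23]
  have h3 : (TR.flip v).flip w = (TR.flip w).flip v := ext_uniq hν fun U => by
    simp only [LinearMap.flip_apply]
    conv_lhs => rw [h2]
    rw [LinearMap.flip_apply]
  have h4 := congrArg (fun f => f u) h3
  simpa using h4

/-- a class of the kernel -/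
theorem ks_zero (hν : NumR ν) {hX : IsVar X} (hp : p ∈ KS hν hX TR z S) (v : Fin r → ℝ) : TR p v (cR ν S) = 0 := by
  have h1 : (TR p).flip (cR ν S) = 0 := ext_uniq hν fun W => by
    rw [LinearMap.flip_apply, hp.1 W, LinearMap.zero_apply]
  have h2 := congrArg (fun f => f v) h1
  simpa using h2

/-! ## the surfaces in the zero sets -/

theorem srf_fin [CharZero k] [T0Space X.P] (h : Hyp X) (hs : HasX G ZG) :
    {z : X.P | z ∈ ZG ∧ Algebra.trdeg k (X.kap z) = 2}.Finite := by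
  obtain ⟨s, h1, h2, h3⟩ := hs
  have hE : Effective (prin X s h1 * G) := by
    intro x
    have h4 := h2 x
    rw [pow_one] at h4
    rw [mul_eq]
    exact h4
  refine (supp_fin h.var h.gen (n := 2) (by rw [h.tr]; norm_num) _ hE).subset ?_
  rintro z ⟨hz, hz2⟩
  rw [← h3] at hz
  refine ⟨?_, by rw [hz2]; norm_num⟩
  rw [mul_eq]
  exact hz

/-- **the local X-step** -/
theorem xloc [CharZero k] [IsAlgClosed k] [T0Space X.P] (h : Hyp X) (hr : RR T l c) (hν : NumR ν)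
    (hT : ∀ U V W, TR (cR ν U) (cR ν V) (cR ν W) = T U V W)
    (hH : Ample H) (hbH : Pool.Agent.H20.TK.Bpf H) (hsG : HasX G ZG) (hsH : HasX H ZH)
    (hq : q ∈ closure (CC ν)) {x₀ : ℝ} (hx₀ : 0 < x₀) (hcc : x₀ • q - cR ν G ∈ CC ν)
    (hg : ∀ z, z ∈ ZG ∨ z ∈ ZH → Algebra.trdeg k (X.kap z) = 2 → ∃ S, SPr X z S ∧ Good hν h.var TR z S q) :
    q ∈ CC ν := by
  have hfin : {z | (z ∈ ZG ∨ z ∈ ZH) ∧ Algebra.trdeg k (X.kap z) = 2}.Finite := by
    refine ((srf_fin h hsG).union (srf_fin h hsH)).subset ?_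
    rintro y ⟨h1 | h1, h2⟩
    · exact Or.inl ⟨h1, h2⟩
    · exact Or.inr ⟨h1, h2⟩
  have hsrf : ∀ᶠ δ in nhdsWithin (0 : ℝ) (Set.Ioi 0),
      ∀ z ∈ {z | (z ∈ ZG ∨ z ∈ ZH) ∧ Algebra.trdeg k (X.kap z) = 2},
      ∀ (N : ℕ) (D : Cart X), 0 < N → ‖cR ν D - (N : ℝ) • q‖ ≤ N * δ → Ample (resD h.var z D) := by
    rw [Filter.eventually_all_finite hfin]
    rintro z ⟨hz1, hz2⟩
    obtain ⟨S, hS, hgz⟩ := hg z hz1 hz2
    obtain ⟨δ₀, hδ₀, hn⟩ := near h hr hν hT hz2 hS hH hbH hq hgz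
    filter_upwards [Ioo_mem_nhdsGT hδ₀] with δ hδ N D hN hD
    exact hn N D hN (hD.trans (mul_le_mul_of_nonneg_left hδ.2.le (Nat.cast_nonneg N)))
  obtain ⟨ε, hε, hball⟩ := Metric.isOpen_iff.1 (cc_open (ν := ν)) _ hcc
  have hsm : ∀ᶠ δ in nhdsWithin (0 : ℝ) (Set.Ioi 0), (2 * x₀ + 1) * δ < ε := by
    have h3 : Filter.Tendsto (fun δ : ℝ => (2 * x₀ + 1) * δ) (nhdsWithin 0 (Set.Ioi 0)) (nhds ((2 * x₀ + 1) * 0)) :=
      ((continuous_const_mul _).tendsto 0).mono_left nhdsWithin_le_nhds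
    rw [mul_zero] at h3
    exact h3.eventually_lt_const hε
  obtain ⟨δ, ⟨hδ1, hδ2⟩, hδ3⟩ := ((hsrf.and hsm).and self_mem_nhdsWithin).exists
  have hδ0 : 0 < δ := hδ3
  refine ⟨δ, hδ0, fun N D hN hD => ?_⟩
  have hN0 : (0 : ℝ) < N := by exact_mod_cast hN
  obtain ⟨ρ, hρ1, hρ2⟩ := exists_rat_btwn (show x₀ / N < (2 * x₀ + 1) / N from
    div_lt_div_of_pos_right (by linarith) hN0)
  have hρ0 : (0 : ℝ) < ρ := lt_trans (by positivity) hρ1
  rw [div_lt_iff₀ hN0] at hρ1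
  rw [lt_div_iff₀ hN0] at hρ2
  have hρ0' : 0 < ρ := by exact_mod_cast hρ0
  obtain ⟨m, hm⟩ : ∃ m : ℕ, ρ.num = m := ⟨ρ.num.toNat, by
    have := Rat.num_pos.2 hρ0'
    omega⟩
  have hm1 : 1 ≤ m := by
    have := Rat.num_pos.2 hρ0'
    omega
  obtain ⟨j, hj⟩ : ∃ j, j = ρ.den := ⟨_, rfl⟩
  have hj1 : 1 ≤ j := by
    rw [hj]
    exact ρ.den_pos
  have hj0 : (0 : ℝ) < j := by exact_mod_cast hj1
  have hρ : (ρ : ℝ) = m / j := by
    rw [Rat.cast_def, hm, hj, Int.cast_natCast]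
  have key : cR ν (D ^ m * (G ^ j)⁻¹) ∈ CC ν := by
    have e1 : cR ν (D ^ m * (G ^ j)⁻¹) = (j : ℝ) • ((x₀ • q - cR ν G + (ρ : ℝ) • (cR ν D - (N : ℝ) • q)) +
        (ρ * N - x₀) • q) := by
      have e2 : cR ν (D ^ m * (G ^ j)⁻¹) = (m : ℝ) • cR ν D - (j : ℝ) • cR ν G := by
        change rv (ci ν (D ^ m * (G ^ j)⁻¹)) = _
        rw [ci_mul, ci_inv, ci_pow, ci_pow, rv_add, rv_neg, rv_smul, rv_smul, Int.cast_natCast, Int.cast_natCast,
          sub_eq_add_neg]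
      have e3 : (m : ℝ) = j * ρ := by
        rw [hρ]
        field_simp
      rw [e2, e3]
      module
    rw [e1]
    refine cc_smul hj0 ((oc_cc h.var hν).add_cl (hball ?_) (cl_smul (by linarith) hq))
    rw [Metric.mem_ball, dist_eq_norm, add_sub_cancel_left, norm_smul, Real.norm_eq_abs, abs_of_pos hρ0]
    calc (ρ : ℝ) * ‖cR ν D - (N : ℝ) • q‖ ≤ ρ * (N * δ) := mul_le_mul_of_nonneg_left hD hρ0.le
      _ = ρ * N * δ := by ring
      _ ≤ (2 * x₀ + 1) * δ := mul_le_mul_of_nonneg_right hρ2.le hδ0.le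
      _ < ε := hδ2
  refine xst h hr hH hbH (hasX_pow hsG hj1) hsH hm1 (B := D ^ m * (G ^ j)⁻¹) ?_ (cc_ample key)
    fun y hy hc => hδ1 y ⟨hy, hc⟩ N D hN hD
  rw [mul_comm (D ^ m), mul_inv_cancel_left]

/-- **a big nef class which is good on all surfaces is in the ample cone** -/
theorem good_cc [CharZero k] [IsAlgClosed k] [T0Space X.P] (h : Hyp X) (hr : RR T l c) (hν : NumR ν)
    (hT : ∀ U V W, TR (cR ν U) (cR ν V) (cR ν W) = T U V W)
    (hp : p ∈ closure (CC ν)) (h3 : 0 < TR p p p)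
    (hg : ∀ z S, Algebra.trdeg k (X.kap z) = 2 → SPr X z S → Good hν h.var TR z S p) : p ∈ CC ν := by
  obtain ⟨A, hA⟩ := h.amp
  obtain ⟨G, x₀, hx₀, hG, hcc⟩ := big_x h hr hν hT hp h3
  obtain ⟨ZG, hZG⟩ := hasX_of_pos hG
  obtain ⟨m, hm, hH, hb⟩ := exists_bpf h.var hA
  obtain ⟨ZH, hZH⟩ := bpf_hasX h hb
  refine xloc h hr hν hT hH hb hZG hZH hp hx₀ hcc fun z _ hz => ?_
  obtain ⟨S, hS⟩ := spr_of_trdeg h hz
  exact ⟨S, hS, hg z S hz hS⟩

/-- LOC at `e`, with COMP -/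
theorem loc_e [CharZero k] [IsAlgClosed k] [T0Space X.P] (h : Hyp X) (hr : RR T l c) (hν : NumR ν)
    (hT : ∀ U V W, TR (cR ν U) (cR ν V) (cR ν W) = T U V W) (htr : Algebra.trdeg k (X.kap z) = 2) (hS : SPr X z S)
    (hA : Ample A) (hG : 0 < h0 G 1) {e : Fin r → ℝ} (he : MS hν h.var TR z S e) (h1 : 0 < TR e (cR ν A) (cR ν S))
    (h2 : TR e e (cR ν S) = 0 → TR e (cR ν G) (cR ν S) < 0) : LocAt hν h.var TR z S A e := by
  rcases he.sq.eq_or_lt with h3 | h3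
  · obtain ⟨P, a, b⟩ := pdiv_of_trdeg h htr
    have e1 : P.η = z := (Specializes.antisymm a b).eq
    have hS' : SPr X P.η S := by rw [e1]; exact hS
    have he' : MS hν h.var TR P.η S e := by rw [e1]; exact he
    exact loc_b h hr hν hT htr hS hA he h1 h3.symm (cmp h hr hν P hS' he' hG (h2 h3.symm))
  · exact loc_a h hr hν hT htr hS hA he h3

/-- the nef classes near `p` on the surface `z` -/
theorem loc_srf [CharZero k] [IsAlgClosed k] [T0Space X.P] (h : Hyp X) (hr : RR T l c) (hν : NumR ν)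
    (hT : ∀ U V W, TR (cR ν U) (cR ν V) (cR ν W) = T U V W) (htr : Algebra.trdeg k (X.kap z) = 2) (hS : SPr X z S)
    (hA : Ample A) (hp : p ∈ closure (CC ν)) (hG : 0 < h0 G 1) {x₀ : ℝ}
    (hcc : x₀ • p - cR ν G ∈ CC ν) : LocAt hν h.var TR z S A p := by
  have hMp := ms_nef h hr hν hT htr hS hp
  have hex : ∀ e, MS hν h.var TR z S e → 0 < TR e (cR ν A) (cR ν S) → TR e p (cR ν S) = 0 →
      TR e (cR ν G) (cR ν S) < 0 := by
    intro e he h1 h2
    have h3 := ms_cc h hr hν hT htr hS hA he h1 hcc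
    rw [map_sub, map_smul, LinearMap.sub_apply, LinearMap.smul_apply, smul_eq_mul, h2, mul_zero, zero_sub] at h3
    linarith
  have hpos : 0 ≤ TR p (cR ν A) (cR ν S) := by
    obtain ⟨m, hm, hH, hb⟩ := exists_bpf h.var hA
    have h1 := hMp.eff _ (Pool.Agent.H20.TQ.bpf_res h hb z)
    have h2 : cR ν (A ^ m) = (m : ℝ) • cR ν A := by
      change rv (ci ν (A ^ m)) = _
      rw [ci_pow, rv_smul, Int.cast_natCast]
    rw [h2, map_smul, LinearMap.smul_apply, smul_eq_mul] at h1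
    have h3 : (0 : ℝ) < m := by exact_mod_cast hm
    exact nonneg_of_mul_nonneg_right h1 h3
  rcases hpos.eq_or_lt with h0 | h0
  · have hK := ms_zero h hr hν hT htr hS hA hMp h0.symm
    obtain ⟨F, hF1, hF2⟩ := cpt h hr hν hT htr hS hA (exists_cur h hr htr hS) fun e he h1 =>
      loc_e h hr hν hT htr hS hA hG he h1 fun _ => hex e he h1 (by
        rw [tr_s12 hr hν hT]
        exact ks_zero hν hK e)
    exact ⟨1, F, one_pos, hF1, fun q hq _ => hF2 q hq⟩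
  · exact loc_e h hr hν hT htr hS hA hG hMp h0 fun h1 => hex p hMp h0 h1

/-- **the nef cone is locally rational polyhedral at the big classes** -/
theorem local_poly [CharZero k] [IsAlgClosed k] [T0Space X.P] (h : Hyp X) (hr : RR T l c) (hν : NumR ν)
    (hT : ∀ U V W, TR (cR ν U) (cR ν V) (cR ν W) = T U V W) (hA : Ample A)
    (hp : p ∈ closure (CC ν)) (h3 : 0 < TR p p p) :
    ∃ (η : ℝ) (F : Set (Fin r → ℤ)), 0 < η ∧ F.Finite ∧ (∀ φ ∈ F, 0 < rv φ ⬝ᵥ cR ν A) ∧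
      ∀ q ∈ closure (CC ν), ‖q - p‖ < η → q ∈ CC ν ∨ ∃ φ ∈ F, rv φ ⬝ᵥ q = 0 := by
  obtain ⟨G, x₀, hx₀, hG, hcc⟩ := big_x h hr hν hT hp h3
  obtain ⟨ZG, hZG⟩ := hasX_of_pos hG
  obtain ⟨m, hm, hH, hb⟩ := exists_bpf h.var hA
  obtain ⟨ZH, hZH⟩ := bpf_hasX h hb
  have hfin : {z | (z ∈ ZG ∨ z ∈ ZH) ∧ Algebra.trdeg k (X.kap z) = 2}.Finite := by
    refine ((srf_fin h hZG).union (srf_fin h hZH)).subset ?_
    rintro y ⟨h1 | h1, h2⟩
    · exact Or.inl ⟨h1, h2⟩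
    · exact Or.inr ⟨h1, h2⟩
  have hloc : ∀ z : X.P, ∃ (S : Cart X) (η : ℝ) (F : Set (Fin r → ℤ)), Algebra.trdeg k (X.kap z) = 2 →
      SPr X z S ∧ 0 < η ∧ Fam hν h.var TR z S A F ∧
      ∀ q, MS hν h.var TR z S q → ‖q - p‖ < η → Good hν h.var TR z S q ∨ ∃ φ ∈ F, rv φ ⬝ᵥ q = 0 := by
    intro z
    by_cases hz : Algebra.trdeg k (X.kap z) = 2
    · obtain ⟨S, hS⟩ := spr_of_trdeg h hz
      obtain ⟨η, F, a, b, d⟩ := loc_srf h hr hν hT hz hS hA hp hG hcc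
      exact ⟨S, η, F, fun _ => ⟨hS, a, b, d⟩⟩
    · exact ⟨1, 1, ∅, fun h1 => absurd h1 hz⟩
  choose S η F hF using hloc
  have hnear : ∀ᶠ q in nhds p, (x₀ • q - cR ν G ∈ CC ν) ∧
      ∀ z ∈ {z | (z ∈ ZG ∨ z ∈ ZH) ∧ Algebra.trdeg k (X.kap z) = 2}, ‖q - p‖ < η z := by
    refine Filter.Eventually.and ?_ ?_
    · have h1 : Continuous fun q : Fin r → ℝ => x₀ • q - cR ν G := by fun_prop
      exact (cc_open.preimage h1).mem_nhds hcc
    · rw [Filter.eventually_all_finite hfin]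
      rintro z ⟨-, hz⟩
      filter_upwards [Metric.ball_mem_nhds p (hF z hz).2.1] with q hq
      rwa [Metric.mem_ball, dist_eq_norm] at hq
  obtain ⟨ε, hε, hball⟩ := Metric.eventually_nhds_iff_ball.1 hnear
  refine ⟨ε, ⋃ z ∈ {z | (z ∈ ZG ∨ z ∈ ZH) ∧ Algebra.trdeg k (X.kap z) = 2}, F z, hε,
    hfin.biUnion fun z hz => (hF z hz.2).2.2.1.fin, ?_, ?_⟩
  · rintro φ hφ
    simp only [Set.mem_iUnion] at hφ
    obtain ⟨z, hz, hφz⟩ := hφ
    exact (hF z hz.2).2.2.1.pos φ hφz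
  · intro q hq hqp
    obtain ⟨a, b⟩ := hball q (by rwa [Metric.mem_ball, dist_eq_norm])
    by_cases hcon : ∃ φ ∈ ⋃ z ∈ {z | (z ∈ ZG ∨ z ∈ ZH) ∧ Algebra.trdeg k (X.kap z) = 2}, F z, rv φ ⬝ᵥ q = 0
    · exact Or.inr hcon
    · left
      refine xloc h hr hν hT hH hb hZG hZH hq hx₀ a fun z hz hz2 => ⟨S z, (hF z hz2).1, ?_⟩
      rcases (hF z hz2).2.2.2 q (ms_nef h hr hν hT hz2 (hF z hz2).1 hq) (b z ⟨hz, hz2⟩) with h4 | ⟨φ, h4, h5⟩
      · exact h4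
      · exact absurd ⟨φ, Set.mem_biUnion (x := z) ⟨hz, hz2⟩ h4, h5⟩ hcon

end Pool.Agent.H20.TP
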