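import Pool.Agent.H20.TP.Xst
import Pool.Agent.H20.TP.Lb

/-!
# COROLLARY P (MP_e49dc9_ag): near a good nef point all divisors are ample on the surface
-/

set_option autoImplicit false

namespace Pool.Agent.H20.TP

open Pool.Agent.H54.RV Pool.Agent.H83.TU Pool.Agent.H83.TK Pool.Agent.H20.TD Pool.Agent.H39.TK
open Pool.Agent.H24.VP (RR chS)

variable {k K : Type} [Field k] [Field K] [Algebra k K] {X : Mod k K} {r : ℕ}
  {ν : Cart X →* Multiplicative (Fin r → ℤ)} {T : Cart X → Cart X → Cart X → ℝ} {l : Cart X → ℝ} {c : ℝ} {TR : Tri3 r}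
  {z : X.P} {S A H : Cart X} {q : Fin r → ℝ}

theorem oc_cc (hX : IsVar X) (hν : NumR ν) : OC (CC ν) :=
  ⟨cc_open, fun _ hx _ hy => cc_add hX hν hx hy, fun _ hc _ hx => cc_smul hc hx⟩

theorem near_pt (hν : NumR ν) (x : Fin r → ℝ) : ∃ D : Cart X, ‖cR ν D - x‖ ≤ 1 := by
  obtain ⟨D, hD⟩ := ci_surj hν (fun i => round (x i))
  refine ⟨D, ?_⟩
  rw [pi_norm_le_iff_of_nonneg zero_le_one]
  intro i
  have h1 : (cR ν D - x) i = (round (x i) : ℝ) - x i := by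
    change ((ci ν D i : ℤ) : ℝ) - x i = _
    rw [hD]
  rw [h1, Real.norm_eq_abs, abs_sub_comm]
  exact (abs_sub_round (x i)).trans (by norm_num)

theorem lin_bd (L : (Fin r → ℝ) →ₗ[ℝ] ℝ) : ∃ C : ℝ, 0 ≤ C ∧ ∀ v, |L v| ≤ C * ‖v‖ := by
  refine ⟨‖LinearMap.toContinuousLinearMap L‖, norm_nonneg _, fun v => ?_⟩
  exact (LinearMap.toContinuousLinearMap L).le_opNorm v

theorem tri_bd (TR : Tri3 r) : ∃ C : ℝ, 0 ≤ C ∧ ∀ u v w, |TR u v w| ≤ C * ‖u‖ * ‖v‖ * ‖w‖ := by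
  classical
  refine ⟨∑ i, ∑ j, ∑ p, |TR (Pi.single i 1) (Pi.single j 1) (Pi.single p 1)|,
    Finset.sum_nonneg fun _ _ => Finset.sum_nonneg fun _ _ => Finset.sum_nonneg fun _ _ => abs_nonneg _, fun u v w => ?_⟩
  have e : ∀ x : Fin r → ℝ, x = ∑ i, x i • (Pi.single i 1 : Fin r → ℝ) := fun x => pi_eq_sum_univ' x
  have h1 : TR u v w = ∑ i, ∑ j, ∑ p, u i * v j * w p * TR (Pi.single i 1) (Pi.single j 1) (Pi.single p 1) := by
    have h1 : ∀ i, TR (Pi.single i 1) v w =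
        ∑ j, ∑ p, v j * w p * TR (Pi.single i 1) (Pi.single j 1) (Pi.single p 1) := by
      intro i
      conv_lhs => rw [e v]
      rw [map_sum, LinearMap.sum_apply]
      refine Finset.sum_congr rfl fun j _ => ?_
      rw [map_smul, LinearMap.smul_apply]
      conv_lhs => rw [e w]
      rw [map_sum, Finset.smul_sum]
      refine Finset.sum_congr rfl fun p _ => ?_
      rw [map_smul, smul_eq_mul, smul_eq_mul, mul_assoc]
    conv_lhs => rw [e u]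
    rw [map_sum, LinearMap.sum_apply, LinearMap.sum_apply]
    refine Finset.sum_congr rfl fun i _ => ?_
    rw [map_smul, LinearMap.smul_apply, LinearMap.smul_apply, h1, smul_eq_mul, Finset.mul_sum]
    refine Finset.sum_congr rfl fun j _ => ?_
    rw [Finset.mul_sum]
    refine Finset.sum_congr rfl fun p _ => ?_
    ring
  rw [h1, Finset.sum_mul, Finset.sum_mul, Finset.sum_mul]
  refine (Finset.abs_sum_le_sum_abs _ _).trans (Finset.sum_le_sum fun i _ => ?_)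
  rw [Finset.sum_mul, Finset.sum_mul, Finset.sum_mul]
  refine (Finset.abs_sum_le_sum_abs _ _).trans (Finset.sum_le_sum fun j _ => ?_)
  rw [Finset.sum_mul, Finset.sum_mul, Finset.sum_mul]
  refine (Finset.abs_sum_le_sum_abs _ _).trans (Finset.sum_le_sum fun p _ => ?_)
  rw [abs_mul, abs_mul, abs_mul, mul_comm]
  have a1 := norm_le_pi_norm u i
  have a2 := norm_le_pi_norm v j
  have a3 := norm_le_pi_norm w p
  rw [Real.norm_eq_abs] at a1 a2 a3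
  have a4 : |u i| * |v j| * |w p| ≤ ‖u‖ * ‖v‖ * ‖w‖ :=
    mul_le_mul (mul_le_mul a1 a2 (abs_nonneg _) (norm_nonneg _)) a3 (abs_nonneg _) (by positivity)
  calc _ ≤ |TR (Pi.single i 1) (Pi.single j 1) (Pi.single p 1)| * (‖u‖ * ‖v‖ * ‖w‖) :=
        mul_le_mul_of_nonneg_left a4 (abs_nonneg _)
    _ = _ := by ring

theorem cc_ball (hX : IsVar X) (hν : NumR ν) (hA : Ample A) : ∃ b : ℝ, 0 < b ∧ ∀ v, ‖v‖ ≤ 1 → b • cR ν A - v ∈ CC ν := by
  obtain ⟨ε, hε, h⟩ := Metric.isOpen_iff.1 (cc_open (ν := ν)) _ (cc_amp hX hν hA)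
  refine ⟨2 / ε, by positivity, fun v hv => ?_⟩
  have h1 : rv (ci ν A) - (ε / 2) • v ∈ CC ν := by
    apply h
    rw [Metric.mem_ball, dist_eq_norm, sub_sub_cancel_left, norm_neg, norm_smul, Real.norm_eq_abs,
      abs_of_pos (by positivity)]
    nlinarith
  have h2 := cc_smul (c := 2 / ε) (by positivity) h1
  rw [smul_sub, smul_smul, div_mul_div_cancel₀' two_ne_zero, div_self hε.ne', one_smul] at h2
  exact h2

theorem cl_smul {t : ℝ} (ht : 0 ≤ t) {x : Fin r → ℝ} (hx : x ∈ closure (CC ν)) :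
    t • x ∈ closure (CC ν) := by
  rcases ht.eq_or_lt with h0 | h0
  · rw [← h0, zero_smul]
    obtain ⟨y, hy⟩ : (CC ν).Nonempty := closure_nonempty_iff.1 ⟨x, hx⟩
    rw [mem_closure_iff_seq_limit]
    refine ⟨fun n => (1 / ((n : ℝ) + 1)) • y, fun n => cc_smul (by positivity) hy, ?_⟩
    have h1 : Filter.Tendsto (fun n : ℕ => (1 / ((n : ℝ) + 1)) • y) Filter.atTop (nhds ((0 : ℝ) • y)) :=
      tendsto_one_div_add_atTop_nhds_zero_nat.smul_const y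
    rwa [zero_smul] at h1
  · have h1 : (fun y : Fin r → ℝ => t • y) '' closure (CC ν) ⊆ closure (CC ν) := by
      refine (image_closure_subset_closure_image (continuous_const_smul t)).trans (closure_mono ?_)
      rintro _ ⟨y, hy, rfl⟩
      exact cc_smul h0 hy
    exact h1 ⟨x, hx, rfl⟩

/-- a divisor with sections on `z` smaller than a multiple of `q` -/
theorem ex_W [CharZero k] [IsAlgClosed k] [T0Space X.P] (h : Hyp X) (hr : RR T l c) (hν : NumR ν)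
    (hT : ∀ U V W, TR (cR ν U) (cR ν V) (cR ν W) = T U V W)
    (htr : Algebra.trdeg k (X.kap z) = 2) (hS : SPr X z S) (hA : Ample A) (hq : ∀ x, Cv z x → 0 ≤ dR hν h.var x q)
    (h2 : 0 < TR q q (cR ν S)) :
    ∃ (G : Cart X) (x₀ : ℝ), 0 < x₀ ∧ 0 < hz h.var z G ∧ x₀ • q - cR ν G ∈ CC ν := by
  obtain ⟨b, hb, hball⟩ := cc_ball h.var hν hA
  obtain ⟨c₀, hc₀⟩ : ∃ c₀, c₀ = b * ‖cR ν A‖ + 1 := ⟨_, rfl⟩
  have hc0 : 0 ≤ c₀ := by rw [hc₀]; positivity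
  obtain ⟨C, hC⟩ := lb h hr hν htr hS hq c₀
  obtain ⟨C3, hC3, h3⟩ := tri_bd TR
  obtain ⟨s, hs⟩ : ∃ s, s = cR ν S := ⟨_, rfl⟩
  obtain ⟨β, hβ⟩ : ∃ β, β = C3 * ‖q‖ * c₀ * ‖s‖ + C3 * ‖q‖ * ‖s‖ * ‖s‖ / 2 := ⟨_, rfl⟩
  obtain ⟨γ, hγ⟩ : ∃ γ, γ = C3 * c₀ * c₀ * ‖s‖ / 2 + C3 * c₀ * ‖s‖ * ‖s‖ / 2 + |T S S S / 6 + l S| + |C| := ⟨_, rfl⟩
  have hβ0 : 0 ≤ β := by rw [hβ]; positivity
  have hγ0 : 0 ≤ γ := by rw [hγ]; positivity
  rw [← hs] at h2
  obtain ⟨t, ht⟩ : ∃ t, t = 2 * (β + γ + 1) / TR q q s + 1 := ⟨_, rfl⟩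
  have ht1 : 1 ≤ t := by
    rw [ht]
    have : 0 ≤ 2 * (β + γ + 1) / TR q q s := by positivity
    linarith
  have ht2 : β + γ + 1 ≤ TR q q s / 2 * t := by
    rw [ht, mul_add, mul_one]
    have : TR q q s / 2 * (2 * (β + γ + 1) / TR q q s) = β + γ + 1 := by field_simp
    rw [this]
    linarith
  obtain ⟨G, hG⟩ := near_pt hν (t • q - b • cR ν A)
  obtain ⟨v, hv⟩ : ∃ v, v = cR ν G - t • q := ⟨_, rfl⟩
  have hvn : ‖v‖ ≤ c₀ := by
    have e1 : v = (cR ν G - (t • q - b • cR ν A)) - b • cR ν A := by rw [hv]; abel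
    rw [e1, hc₀]
    refine (norm_sub_le _ _).trans ?_
    rw [norm_smul, Real.norm_eq_abs, abs_of_pos hb]
    linarith
  have hw : cR ν G = t • q + v := by rw [hv]; abel
  have h4 := hC t G (by linarith) (by rw [← hv]; exact hvn)
  refine ⟨G, t, by linarith, ?_, ?_⟩
  · have h5 : 0 < chS T l S G - C := by
      unfold chS
      rw [← hT G G S, ← hT G S S, hw, ← hs]
      simp only [map_add, map_smul, LinearMap.add_apply, LinearMap.smul_apply, smul_eq_mul]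
      have a1 := abs_le.1 (h3 q v s)
      have a2 := abs_le.1 (h3 v q s)
      have a3 := abs_le.1 (h3 v v s)
      have a4 := abs_le.1 (h3 q s s)
      have a5 := abs_le.1 (h3 v s s)
      have b1 : C3 * ‖q‖ * ‖v‖ * ‖s‖ ≤ C3 * ‖q‖ * c₀ * ‖s‖ := by gcongr
      have b2 : C3 * ‖v‖ * ‖q‖ * ‖s‖ ≤ C3 * ‖q‖ * c₀ * ‖s‖ := by
        calc C3 * ‖v‖ * ‖q‖ * ‖s‖ = C3 * ‖q‖ * ‖v‖ * ‖s‖ := by ring
          _ ≤ _ := b1
      have b3 : C3 * ‖v‖ * ‖v‖ * ‖s‖ ≤ C3 * c₀ * c₀ * ‖s‖ := by gcongr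
      have b4 : C3 * ‖v‖ * ‖s‖ * ‖s‖ ≤ C3 * c₀ * ‖s‖ * ‖s‖ := by gcongr
      have d1 : -(C3 * ‖q‖ * c₀ * ‖s‖) ≤ TR q v s := by linarith
      have d2 : -(C3 * ‖q‖ * c₀ * ‖s‖) ≤ TR v q s := by linarith
      have d3 : -(C3 * c₀ * c₀ * ‖s‖) ≤ TR v v s := by linarith
      have d4 : TR q s s ≤ C3 * ‖q‖ * ‖s‖ * ‖s‖ := by linarith
      have d5 : TR v s s ≤ C3 * c₀ * ‖s‖ * ‖s‖ := by linarith
      have e1 : t * -(C3 * ‖q‖ * c₀ * ‖s‖) ≤ t * TR q v s := mul_le_mul_of_nonneg_left d1 (by linarith)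
      have e2 : t * -(C3 * ‖q‖ * c₀ * ‖s‖) ≤ t * TR v q s := mul_le_mul_of_nonneg_left d2 (by linarith)
      have e4 : t * TR q s s ≤ t * (C3 * ‖q‖ * ‖s‖ * ‖s‖) := mul_le_mul_of_nonneg_left d4 (by linarith)
      have e5 : t * (β + γ + 1) ≤ t * (TR q q s / 2 * t) := mul_le_mul_of_nonneg_left ht2 (by linarith)
      have e6 : 1 * (γ + 1) ≤ t * (γ + 1) := mul_le_mul_of_nonneg_right ht1 (by linarith)
      have f1 := le_abs_self C
      have f2 := neg_abs_le (T S S S / 6 + l S)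
      rw [hβ, hγ] at e5
      rw [hγ] at e6
      nlinarith
    exact_mod_cast h5.trans_le h4
  · have e1 : t • q - cR ν G = b • cR ν A - (cR ν G - (t • q - b • cR ν A)) := by abel
    rw [e1]
    exact hball _ hG

/-- **near a good nef point all divisors are ample on the surface** -/
theorem near [CharZero k] [IsAlgClosed k] [T0Space X.P] (h : Hyp X) (hr : RR T l c) (hν : NumR ν)
    (hT : ∀ U V W, TR (cR ν U) (cR ν V) (cR ν W) = T U V W)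
    (htr : Algebra.trdeg k (X.kap z) = 2) (hS : SPr X z S) (hH : Ample H) (hbH : Pool.Agent.H20.TK.Bpf H)
    (hq : q ∈ closure (CC ν)) (hg : Good hν h.var TR z S q) :
    ∃ δ : ℝ, 0 < δ ∧ ∀ (N : ℕ) (D : Cart X), 0 < N → ‖cR ν D - (N : ℝ) • q‖ ≤ N * δ → Ample (resD h.var z D) := by
  obtain ⟨G, x₀, hx₀, hG, hcc⟩ := ex_W h hr hν hT htr hS hH (fun x hx => (hg.deg x hx).le) hg.sq
  obtain ⟨ZG, hZG⟩ := hasS_of_pos h.var hG
  obtain ⟨ZH, hZH⟩ := bpf_hasS h hbH z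
  have htr' : Algebra.trdeg k (X.kap z) = ((1 + 1 : ℕ) : Cardinal) := by
    rw [htr]
    norm_num
  have hfin : {y | (y ∈ ZG ∨ y ∈ ZH) ∧ Cv z y}.Finite := by
    refine ((zst_fin h.var htr' hZG).union (zst_fin h.var htr' hZH)).subset ?_
    rintro y ⟨h1 | h1, h2⟩
    · exact Or.inl ⟨h1, by rw [h2.2, Nat.cast_one]⟩
    · exact Or.inr ⟨h1, by rw [h2.2, Nat.cast_one]⟩
  have hcur : ∀ᶠ δ in nhdsWithin (0 : ℝ) (Set.Ioi 0), ∀ y ∈ {y | (y ∈ ZG ∨ y ∈ ZH) ∧ Cv z y},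
      ∀ (N : ℕ) (D : Cart X), 0 < N → ‖cR ν D - (N : ℝ) • q‖ ≤ N * δ → 0 < dz h.var y D := by
    rw [Filter.eventually_all_finite hfin]
    rintro y ⟨-, hy⟩
    obtain ⟨C, hC, hC2⟩ := lin_bd (dR hν h.var y)
    have h1 := hg.deg y hy
    have h2 : ∀ᶠ δ in nhdsWithin (0 : ℝ) (Set.Ioi 0), C * δ < dR hν h.var y q := by
      have h3 : Filter.Tendsto (fun δ : ℝ => C * δ) (nhdsWithin 0 (Set.Ioi 0)) (nhds (C * 0)) :=
        ((continuous_const_mul C).tendsto 0).mono_left nhdsWithin_le_nhds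
      rw [mul_zero] at h3
      exact h3.eventually_lt_const h1
    filter_upwards [h2] with δ hδ N D hN hD
    have hN0 : (0 : ℝ) < N := by exact_mod_cast hN
    have h3 : (dz h.var y D : ℝ) = N * dR hν h.var y q + dR hν h.var y (cR ν D - (N : ℝ) • q) := by
      rw [map_sub, map_smul, smul_eq_mul, dR_ci hν h.var ⟨H, hH⟩ hy.2]
      ring
    have h4 := (abs_le.1 (hC2 (cR ν D - (N : ℝ) • q))).1
    have h5 : C * ‖cR ν D - (N : ℝ) • q‖ ≤ C * (N * δ) := mul_le_mul_of_nonneg_left hD hC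
    have h6 : N * (C * δ) < N * dR hν h.var y q := mul_lt_mul_of_pos_left hδ hN0
    have h7 : (0 : ℝ) < dz h.var y D := by
      rw [h3]
      nlinarith
    exact_mod_cast h7
  obtain ⟨ε, hε, hball⟩ := Metric.isOpen_iff.1 (cc_open (ν := ν)) _ hcc
  have hsm : ∀ᶠ δ in nhdsWithin (0 : ℝ) (Set.Ioi 0), (2 * x₀ + 1) * δ < ε := by
    have h3 : Filter.Tendsto (fun δ : ℝ => (2 * x₀ + 1) * δ) (nhdsWithin 0 (Set.Ioi 0)) (nhds ((2 * x₀ + 1) * 0)) :=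
      ((continuous_const_mul _).tendsto 0).mono_left nhdsWithin_le_nhds
    rw [mul_zero] at h3
    exact h3.eventually_lt_const hε
  obtain ⟨δ, ⟨hδ1, hδ2⟩, hδ3⟩ := ((hcur.and hsm).and self_mem_nhdsWithin).exists
  have hδ0 : 0 < δ := hδ3
  refine ⟨δ, hδ0, fun N D hN hD => ?_⟩
  have hN0 : (0 : ℝ) < N := by exact_mod_cast hN
  obtain ⟨ρ, hρ1, hρ2⟩ := exists_rat_btwn (show x₀ / N < (2 * x₀ + 1) / N from
    div_lt_div_of_pos_right (by linarith) hN0)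
  have hρ0 : (0 : ℝ) < ρ := lt_trans (by positivity) hρ1
  rw [div_lt_iff₀ hN0] at hρ1
  rw [lt_div_iff₀ hN0] at hρ2
  have hρ0' : 0 < ρ := by exact_mod_cast hρ0
  obtain ⟨m, hm⟩ : ∃ m : ℕ, ρ.num = m := ⟨ρ.num.toNat, by
    have := Rat.num_pos.2 hρ0'
    omega⟩
  have hm1 : 1 ≤ m := by
    have := Rat.num_pos.2 hρ0'
    omega
  obtain ⟨j, hj⟩ : ∃ j, j = ρ.den := ⟨_, rfl⟩
  have hj1 : 1 ≤ j := by
    rw [hj]
    exact ρ.den_pos
  have hj0 : (0 : ℝ) < j := by exact_mod_cast hj1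
  have hρ : (ρ : ℝ) = m / j := by
    rw [Rat.cast_def, hm, hj, Int.cast_natCast]
  have key : cR ν (D ^ m * (G ^ j)⁻¹) ∈ CC ν := by
    have e1 : cR ν (D ^ m * (G ^ j)⁻¹) = (j : ℝ) • ((x₀ • q - cR ν G + (ρ : ℝ) • (cR ν D - (N : ℝ) • q)) +
        (ρ * N - x₀) • q) := by
      have e2 : cR ν (D ^ m * (G ^ j)⁻¹) = (m : ℝ) • cR ν D - (j : ℝ) • cR ν G := by
        change rv (ci ν (D ^ m * (G ^ j)⁻¹)) = _
        rw [ci_mul, ci_inv, ci_pow, ci_pow, rv_add, rv_neg, rv_smul, rv_smul, Int.cast_natCast, Int.cast_natCast,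
          sub_eq_add_neg]
      have e3 : (m : ℝ) = j * ρ := by
        rw [hρ]
        field_simp
      rw [e2, e3]
      module
    rw [e1]
    refine cc_smul hj0 ((oc_cc h.var hν).add_cl (hball ?_) (cl_smul (by linarith) hq))
    rw [Metric.mem_ball, dist_eq_norm, add_sub_cancel_left, norm_smul, Real.norm_eq_abs, abs_of_pos hρ0]
    calc (ρ : ℝ) * ‖cR ν D - (N : ℝ) • q‖ ≤ ρ * (N * δ) := mul_le_mul_of_nonneg_left hD hρ0.le
      _ = ρ * N * δ := by ring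
      _ ≤ (2 * x₀ + 1) * δ := mul_le_mul_of_nonneg_right hρ2.le hδ0.le
      _ < ε := hδ2
  refine sst h hr htr hS hH (hasS_pow h.var hZG hj1) hZH hm1 (B := D ^ m * (G ^ j)⁻¹) ?_ (cc_ample key)
    fun y hy hc => hδ1 y ⟨hy, hc⟩ N D hN hD
  rw [mul_comm (D ^ m), mul_inv_cancel_left]

end Pool.Agent.H20.TP
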