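import Pool.Agent.H20.TP.Srf
import Pool.Agent.H20.TK.Van
import Pool.Agent.H32.TK.Amp

/-!
# COROLLARY P (MP_e49dc9_ag): ampleness from uniform exactness of the pieces
-/

set_option autoImplicit false

namespace Pool.Agent.H20.TP

open Pool.Agent.H54.RV Pool.Agent.H83.TU Pool.Agent.H83.TK Pool.Agent.H20.TD Pool.Agent.H39.TK
open Pool.Agent.H24.VP (RR chS)

variable {k K : Type} [Field k] [Field K] [Algebra k K] {X : Mod k K}
  {T : Cart X → Cart X → Cart X → ℝ} {l : Cart X → ℝ} {c : ℝ} {z : X.P} {S A B D G H : Cart X}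

/-- fewer sections vanish -/
theorem nk_core {f P fw gH QH gG QG : Cart X → ℝ} (hf : EvA f P) (hfp : PlA P) (hfw : EvA fw fun W => P W - 1)
    (hH : Ample H) (hB : Ample B)
    (hsH : StA H H f gH) (evH : EvA gH QH) (plH : PlA QH) (huH : UE gH QH D B H)
    (hsG : StA G H fw gG) (evG : EvA gG QG) (plG : PlA QG) (huG : UE gG QG D B H)
    {m : ℕ} (hm : 1 ≤ m) (hD : D ^ m = G * B) (W : Cart X) : ∃ n₀ : ℕ, ∀ n ≥ n₀, fw (W * D ^ n) + 1 ≤ f (W * D ^ n) := by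
  have hp1 : PlA fun W => P W - 1 := by
    intro U V
    obtain ⟨q, hq⟩ := hfp U V
    refine ⟨q - Polynomial.C 1, fun n => ?_⟩
    dsimp only
    rw [hq, Polynomial.eval_sub, Polynomial.eval_C]
  obtain ⟨n1, h1⟩ := su hsG (fun W => st_poly hsG hH hfw hp1 evG plG W) hfw hB huG hm hD W
  obtain ⟨n2, h2⟩ := sl hsH (fun W => st_poly hsH hH hf hfp evH plH W) hf hH huH W
  refine ⟨n1 + n2, fun n hn => ?_⟩
  have a1 := h1 n (by omega)
  have a2 := h2 n (by omega) 0 0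
  rw [pow_zero, pow_zero, mul_one, mul_one] at a2
  linarith

/-- a section which does not vanish at `w` -/
theorem ex_nv {κ : Type} [Field κ] [Algebra k κ] {C : Mod k κ} (w : C.P) (W : Cart C)
    (h : hv w W < h0 W 1) : ∃ s : κ, Sec W 1 s ∧ w ∈ nz W 1 s := by
  by_contra hcon
  push Not at hcon
  have h1 : secv w W = secL W 1 := by
    ext s
    refine ⟨fun h2 => h2.1, fun h2 => ⟨h2, fun h3 => hcon s h2 ?_⟩⟩
    change Un (C.O w) (s * W.eq w ^ 1)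
    rwa [pow_one]
  unfold hv h0 at h
  rw [h1] at h
  exact lt_irrefl _ h

/-- ampleness on a surface -/
theorem nk_z [CharZero k] [IsAlgClosed k] (hX : IsVar X) {P : Cart X → ℝ} (hev : EvA (fun W => (hz hX z W : ℝ)) P)
    (hpl : PlA P) (hH : Ample H) (hB : Ample B) {ZG ZH : Set X.P}
    (hsG : HasS hX z G ZG) (hsH : HasS hX z H ZH) {m : ℕ} (hm : 1 ≤ m) (hD : D ^ m = G * B)
    (hpc : ∀ y, y ∈ ZG ∨ y ∈ ZH → PcU hX y D B H) : Ample (resD hX z D) := by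
  refine H32.TK.ample_of_sec_closed (isVar_sub hX z) (H := resD hX z H) (res_ample hX z _ hH) fun w hw => ?_
  obtain ⟨r1, y1, c1, p1, s1⟩ := stzv hX hsG hH w
  obtain ⟨r2, y2, c2, p2, s2⟩ := stz hX hsH hH
  obtain ⟨Q1, a1, a2, a3⟩ := sum_pc hX y1 c1 H (D := D) (B := B) (H := H) fun i => hpc _ (Or.inl (p1 i))
  obtain ⟨Q2, b1, b2, b3⟩ := sum_pc hX y2 c2 H (D := D) (B := B) (H := H) fun i => hpc _ (Or.inr (p2 i))
  have hfw : EvA (fun W => (hv w (resD hX z W) : ℝ)) fun W => P W - 1 := by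
    intro W A hA
    obtain ⟨n1, h1⟩ := hev W A hA
    obtain ⟨n2, h2⟩ := un_pt (isVar_sub hX z) (resD hX z A) (resD hX z W) (res_ample hX z _ hA) w
    refine ⟨n1 + n2, fun n hn => ?_⟩
    obtain ⟨s, e1, e2⟩ := h2 n (by omega)
    have e3 : resD hX z (W * A ^ n) = resD hX z A ^ n * resD hX z W := by
      rw [map_mul, map_pow, mul_comm]
    have e4 := Pool.Agent.H20.TK.hv_eq (isVar_sub hX z) w hw (resD hX z A ^ n * resD hX z W) (fd_sub hX hA z _) e1 e2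
    have e5 := h1 n (by omega)
    dsimp only at e5 ⊢
    rw [← e5]
    unfold hz
    rw [e3, ← e4]
    push_cast
    ring
  obtain ⟨n₀, hn₀⟩ := nk_core hev hpl hfw hH hB s2 b1 b2 b3 s1 a1 a2 a3 hm hD H⁻¹
  have h1 := hn₀ (n₀ + 1) (by omega)
  have e3 : resD hX z (H⁻¹ * D ^ (n₀ + 1)) = resD hX z D ^ (n₀ + 1) * (resD hX z H)⁻¹ := by
    rw [map_mul, map_pow, map_inv, mul_comm]
  unfold hz at h1
  rw [e3] at h1
  have h2 : hv w (resD hX z D ^ (n₀ + 1) * (resD hX z H)⁻¹) < h0 (resD hX z D ^ (n₀ + 1) * (resD hX z H)⁻¹) 1 := by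
    have h3 : ((hv w (resD hX z D ^ (n₀ + 1) * (resD hX z H)⁻¹) + 1 : ℕ) : ℝ) ≤
        (h0 (resD hX z D ^ (n₀ + 1) * (resD hX z H)⁻¹) 1 : ℝ) := by
      push_cast
      exact h1
    have h4 : hv w (resD hX z D ^ (n₀ + 1) * (resD hX z H)⁻¹) + 1 ≤
        h0 (resD hX z D ^ (n₀ + 1) * (resD hX z H)⁻¹) 1 := by exact_mod_cast h3
    omega
  obtain ⟨s, hs1, hs2⟩ := ex_nv w _ h2
  exact ⟨n₀ + 1, by omega, s, hs1, hs2⟩

/-- ampleness on `X` -/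
theorem nk_x [CharZero k] [IsAlgClosed k] (hX : IsVar X) (hg : ∃ g, Gen X g) {P : Cart X → ℝ}
    (hev : EvA (fun W => (h0 W 1 : ℝ)) P)
    (hpl : PlA P) (hH : Ample H) (hB : Ample B) {ZG ZH : Set X.P}
    (hsG : HasX G ZG) (hsH : HasX H ZH) {m : ℕ} (hm : 1 ≤ m) (hD : D ^ m = G * B)
    (hpc : ∀ y, y ∈ ZG ∨ y ∈ ZH → PcU hX y D B H) : Ample D := by
  refine H32.TK.ample_of_sec_closed hX hH fun w hw => ?_
  obtain ⟨r1, y1, c1, p1, s1⟩ := stxv hX hg hsG hH w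
  obtain ⟨r2, y2, c2, p2, s2⟩ := stx hX hg hsH hH
  obtain ⟨Q1, a1, a2, a3⟩ := sum_pc hX y1 c1 H (D := D) (B := B) (H := H) fun i => hpc _ (Or.inl (p1 i))
  obtain ⟨Q2, b1, b2, b3⟩ := sum_pc hX y2 c2 H (D := D) (B := B) (H := H) fun i => hpc _ (Or.inr (p2 i))
  have hfw : EvA (fun W => (hv w W : ℝ)) fun W => P W - 1 := by
    intro W A hA
    obtain ⟨n1, h1⟩ := hev W A hA
    obtain ⟨n2, h2⟩ := un_pt hX A W hA w
    refine ⟨n1 + n2, fun n hn => ?_⟩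
    obtain ⟨s, e1, e2⟩ := h2 n (by omega)
    have e4 := Pool.Agent.H20.TK.hv_eq hX w hw (A ^ n * W) (Pool.Agent.H24.TK.fd hX hg hA _) e1 e2
    have e5 := h1 n (by omega)
    dsimp only at e5 ⊢
    rw [← e5, mul_comm W (A ^ n), ← e4]
    push_cast
    ring
  obtain ⟨n₀, hn₀⟩ := nk_core hev hpl hfw hH hB s2 b1 b2 b3 s1 a1 a2 a3 hm hD H⁻¹
  have h1 := hn₀ (n₀ + 1) (by omega)
  rw [mul_comm H⁻¹] at h1
  have h2 : hv w (D ^ (n₀ + 1) * H⁻¹) < h0 (D ^ (n₀ + 1) * H⁻¹) 1 := by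
    have h3 : ((hv w (D ^ (n₀ + 1) * H⁻¹) + 1 : ℕ) : ℝ) ≤ (h0 (D ^ (n₀ + 1) * H⁻¹) 1 : ℝ) := by
      push_cast
      exact h1
    have h4 : hv w (D ^ (n₀ + 1) * H⁻¹) + 1 ≤ h0 (D ^ (n₀ + 1) * H⁻¹) 1 := by exact_mod_cast h3
    omega
  obtain ⟨s, hs1, hs2⟩ := ex_nv w _ h2
  exact ⟨n₀ + 1, by omega, s, hs1, hs2⟩

end Pool.Agent.H20.TP
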