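import Pool.Agent.H20.TP.Def

/-!
# [H20 TP OnSrf] COROLLARY P (MP_e49dc9_ag): a point of the support of an effective divisor lies on a surface of the support

PROOF. The local ring `X.O x` is a UFD (`h.ufd`), `E.eq x` is a nonunit of it, not `0`, so it is divisible by a prime element `π`.
As in `pdiv_of_trdeg` (H83/TK/Dim): the prime ideal `(π)` of `X.O x` (through an affine chart, `hX.prime`) is the ideal of a point
`z ⤳ x`, whose local ring is the localisation at `(π)`, a discrete valuation ring, so `z` is the point of a `PDiv`, `trdeg = 2`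
(`trdeg_pdiv`); `E.eq z / E.eq x` is a unit at `z` (E is a Cartier divisor: take a neighbourhood of `x`, it contains `z`) and
`π ∣ E.eq x` is not a unit at `z`.
-/

set_option autoImplicit false

namespace Pool.Agent.H20.TP

open Pool.Agent.H54.RV Pool.Agent.H83.TU Pool.Agent.H83.TK Pool.Agent.H20.TD

variable {k K : Type} [Field k] [Field K] [Algebra k K] {X : Mod k K}

theorem on_srf [CharZero k] (h : Hyp X) (E : Cart X) (hE : Effective E) {x : X.P} (hx : ¬ Un (X.O x) (E.eq x)) :
    ∃ z : X.P, z ⤳ x ∧ Algebra.trdeg k (X.kap z) = 2 ∧ ¬ Un (X.O z) (E.eq z) := by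
  have hmem := hE x
  have h0 := E.ne x
  have := h.ufd x
  obtain ⟨π, hπirr, hdvd⟩ := WfDvdMonoid.exists_irreducible_factor (a := (⟨E.eq x, hmem⟩ : X.O x))
    (fun hh => hx ((un_iff hmem).1 hh)) (fun hh => h0 (congrArg Subtype.val hh))
  obtain ⟨q, hq⟩ := π
  obtain ⟨P, hPz, hPq, hP⟩ := pdiv_of_prime h x q hq hπirr.prime
  have hq0 : q ≠ 0 := fun hh => hπirr.prime.ne_zero (Subtype.ext hh)
  refine ⟨P.η, hPz, trdeg_pdiv h P, fun hu => ?_⟩
  have h1 : 0 < P.p.ord (E.eq x) := by
    refine (hP _ hmem h0).2 ?_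
    obtain ⟨c, hc⟩ := hdvd
    have h2 : E.eq x = q * (c : K) := congrArg Subtype.val hc
    have h3 : E.eq x / q = (c : K) := by
      rw [h2]
      field_simp
    rw [h3]
    exact c.2
  obtain ⟨U, hU, hxU, hU'⟩ := E.loc x
  have h2 : P.η ∈ U := hPz.mem_open hU hxU
  have h3 := hU' _ h2
  have h4 : Un (X.O P.η) (E.eq x) := by
    have h5 := un_div hu h3
    have h6 : E.eq P.η / (E.eq P.η / E.eq x) = E.eq x := by
      have := E.ne P.η
      field_simp
    rwa [h6] at h5
  have h5 := (ord_eq_zero P.p (E.eq x) h0).2 ⟨(P.mem _).1 h4.2.1, (P.mem _).1 h4.2.2⟩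
  omega

end Pool.Agent.H20.TP
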