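import Pool.Agent.H20.TP.Loc
import Pool.Agent.H24.VP.Pos

/-!
# COROLLARY P (MP_e49dc9_ag), part 1: if all nonzero nef classes are big, the nef cone is rational polyhedral
-/

set_option autoImplicit false

namespace Pool.Agent.H20.TP

open Pool.Agent.H54.RV Pool.Agent.H83.TU Pool.Agent.H83.TK Pool.Agent.H20.TD Pool.Agent.H39.TK
open Pool.Agent.H24.VP (RR chS)

variable {k K : Type} [Field k] [Field K] [Algebra k K] {X : Mod k K} {r : ℕ}
  {ν : Cart X →* Multiplicative (Fin r → ℤ)} {T : Cart X → Cart X → Cart X → ℝ} {l : Cart X → ℝ} {c : ℝ} {TR : Tri3 r}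

/-- a sublinear threshold whose boundary is contained in finitely many rational hyperplanes -/
theorem poly_of {C : Set (Fin r → ℝ)} {a : Fin r → ℤ} {L : (Fin r → ℝ) →ₗ[ℝ] ℝ} (hd : Dir C (rv a) L)
    {F : Set (Fin r → ℤ)} (hF : F.Finite) (hpos : ∀ φ ∈ F, 0 < rv φ ⬝ᵥ rv a)
    (hcov : ∀ q ∈ frontier (closure C), q ≠ 0 → ∃ φ ∈ F, rv φ ⬝ᵥ q = 0) :
    ∃ F' : Finset (Fin r → ℤ), closure C = {v | ∀ φ ∈ F', 0 ≤ rv φ ⬝ᵥ v} := by
  classical
  obtain ⟨s, hs⟩ : ∃ s, s = thf C (rv a) := ⟨_, rfl⟩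
  have hdot : ∀ φ ψ : Fin r → ℤ, ∃ z : ℤ, rv φ ⬝ᵥ rv ψ = z := fun φ ψ => ⟨∑ i, φ i * ψ i, by
    unfold dotProduct
    push_cast
    rfl⟩
  have ha0 : rv a ≠ 0 := fun h => by
    have := hd.la
    rw [h, map_zero] at this
    exact lt_irrefl _ this
  -- one more functional
  have hF' : (insert a F).Finite := hF.insert a
  have hpos' : ∀ φ ∈ insert a F, 0 < rv φ ⬝ᵥ rv a := by
    intro φ hφ
    rcases Set.mem_insert_iff.1 hφ with h | h
    · rw [h]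
      refine lt_of_le_of_ne (Finset.sum_nonneg fun i _ => mul_self_nonneg _) fun h1 => ha0 ?_
      exact dotProduct_self_eq_zero.1 h1.symm
    · exact hpos φ h
  choose n hn using fun φ : Fin r → ℤ => hdot φ a
  obtain ⟨κ, hκ⟩ : ∃ κ : ℤ, κ = ∏ φ ∈ hF'.toFinset, n φ := ⟨_, rfl⟩
  have hnpos : ∀ φ ∈ hF'.toFinset, 0 < n φ := by
    intro φ hφ
    have h1 := hpos' φ (hF'.mem_toFinset.1 hφ)
    rw [hn] at h1
    exact_mod_cast h1
  have hκ0 : 0 < κ := by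
    rw [hκ]
    exact Finset.prod_pos hnpos
  have hfr : ∀ v : Fin r → ℝ, v + s v • rv a ∈ frontier (closure C) := by
    intro v
    rw [hd.fr, hs, hd.shift]
    ring
  have hint : ∀ d : Fin r → ℤ, ∃ z : ℤ, (κ : ℝ) * s (rv d) = z := by
    intro d
    obtain ⟨φ, hφ, h1⟩ : ∃ φ ∈ insert a F, rv φ ⬝ᵥ (rv d + s (rv d) • rv a) = 0 := by
      by_cases h0 : rv d + s (rv d) • rv a = 0
      · exact ⟨a, Set.mem_insert _ _, by rw [h0, dotProduct_zero]⟩
      · obtain ⟨φ, h1, h2⟩ := hcov _ (hfr _) h0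
        exact ⟨φ, Set.mem_insert_of_mem _ h1, h2⟩
    obtain ⟨w, hw⟩ : ∃ w : ℤ, κ = n φ * w := by
      rw [hκ]
      exact Finset.dvd_prod_of_mem n (hF'.mem_toFinset.2 hφ)
    obtain ⟨e, he⟩ := hdot φ d
    rw [dotProduct_add, dotProduct_smul, smul_eq_mul, he, hn] at h1
    refine ⟨-(w * e), ?_⟩
    rw [hw]
    push_cast
    have h2 : s (rv d) * n φ = -e := by linarith
    calc (n φ : ℝ) * w * s (rv d) = w * (s (rv d) * n φ) := by ring
      _ = _ := by rw [h2]; ring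
  have hκR : (0 : ℝ) < κ := by exact_mod_cast hκ0
  have hsub : Sub s := by
    rw [hs]
    exact hd.sub
  have hmax := cover hsub hκR (Ω := Set.univ) isOpen_univ (fun _ _ _ _ => Set.mem_univ _) fun d _ => hint d
  have hfin := phi_fin hκR s
  have hlift : ∀ φ ∈ Phi (κ : ℝ) s, ∃ d : Fin r → ℤ, rv d = -((κ : ℝ) • φ) := by
    intro φ hφ
    choose g hg using hφ.1
    refine ⟨fun i => - g i, funext fun i => ?_⟩
    change ((- g i : ℤ) : ℝ) = -(κ * φ i)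
    rw [hg, Int.cast_neg]
  choose! ψ hψ using hlift
  refine ⟨hfin.toFinset.image ψ, ?_⟩
  ext v
  constructor
  · intro hv φ hφ
    obtain ⟨θ, hθ, rfl⟩ := Finset.mem_image.1 hφ
    have hθ' := hfin.mem_toFinset.1 hθ
    rw [hψ θ hθ', neg_dotProduct, smul_dotProduct, smul_eq_mul]
    have h1 := hθ'.2 v
    have h2 : s v ≤ 0 := by
      rw [hs, hd.le_iff, zero_smul, add_zero]
      exact hv
    nlinarith
  · intro hv
    obtain ⟨θ, hθ, h1⟩ := hmax v (Set.mem_univ _)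
    have h2 := hv (ψ θ) (Finset.mem_image_of_mem _ (hfin.mem_toFinset.2 hθ))
    rw [hψ θ hθ, neg_dotProduct, smul_dotProduct, smul_eq_mul, h1] at h2
    have h3 : s v ≤ 0 := by nlinarith
    rw [hs, hd.le_iff, zero_smul, add_zero] at h3
    exact h3

/-- the boundary is covered, from a local covering -/
theorem glob {C : Set (Fin r → ℝ)} {a : Fin r → ℤ} (hC : ∀ c : ℝ, 0 < c → ∀ x ∈ C, c • x ∈ C)
    (hC' : ∀ c : ℝ, 0 < c → ∀ x ∈ closure C, c • x ∈ closure C)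
    (hloc : ∀ p ∈ closure C, p ≠ 0 → ∃ (η : ℝ) (F : Set (Fin r → ℤ)), 0 < η ∧ F.Finite ∧ (∀ φ ∈ F, 0 < rv φ ⬝ᵥ rv a) ∧
      ∀ q ∈ closure C, ‖q - p‖ < η → q ∈ C ∨ ∃ φ ∈ F, rv φ ⬝ᵥ q = 0) :
    ∃ F : Set (Fin r → ℤ), F.Finite ∧ (∀ φ ∈ F, 0 < rv φ ⬝ᵥ rv a) ∧
      ∀ q ∈ closure C, q ≠ 0 → q ∈ C ∨ ∃ φ ∈ F, rv φ ⬝ᵥ q = 0 := by
  have hK : IsCompact (closure C ∩ Metric.sphere (0 : Fin r → ℝ) 1) :=
    (isCompact_sphere _ _).inter_left isClosed_closure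
  have hne : ∀ p ∈ closure C ∩ Metric.sphere (0 : Fin r → ℝ) 1, p ≠ 0 := by
    rintro p ⟨-, hp⟩ rfl
    rw [mem_sphere_zero_iff_norm, norm_zero] at hp
    exact zero_ne_one hp
  choose! η F h1 h2 h3 h4 using fun p (hp : p ∈ closure C ∩ Metric.sphere (0 : Fin r → ℝ) 1) => hloc p hp.1 (hne p hp)
  obtain ⟨t, ht1, ht2⟩ := hK.elim_nhds_subcover (fun p => Metric.ball p (η p)) fun p hp =>
    Metric.ball_mem_nhds p (h1 p hp)
  refine ⟨⋃ p ∈ t, F p, t.finite_toSet.biUnion fun p hp => h2 p (ht1 p hp), ?_, fun q hq hq0 => ?_⟩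
  · rintro φ hφ
    simp only [Set.mem_iUnion] at hφ
    obtain ⟨p, hp, hφp⟩ := hφ
    exact h3 p (ht1 p hp) φ hφp
  · have hn : 0 < ‖q‖ := norm_pos_iff.2 hq0
    have hq' : ‖q‖⁻¹ • q ∈ closure C ∩ Metric.sphere (0 : Fin r → ℝ) 1 := by
      refine ⟨hC' _ (by positivity) q hq, ?_⟩
      rw [mem_sphere_zero_iff_norm, norm_smul, norm_inv, norm_norm, inv_mul_cancel₀ hn.ne']
    have h5 := ht2 hq'
    simp only [Set.mem_iUnion] at h5
    obtain ⟨p, hp, h6⟩ := h5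
    rw [Metric.mem_ball, dist_eq_norm] at h6
    rcases h4 p (ht1 p hp) _ hq'.1 h6 with h7 | ⟨φ, h7, h8⟩
    · left
      have h8 := hC ‖q‖ hn _ h7
      rwa [smul_smul, mul_inv_cancel₀ hn.ne', one_smul] at h8
    · right
      refine ⟨φ, Set.mem_biUnion hp h7, ?_⟩
      rw [dotProduct_smul, smul_eq_mul] at h8
      rcases mul_eq_zero.1 h8 with h9 | h9
      · exact absurd (inv_eq_zero.1 h9) hn.ne'
      · exact h9

/-- **if all nonzero nef classes are big then the nef cone is rational polyhedral** -/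
theorem poly [CharZero k] [IsAlgClosed k] [T0Space X.P] (h : Hyp X) (hr : RR T l c) (hν : NumR ν)
    (hT : ∀ U V W, TR (cR ν U) (cR ν V) (cR ν W) = T U V W)
    (hbig : ∀ p ∈ closure (AmpR ν), p ≠ 0 → 0 < TR p p p) :
    ∃ F : Finset (Fin r → ℤ), closure (AmpR ν) = {v | ∀ φ ∈ F, 0 ≤ rv φ ⬝ᵥ v} := by
  obtain ⟨A, hA⟩ := h.amp
  obtain ⟨L, -, hd⟩ := cc_dir h.var hν (l := fun D => T D A A) (fun U V => hr.tri.add U V A A)
    (fun B hB => Pool.Agent.H24.VP.pos_amp h hr hB hA hA) hA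
  rw [cl_eq h.var hν] at hbig ⊢
  obtain ⟨F, h1, h2, h3⟩ := glob (C := CC ν) (a := ci ν A) (fun c hc x hx => cc_smul hc hx)
    (fun c hc x hx => cl_smul hc.le hx) fun p hp hp0 => local_poly h hr hν hT hA hp (hbig p hp hp0)
  refine poly_of hd h1 h2 fun q hq hq0 => ?_
  rw [isClosed_closure.frontier_eq] at hq
  rcases h3 q hq.1 hq0 with h4 | h4
  · refine absurd ?_ hq.2
    exact interior_mono subset_closure (by rw [(cc_open (ν := ν)).interior_eq]; exact h4)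
  · exact h4

end Pool.Agent.H20.TP
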