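import Pool.Agent.H20.TP.SubSub
import Pool.Agent.H41.ZP.Stp

/-!
# [H20 TP Step] COROLLARY P (MP_e49dc9_ag): the chain lemma in points of `X`

`stz`: `G` has a nonzero section on the subvariety `z` with zero set `Z`: the step along `G` for `hz hX z`, with pieces in `Z`.
`stzv`: the same for the sections which vanish at a point `y` of `z` (`hv`, H39/TK).  `stx`, `stxv`: the same on `X`.
PROOF. As `step_of` (H20/TK/Geo) and `gx` (H20/TQ/Van): `chain_eff`, `chain_van` (H39/TK/Use) on `subM hX z` with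
`E = prin s * resD hX z G`, `serP`, `h0_prin_inv`, `hv_prin_inv`; then `hz_sub` (H20/TP/SubSub).
-/

set_option autoImplicit false

namespace Pool.Agent.H20.TP

open Pool.Agent.H54.RV Pool.Agent.H83.TU Pool.Agent.H83.TK Pool.Agent.H20.TD Pool.Agent.H39.TK Pool.Agent.H20.TK

variable {k K : Type} [Field k] [Field K] [Algebra k K] {X : Mod k K}

theorem stz [CharZero k] [IsAlgClosed k] (hX : IsVar X) {z : X.P} {G A₁ : Cart X} {Z : Set X.P}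
    (hs : HasS hX z G Z) (hA : Ample A₁) : ∃ (m : ℕ) (y : Fin m → X.P) (c : Fin m → ℕ), (∀ i, y i ∈ Z) ∧
      StA G A₁ (fun W => (hz hX z W : ℝ)) (fun W => ∑ i, (hz hX (y i) (W * (A₁ ^ c i)⁻¹) : ℝ)) := by
  obtain ⟨s, hs0, hs1, rfl⟩ := hs
  obtain ⟨m, y, c, h1, h2, h3⟩ := H41.ZP.step_pt hX hA z G hs1 hs0
  refine ⟨m, y, c, fun i => ?_, fun W => ?_, fun W => ?_⟩
  · obtain ⟨-, hz, h4⟩ := h3 i
    refine ⟨hz, fun h5 => h4 ?_⟩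
    change Un _ (s * (resD hX z G).eq ⟨y i, hz⟩ ^ 1)
    rw [pow_one]
    exact h5
  · have h4 := h1 W
    show (h0 (resD hX z W) 1 : ℝ) ≤ (h0 (resD hX z (W * G⁻¹)) 1 : ℝ) + ∑ i, _
    exact_mod_cast h4
  · obtain ⟨n₀, hn⟩ := h2 W
    refine ⟨n₀, fun n hn' => ?_⟩
    have h4 := hn n hn'
    show (h0 (resD hX z (W * A₁ ^ n)) 1 : ℝ) = (h0 (resD hX z (W * A₁ ^ n * G⁻¹)) 1 : ℝ) + ∑ i, _
    exact_mod_cast h4

theorem stzv [CharZero k] [IsAlgClosed k] (hX : IsVar X) {z : X.P} {G A₁ : Cart X} {Z : Set X.P}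
    (hs : HasS hX z G Z) (hA : Ample A₁) (w : (subM hX z).P) :
    ∃ (m : ℕ) (y : Fin m → X.P) (c : Fin m → ℕ), (∀ i, y i ∈ Z) ∧
      StA G A₁ (fun W => (hv w (resD hX z W) : ℝ)) (fun W => ∑ i, (hz hX (y i) (W * (A₁ ^ c i)⁻¹) : ℝ)) := by
  obtain ⟨s, hs0, hs1, rfl⟩ := hs
  obtain ⟨m, y, c, h1, h2, h3⟩ := H41.ZP.step_van hX hA z w G hs1 hs0
  refine ⟨m, y, c, fun i => ?_, fun W => ?_, fun W => ?_⟩
  · obtain ⟨-, hz, h4⟩ := h3 i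
    refine ⟨hz, fun h5 => h4 ?_⟩
    change Un _ (s * (resD hX z G).eq ⟨y i, hz⟩ ^ 1)
    rw [pow_one]
    exact h5
  · have h4 := h1 W
    show (hv w (resD hX z W) : ℝ) ≤ (hv w (resD hX z (W * G⁻¹)) : ℝ) + ∑ i, _
    exact_mod_cast h4
  · obtain ⟨n₀, hn⟩ := h2 W
    refine ⟨n₀, fun n hn' => ?_⟩
    have h4 := hn n hn'
    show (hv w (resD hX z (W * A₁ ^ n)) : ℝ) = (hv w (resD hX z (W * A₁ ^ n * G⁻¹)) : ℝ) + ∑ i, _
    exact_mod_cast h4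

theorem stx [CharZero k] [IsAlgClosed k] (hX : IsVar X) (hg : ∃ g, Gen X g) {G A₁ : Cart X} {Z : Set X.P}
    (hs : HasX G Z) (hA : Ample A₁) : ∃ (m : ℕ) (y : Fin m → X.P) (c : Fin m → ℕ), (∀ i, y i ∈ Z) ∧
      StA G A₁ (fun W => (h0 W 1 : ℝ)) (fun W => ∑ i, (hz hX (y i) (W * (A₁ ^ c i)⁻¹) : ℝ)) := by
  obtain ⟨s, hs0, hs1, rfl⟩ := hs
  obtain ⟨hN, hF, hFZ, hS⟩ := serP k K X hX hg _ hA
  have hE : Effective (prin X s hs0 * G) := fun x => by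
    have := hs1 x
    rw [pow_one] at this
    exact this
  obtain ⟨m, y, c, h1, h2, h3⟩ := chain_eff hX hg A₁ hA hN hF hFZ hS _ hE
  refine ⟨m, y, c, h3, fun W => ?_, fun W => ?_⟩
  · have h4 := h1 W
    rw [h0_prin_inv] at h4
    show (h0 W 1 : ℝ) ≤ (h0 (W * G⁻¹) 1 : ℝ) + ∑ i, (h0 (resD hX (y i) (W * (A₁ ^ c i)⁻¹)) 1 : ℝ)
    exact_mod_cast h4
  · obtain ⟨n₀, hn⟩ := h2 W
    refine ⟨n₀, fun n hn' => ?_⟩
    have h4 := hn n hn'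
    rw [h0_prin_inv] at h4
    show (h0 (W * A₁ ^ n) 1 : ℝ) = (h0 (W * A₁ ^ n * G⁻¹) 1 : ℝ) +
      ∑ i, (h0 (resD hX (y i) (W * A₁ ^ n * (A₁ ^ c i)⁻¹)) 1 : ℝ)
    exact_mod_cast h4

theorem stxv [CharZero k] [IsAlgClosed k] (hX : IsVar X) (hg : ∃ g, Gen X g) {G A₁ : Cart X} {Z : Set X.P}
    (hs : HasX G Z) (hA : Ample A₁) (w : X.P) : ∃ (m : ℕ) (y : Fin m → X.P) (c : Fin m → ℕ), (∀ i, y i ∈ Z) ∧
      StA G A₁ (fun W => (hv w W : ℝ)) (fun W => ∑ i, (hz hX (y i) (W * (A₁ ^ c i)⁻¹) : ℝ)) := by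
  obtain ⟨s, hs0, hs1, rfl⟩ := hs
  obtain ⟨hN, hF, hFZ, hS⟩ := serP k K X hX hg _ hA
  have hE : Effective (prin X s hs0 * G) := fun x => by
    have := hs1 x
    rw [pow_one] at this
    exact this
  obtain ⟨m, y, c, h1, h2, h3⟩ := chain_van hX hg A₁ hA hN hF hFZ hS w _ hE
  refine ⟨m, y, c, h3, fun W => ?_, fun W => ?_⟩
  · have h4 := h1 W
    rw [hv_prin_inv] at h4
    show (hv w W : ℝ) ≤ (hv w (W * G⁻¹) : ℝ) + ∑ i, (h0 (resD hX (y i) (W * (A₁ ^ c i)⁻¹)) 1 : ℝ)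
    exact_mod_cast h4
  · obtain ⟨n₀, hn⟩ := h2 W
    refine ⟨n₀, fun n hn' => ?_⟩
    have h4 := hn n hn'
    rw [hv_prin_inv] at h4
    show (hv w (W * A₁ ^ n) : ℝ) = (hv w (W * A₁ ^ n * G⁻¹) : ℝ) +
      ∑ i, (h0 (resD hX (y i) (W * A₁ ^ n * (A₁ ^ c i)⁻¹)) 1 : ℝ)
    exact_mod_cast h4

end Pool.Agent.H20.TP
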