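import Pool.Agent.H20.TP.Supp
import Pool.Agent.H20.TP.Step
import Pool.Agent.H20.TP.OnSrf
import Pool.Agent.H20.TP.Cur
import Pool.Agent.H20.TQ.Cnt

/-!
# COROLLARY P (MP_e49dc9_ag): sections and their zero sets
-/

set_option autoImplicit false

namespace Pool.Agent.H20.TP

open Pool.Agent.H54.RV Pool.Agent.H83.TU Pool.Agent.H83.TK Pool.Agent.H20.TD

variable {k K : Type} [Field k] [Field K] [Algebra k K] {X : Mod k K}

theorem ex_sec {D : Cart X} (h : 0 < h0 D 1) : ∃ s : K, s ≠ 0 ∧ Sec D 1 s := by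
  have h1 : ∃ s : secL D 1, s ≠ 0 := by
    by_contra h2
    push Not at h2
    have h3 : Subsingleton (secL D 1) := ⟨fun a b => by rw [h2 a, h2 b]⟩
    have h4 : h0 D 1 = 0 := Module.finrank_zero_of_subsingleton
    omega
  obtain ⟨s, hs⟩ := h1
  exact ⟨s.1, fun h2 => hs (Subtype.ext h2), s.2⟩

theorem hasS_of_pos (hX : IsVar X) {z : X.P} {W : Cart X} (h : 0 < hz hX z W) : ∃ Z, HasS hX z W Z := by
  obtain ⟨s, h1, h2⟩ := ex_sec h
  exact ⟨_, s, h1, h2, rfl⟩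

theorem hasX_of_pos {W : Cart X} (h : 0 < h0 W 1) : ∃ Z, HasX W Z := by
  obtain ⟨s, h1, h2⟩ := ex_sec h
  exact ⟨_, s, h1, h2, rfl⟩

theorem sec_pow {D : Cart X} {s : K} (hs : Sec D 1 s) (n : ℕ) : Sec (D ^ n) 1 (s ^ n) := by
  intro x
  have h1 := hs x
  rw [pow_one] at h1 ⊢
  rw [pow_eq, ← mul_pow]
  exact pow_mem h1 n

theorem un_sec_pow {D : Cart X} {s : K} (hs : Sec D 1 s) {n : ℕ} (hn : 1 ≤ n) (x : X.P) :
    Un (X.O x) (s ^ n * (D ^ n).eq x) ↔ Un (X.O x) (s * D.eq x) := by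
  have h1 := hs x
  rw [pow_one] at h1
  rw [pow_eq, ← mul_pow]
  exact un_pow_iff h1 hn

theorem hasS_pow (hX : IsVar X) {z : X.P} {W : Cart X} {Z : Set X.P} (h : HasS hX z W Z) {n : ℕ} (hn : 1 ≤ n) :
    HasS hX z (W ^ n) Z := by
  obtain ⟨s, h1, h2, h3⟩ := h
  refine ⟨s ^ n, pow_ne_zero n h1, ?_, ?_⟩
  · rw [map_pow]
    exact sec_pow h2 n
  · rw [← h3]
    ext x
    constructor
    · rintro ⟨hx, h4⟩
      refine ⟨hx, fun h5 => h4 ?_⟩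
      rw [map_pow]
      exact (un_sec_pow h2 hn _).2 h5
    · rintro ⟨hx, h4⟩
      refine ⟨hx, fun h5 => h4 ?_⟩
      rw [map_pow] at h5
      exact (un_sec_pow h2 hn _).1 h5

theorem hasX_pow {W : Cart X} {Z : Set X.P} (h : HasX W Z) {n : ℕ} (hn : 1 ≤ n) : HasX (W ^ n) Z := by
  obtain ⟨s, h1, h2, h3⟩ := h
  refine ⟨s ^ n, pow_ne_zero n h1, sec_pow h2 n, ?_⟩
  rw [← h3]
  ext x
  exact not_congr (un_sec_pow h2 hn x)

/-- the points of the zero set are smaller -/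
theorem hasS_lt (hX : IsVar X) {z : X.P} {W : Cart X} {Z : Set X.P} (hs : HasS hX z W Z) {y : X.P} (hy : y ∈ Z) :
    z ⤳ y ∧ Algebra.trdeg k (X.kap y) < Algebra.trdeg k (X.kap z) := by
  obtain ⟨s, h1, h2, h3⟩ := hs
  rw [← h3] at hy
  obtain ⟨hx, h4⟩ := hy
  refine ⟨hx, ?_⟩
  have h5 := trdeg_lt_gen (isVar_sub hX z) (gen_sub hX z) (x := ⟨y, hx⟩)
    (mul_ne_zero h1 ((resD hX z W).ne ⟨y, hx⟩)) h4
  rwa [trdeg_sub] at h5

theorem hasX_lt (hX : IsVar X) (hg : ∃ g, Gen X g) {W : Cart X} {Z : Set X.P} (hs : HasX W Z) {y : X.P} (hy : y ∈ Z) :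
    Algebra.trdeg k (X.kap y) < Algebra.trdeg k K := by
  obtain ⟨g, hg⟩ := hg
  obtain ⟨s, h1, h2, h3⟩ := hs
  rw [← h3] at hy
  exact trdeg_lt_gen hX hg (mul_ne_zero h1 (W.ne y)) hy

theorem hasX_pos [CharZero k] (hX : IsVar X) (hg : ∃ g, Gen X g) {A : Cart X} (hA : Ample A) {W : Cart X}
    {Z : Set X.P} (hs : HasX W Z) : 0 < h0 W 1 := by
  obtain ⟨s, h1, h2, -⟩ := hs
  exact H32.TK.pos_of_sec _ (Pool.Agent.H24.TK.fd hX hg hA W) h2 h1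

theorem fd_sub [CharZero k] (hX : IsVar X) {A : Cart X} (hA : Ample A) (z : X.P) (W : Cart (subM hX z)) :
    FiniteDimensional k (secL W 1) :=
  Pool.Agent.H24.TK.fd (isVar_sub hX z) ⟨_, gen_sub hX z⟩ (res_ample hX z _ hA) W

theorem hasS_pos [CharZero k] (hX : IsVar X) {A : Cart X} (hA : Ample A) {z : X.P} {W : Cart X}
    {Z : Set X.P} (hs : HasS hX z W Z) : 0 < hz hX z W := by
  obtain ⟨s, h1, h2, -⟩ := hs
  exact H32.TK.pos_of_sec _ (fd_sub hX hA z _) h2 h1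

/-- a section of `X` which does not vanish on `z` -/
theorem hasX_res (hX : IsVar X) {W : Cart X} {Z : Set X.P} (hs : HasX W Z) {z : X.P} (hz : z ∉ Z) :
    HasS hX z W {y | z ⤳ y ∧ y ∈ Z} := by
  obtain ⟨s, h1, h2, h3⟩ := hs
  have hu : Un (X.O z) (s * W.eq z ^ 1) := by
    rw [pow_one]
    by_contra h4
    apply hz
    rw [← h3]
    exact h4
  refine ⟨(resS hX z W 1 ⟨s, h2⟩ : X.kap z), fun h4 => (resS_zero hX z W 1 ⟨s, h2⟩).1 (Subtype.ext h4) hu,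
    (resS hX z W 1 ⟨s, h2⟩).2, ?_⟩
  ext y
  constructor
  · rintro ⟨hx, h4⟩
    refine ⟨hx, ?_⟩
    rw [← h3]
    intro h5
    apply h4
    have h6 := (nz_res hX z W 1 ⟨s, h2⟩ ⟨y, hx⟩).2 (by
      change Un (X.O y) (s * W.eq y ^ 1)
      rw [pow_one]
      exact h5)
    have h7 : Un ((subM hX z).O ⟨y, hx⟩) ((resS hX z W 1 ⟨s, h2⟩ : X.kap z) * (resD hX z W).eq ⟨y, hx⟩ ^ 1) := h6
    rwa [pow_one] at h7
  · rintro ⟨hx, h4⟩
    refine ⟨hx, fun h5 => ?_⟩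
    rw [← h3] at h4
    apply h4
    have h6 : (⟨y, hx⟩ : (subM hX z).P) ∈ nz (resD hX z W) 1 (resS hX z W 1 ⟨s, h2⟩ : X.kap z) := by
      change Un ((subM hX z).O ⟨y, hx⟩) ((resS hX z W 1 ⟨s, h2⟩ : X.kap z) * (resD hX z W).eq ⟨y, hx⟩ ^ 1)
      rw [pow_one]
      exact h5
    have h7 : Un (X.O y) (s * W.eq y ^ 1) := (nz_res hX z W 1 ⟨s, h2⟩ ⟨y, hx⟩).1 h6
    rwa [pow_one] at h7

/-- a section on `z` which does not vanish on `x`: a section on `x` -/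
theorem hasS_out [CharZero k] (hX : IsVar X) {A : Cart X} (hA : Ample A) {z x : X.P} {W : Cart X} {Z : Set X.P}
    (hs : HasS hX z W Z) (hzx : z ⤳ x) (hx : x ∉ Z) : 0 < hz hX x W := by
  obtain ⟨s, h1, h2, h3⟩ := hs
  have hu : Un ((subM hX z).O ⟨x, hzx⟩) (s * (resD hX z W).eq ⟨x, hzx⟩ ^ 1) := by
    rw [pow_one]
    by_contra h4
    apply hx
    rw [← h3]
    exact ⟨hzx, h4⟩
  have h4 : resS (isVar_sub hX z) ⟨x, hzx⟩ (resD hX z W) 1 ⟨s, h2⟩ ≠ 0 := fun h5 =>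
    (resS_zero (isVar_sub hX z) ⟨x, hzx⟩ (resD hX z W) 1 ⟨s, h2⟩).1 h5 hu
  have h5 := H32.TK.pos_of_sec _ (fd_sub (isVar_sub hX z) (res_ample hX z _ hA) ⟨x, hzx⟩ _)
    (resS (isVar_sub hX z) ⟨x, hzx⟩ (resD hX z W) 1 ⟨s, h2⟩).2 fun h6 => h4 (Subtype.ext h6)
  rwa [hz_sub] at h5

/-- the degree on the curves outside of the zero set -/
theorem dz_out [CharZero k] (hX : IsVar X) {A : Cart X} (hA : Ample A) {z x : X.P} {W : Cart X} {Z : Set X.P}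
    (hs : HasS hX z W Z) (hc : Cv z x) (hx : x ∉ Z) : 0 ≤ dz hX x W := by
  obtain ⟨s, h1, h2⟩ := ex_sec (hasS_out hX hA hs hc.1 hx)
  exact dz_nn hX ⟨A, hA⟩ hc.2 h2 h1

/-- a power of an ample divisor with sections on all subvarieties -/
theorem exists_bpf (hX : IsVar X) {A : Cart X} (hA : Ample A) :
    ∃ m : ℕ, 1 ≤ m ∧ Ample (A ^ m) ∧ Pool.Agent.H20.TK.Bpf (A ^ m) := by
  obtain ⟨m, hm, hb⟩ := Pool.Agent.H20.TK.bpf_exists hX A hA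
  exact ⟨m, hm, ample_pow A m hm hA, hb⟩

theorem bpf_hasS [CharZero k] (h : Hyp X) {H : Cart X} (hB : Pool.Agent.H20.TK.Bpf H) (z : X.P) :
    ∃ Z, HasS h.var z H Z :=
  hasS_of_pos h.var (Pool.Agent.H20.TQ.bpf_res h hB z)

theorem bpf_hasX [CharZero k] (h : Hyp X) {H : Cart X} (hB : Pool.Agent.H20.TK.Bpf H) : ∃ Z, HasX H Z :=
  hasX_of_pos (Pool.Agent.H20.TQ.bpf_pos h hB)

end Pool.Agent.H20.TP
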