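import Pool.Agent.H20.TP.Def
import Pool.Agent.H41.ZP.Res

/-!
# [H20 TP SubSub] COROLLARY P (MP_e49dc9_ag): a subvariety of a subvariety

`x` a point of the closed subvariety `z`: the restriction to `x` through `z` is the restriction to `x`, up to the
isomorphism `kapE` of the residue fields.
PROOF. `kapE hX z x : (subM hX z).kap x ≃ₐ[k] X.kap x.1` with `kapE_rs` (H83/TK/SubC), `resD_eq`, `rs_quo` (H83/TK/SubD): the local
equation of `resD _ x (resD hX z W)` at `y` is `rs x (rs z (W.eq y / W.eq z) / rs z (W.eq x / W.eq z)) = rs x (rs z (W.eq y / W.eq x))`, which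
`kapE` maps to `X.rs x.1 (W.eq y / W.eq x)`; the local ring of `subM (isVar_sub) x` at `y` is mapped by `kapE` onto the one of
`subM hX x.1` at `y` (`subO_iff`).  So `kapE` maps `secL` onto `secL` (finrank), and the sets `nz` and the affine sets correspond.
-/

set_option autoImplicit false

namespace Pool.Agent.H20.TP

open Pool.Agent.H54.RV Pool.Agent.H83.TU Pool.Agent.H83.TK Pool.Agent.H20.TD

variable {k K : Type} [Field k] [Field K] [Algebra k K] {X : Mod k K}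

theorem hz_sub (hX : IsVar X) (z : X.P) (x : (subM hX z).P) (W : Cart X) :
    h0 (resD (isVar_sub hX z) x (resD hX z W)) 1 = hz hX x.1 W := H41.ZP.h0_res hX z W 1 x

/-- sections of the restriction of the restriction -/
private theorem nz_eq (hX : IsVar X) {z x : X.P} (hx : z ⤳ x) (W : Cart X) (n : ℕ)
    (c : (subM hX z).kap ⟨x, hx⟩) (y : (subM hX x).P) :
    y ∈ nz (resD hX x W) n (kapE hX z ⟨x, hx⟩ c) ↔
      (⟨⟨y.1, hx.trans y.2⟩, (subM_spec hX z _ _).2 y.2⟩ : (subM (isVar_sub hX z) ⟨x, hx⟩).P) ∈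
        nz (resD (isVar_sub hX z) ⟨x, hx⟩ (resD hX z W)) n c :=
  (H41.ZP.res_nz hX z W n ⟨x, hx⟩ ⟨y.1, hx.trans y.2⟩ ((subM_spec hX z _ _).2 y.2) c).symm

theorem amp_sub (hX : IsVar X) {z x : X.P} (hx : z ⤳ x) {W : Cart X} (hW : Ample (resD hX z W)) :
    Ample (resD hX x W) := by
  have h1 := res_ample (isVar_sub hX z) ⟨x, hx⟩ _ hW
  intro y
  obtain ⟨n, hn, s, hs, h2, V, hV, hVs⟩ := h1 ⟨⟨y.1, hx.trans y.2⟩, (subM_spec hX z _ _).2 y.2⟩
  obtain ⟨V', hV', hVV⟩ := hV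
  refine ⟨n, hn, kapE hX z ⟨x, hx⟩ s, (H41.ZP.res_sec hX z W n ⟨x, hx⟩ s).1 hs, (nz_eq hX hx W n s y).2 h2,
    V', hV', ?_⟩
  ext w
  rw [nz_eq hX hx W n s w, hVs]
  change (⟨w.1, hx.trans w.2⟩ : (subM hX z).P) ∈ V ↔ w.1 ∈ V'
  rw [hVV]
  rfl

theorem trdeg_sub (hX : IsVar X) (z : X.P) (x : (subM hX z).P) :
    Algebra.trdeg k ((subM hX z).kap x) = Algebra.trdeg k (X.kap x.1) :=
  Pool.Agent.H83.TK.trdeg_sub hX z x

end Pool.Agent.H20.TP
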