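import Pool.Agent.H20.TP.Nk

/-!
# COROLLARY P (MP_e49dc9_ag): the steps from curves to surfaces and from surfaces to `X`
-/

set_option autoImplicit false

namespace Pool.Agent.H20.TP

open Pool.Agent.H54.RV Pool.Agent.H83.TU Pool.Agent.H83.TK Pool.Agent.H20.TD Pool.Agent.H39.TK
open Pool.Agent.H24.VP (RR chS)

variable {k K : Type} [Field k] [Field K] [Algebra k K] {X : Mod k K}
  {T : Cart X → Cart X → Cart X → ℝ} {l : Cart X → ℝ} {c : ℝ} {z : X.P} {S A B D G H : Cart X} {ZG ZH : Set X.P}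

/-- a point of the zero set lies on a surface of the zero set -/
theorem hasX_srf [CharZero k] (h : Hyp X) (hs : HasX G ZG) {y : X.P} (hy : y ∈ ZG) :
    ∃ z : X.P, z ⤳ y ∧ Algebra.trdeg k (X.kap z) = 2 ∧ z ∈ ZG := by
  obtain ⟨s, h1, h2, h3⟩ := hs
  have hE : Effective (prin X s h1 * G) := by
    intro x
    have h4 := h2 x
    rw [pow_one] at h4
    rw [mul_eq]
    exact h4
  rw [← h3] at hy
  obtain ⟨z, a, b, c⟩ := on_srf h (prin X s h1 * G) hE (x := y) (by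
    rw [mul_eq]
    exact hy)
  refine ⟨z, a, b, ?_⟩
  rw [← h3]
  rw [mul_eq] at c
  exact c

/-- **from curves to surfaces** -/
theorem sst [CharZero k] [IsAlgClosed k] (h : Hyp X) (hr : RR T l c) (htr : Algebra.trdeg k (X.kap z) = 2)
    (hS : SPr X z S) (hH : Ample H) (hsG : HasS h.var z G ZG) (hsH : HasS h.var z H ZH) {m : ℕ} (hm : 1 ≤ m)
    (hD : D ^ m = G * B) (hB : Ample B)
    (hc : ∀ y, y ∈ ZG ∨ y ∈ ZH → Cv z y → 0 < dz h.var y D) : Ample (resD h.var z D) := by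
  refine nk_z h.var (ev_srf h hr hS) (pl_srf hr S) hH hB hsG hsH hm hD fun y hy => ?_
  have h1 : z ⤳ y ∧ Algebra.trdeg k (X.kap y) < 2 := by
    rw [← htr]
    rcases hy with hy | hy
    · exact hasS_lt h.var hsG hy
    · exact hasS_lt h.var hsH hy
  exact pc_low h.var h1.2 hB hH fun h2 => hc y hy ⟨h1.1, h2⟩

/-- **from surfaces to `X`** -/
theorem xst [CharZero k] [IsAlgClosed k] (h : Hyp X) (hr : RR T l c)
    (hH : Ample H) (hbH : Pool.Agent.H20.TK.Bpf H) (hsG : HasX G ZG) (hsH : HasX H ZH) {m : ℕ} (hm : 1 ≤ m)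
    (hD : D ^ m = G * B) (hB : Ample B)
    (hz : ∀ z, z ∈ ZG ∨ z ∈ ZH → Algebra.trdeg k (X.kap z) = 2 → Ample (resD h.var z D)) : Ample D := by
  obtain ⟨j, hj, hBj, hbB⟩ := exists_bpf h.var hB
  refine nk_x h.var h.gen (P := Pool.Agent.H24.VP.chi T l c) (fun W A hA => hr.ev W A hA) (pl_chi hr) hH hBj
    (hasX_pow hsG hj) hsH (m := m * j) (Nat.mul_pos (by omega) (by omega)) ?_ fun y hy => ?_
  · rw [pow_mul, hD, mul_pow]
  · have h1 : Algebra.trdeg k (X.kap y) < 3 := by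
      rw [← h.tr]
      rcases hy with hy | hy
      · exact hasX_lt h.var h.gen hsG hy
      · exact hasX_lt h.var h.gen hsH hy
    refine pc_all h hr h1 hBj hH hbB hbH (fun h2 => ?_) fun h2 => hz y hy h2
    obtain ⟨z, a, b, hz'⟩ : ∃ z : X.P, z ⤳ y ∧ Algebra.trdeg k (X.kap z) = 2 ∧ (z ∈ ZG ∨ z ∈ ZH) := by
      rcases hy with hy | hy
      · obtain ⟨z, a, b, c⟩ := hasX_srf h hsG hy
        exact ⟨z, a, b, Or.inl c⟩
      · obtain ⟨z, a, b, c⟩ := hasX_srf h hsH hy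
        exact ⟨z, a, b, Or.inr c⟩
    exact dz_pos h.var ⟨H, hH⟩ h2 (amp_sub h.var a (hz z hz' b))

end Pool.Agent.H20.TP
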